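import Pool.Agent.X263.Qf.Grp

/-!
The augmentation of quadratic forms.
-/

set_option autoImplicit false
set_option linter.unusedSectionVars false

namespace Pool.Agent.X263.Qf

open Matrix TH6.PF

theorem map_ct {A B : Type*} [Ring A] [StarRing A] [Ring B] [StarRing B] (f : A →+* B)
    (hf : ∀ x, f (star x) = star (f x)) {m n : Type*} (M : Matrix m n A) :
    Mᴴ.map f = (M.map f)ᴴ := by
  ext i j
  simp only [Matrix.map_apply, conjTranspose_apply, hf]

theorem map_zs {A B : Type*} [Ring A] [Ring B] (f : A →+* B) (ε : ℤ) {m n : Type*}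
    (M : Matrix m n A) : (ε • M).map f = ε • M.map f := by
  ext i j
  simp only [Matrix.map_apply, Matrix.smul_apply, map_zsmul]

theorem QI.map {A B : Type*} [Ring A] [StarRing A] [Ring B] [StarRing B] (f : A →+* B)
    (hf : ∀ x, f (star x) = star (f x)) {ι κ : Type*} [Fintype ι] [DecidableEq ι] [Fintype κ]
    [DecidableEq κ] {ε : ℤ} {ψ : Matrix ι ι A} {ψ' : Matrix κ κ A} (h : QI ε ψ ψ') :
    QI ε (ψ.map f) (ψ'.map f) := by
  obtain ⟨P, Q, χ, h1, h2, h3⟩ := h
  refine ⟨P.map f, Q.map f, χ.map f, ?_, ?_, ?_⟩
  · rw [← Matrix.map_mul, h1, Matrix.map_one f (map_zero f) (map_one f)]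
  · rw [← Matrix.map_mul, h2, Matrix.map_one f (map_zero f) (map_one f)]
  · rw [← map_ct f hf P, ← Matrix.map_mul, ← Matrix.map_mul, h3, Matrix.map_add f (map_add f),
      Matrix.map_sub f (map_sub f), map_zs, map_ct f hf χ]

section

variable {K G : Type} [Ring K] [StarRing K] [Group G]

/-- the augmentation -/
noncomputable def augm (K G : Type) [Ring K] [Group G] : MonoidAlgebra K G →+* K :=
  MonoidAlgebra.liftNCRingHom (RingHom.id K) (1 : G →* K) fun _ _ => Commute.one_right _

omit [StarRing K] in
theorem augm_single (g : G) (r : K) : augm K G (MonoidAlgebra.single g r) = r := by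
  change MonoidAlgebra.liftNC _ _ (MonoidAlgebra.single g r) = r
  rw [MonoidAlgebra.liftNC_single]
  simp

omit [StarRing K] in
theorem augm_eq (x : MonoidAlgebra K G) : augm K G x = x.coeff.sum fun _ r => r := by
  induction x using MonoidAlgebra.induction_linear with
  | zero => simp
  | add x y hx hy =>
    rw [map_add, hx, hy, MonoidAlgebra.coeff_add, Finsupp.sum_add_index'] <;> simp
  | single g r => rw [augm_single, MonoidAlgebra.coeff_single, Finsupp.sum_single_index rfl]

theorem augm_sbar (x : MonoidAlgebra K G) : augm K G (sbar 1 x) = star (augm K G x) := by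
  induction x using MonoidAlgebra.induction_linear with
  | zero => rw [sbar_zero, map_zero, star_zero]
  | add x y hx hy => rw [sbar_add, map_add, hx, hy, map_add, star_add]
  | single g r =>
    rw [sbar_single, augm_single, augm_single, MonoidHom.one_apply, Units.val_one, one_smul]

/-- if a form over the group ring is isometric to a constant form, it is isometric to its
augmentation -/
theorem aug_form (ε : ℤ) {n : ℕ} (ψ : Matrix (Fin n) (Fin n) (MonoidAlgebra K G))
    (θ : Matrix (Fin n) (Fin n) K) (h : QG (1 : G →* ℤˣ) ε ψ (cm G θ)) :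
    QG (1 : G →* ℤˣ) ε ψ (cm G (ψ.map fun x => x.coeff.sum fun _ r => r)) := by
  rw [qg_iff] at h ⊢
  let _ := sr (R := K) (1 : G →* ℤˣ)
  have hstar : ∀ x : MonoidAlgebra K G, star x = sbar 1 x := fun _ => rfl
  have h1 := h.map (augm K G) (fun x => by rw [hstar, augm_sbar])
  have h2 := h1.map (MonoidAlgebra.singleOneRingHom : K →+* MonoidAlgebra K G) (fun x => by
    rw [hstar]
    change MonoidAlgebra.single 1 (star x) = sbar 1 (MonoidAlgebra.single 1 x)
    rw [sbar_single, inv_one, MonoidHom.one_apply, Units.val_one, one_smul])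
  have e1 : ((cm G θ).map (augm K G)).map
      (MonoidAlgebra.singleOneRingHom : K →+* MonoidAlgebra K G) = cm G θ := by
    ext1 i j
    rw [Matrix.map_apply, Matrix.map_apply, cm, Matrix.map_apply, augm_single]
    rfl
  have e2 : (ψ.map (augm K G)).map (MonoidAlgebra.singleOneRingHom : K →+* MonoidAlgebra K G) =
      cm G (ψ.map fun x => x.coeff.sum fun _ r => r) := by
    ext1 i j
    rw [Matrix.map_apply, Matrix.map_apply, cm, Matrix.map_apply, Matrix.map_apply, augm_eq]
    rfl
  rw [e1, e2] at h2
  exact h.trans h2.symm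

end

end Pool.Agent.X263.Qf
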