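import Mathlib

/-!
Quadratic forms over rings with involution as matrices: isometries, orthogonal sums and splitting
off a nonsingular block.
-/

set_option autoImplicit false
set_option linter.unusedSectionVars false

namespace Pool.Agent.X263.Qf

open Matrix

variable {A : Type*} [Ring A] [StarRing A]
variable {ι κ μ ι' κ' : Type*} [Fintype ι] [DecidableEq ι] [Fintype κ] [DecidableEq κ]
  [Fintype μ] [DecidableEq μ] [Fintype ι'] [DecidableEq ι'] [Fintype κ'] [DecidableEq κ']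

/-- the quadratic forms `ψ` and `ψ'` (matrices up to `χ - ε χᴴ`) are isometric -/
def QI (ε : ℤ) (ψ : Matrix ι ι A) (ψ' : Matrix κ κ A) : Prop :=
  ∃ (P : Matrix κ ι A) (Q : Matrix ι κ A) (χ : Matrix κ κ A), P * Q = 1 ∧ Q * P = 1 ∧
    P * ψ * Pᴴ = ψ' + (χ - ε • χᴴ)

/-- the symmetrisation -/
def sy (ε : ℤ) (ψ : Matrix ι ι A) : Matrix ι ι A := ψ + ε • ψᴴ

theorem ct_zsmul {m n : Type*} (ε : ℤ) (M : Matrix m n A) : (ε • M)ᴴ = ε • Mᴴ := by
  ext i j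
  simp only [conjTranspose_apply, Matrix.smul_apply]
  exact star_zsmul ε (M j i)

theorem QI.refl (ε : ℤ) (ψ : Matrix ι ι A) : QI ε ψ ψ :=
  ⟨1, 1, 0, by simp, by simp, by simp⟩

theorem QI.of_eq {ε : ℤ} {ψ ψ' : Matrix ι ι A} (h : ψ = ψ') : QI ε ψ ψ' := h ▸ QI.refl ε ψ

theorem QI.trans {ε : ℤ} {ψ : Matrix ι ι A} {ψ' : Matrix κ κ A} {ψ'' : Matrix μ μ A}
    (h : QI ε ψ ψ') (h' : QI ε ψ' ψ'') : QI ε ψ ψ'' := by
  obtain ⟨P, Q, χ, h1, h2, h3⟩ := h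
  obtain ⟨P', Q', χ', g1, g2, g3⟩ := h'
  refine ⟨P' * P, Q * Q', χ' + P' * χ * P'ᴴ, ?_, ?_, ?_⟩
  · rw [Matrix.mul_assoc, ← Matrix.mul_assoc P, h1, Matrix.one_mul, g1]
  · rw [Matrix.mul_assoc, ← Matrix.mul_assoc Q', g2, Matrix.one_mul, h2]
  · have e1 : P' * P * ψ * (P' * P)ᴴ = P' * (P * ψ * Pᴴ) * P'ᴴ := by
      rw [conjTranspose_mul]; simp only [Matrix.mul_assoc]
    have e2 : (P' * χ * P'ᴴ)ᴴ = P' * χᴴ * P'ᴴ := by
      rw [conjTranspose_mul, conjTranspose_mul, conjTranspose_conjTranspose, Matrix.mul_assoc]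
    rw [e1, h3, Matrix.mul_add, Matrix.add_mul, g3, conjTranspose_add, e2, Matrix.mul_sub,
      Matrix.sub_mul, Matrix.mul_smul, Matrix.smul_mul, smul_add]
    abel

theorem QI.symm {ε : ℤ} {ψ : Matrix ι ι A} {ψ' : Matrix κ κ A} (h : QI ε ψ ψ') :
    QI ε ψ' ψ := by
  obtain ⟨P, Q, χ, h1, h2, h3⟩ := h
  refine ⟨Q, P, -(Q * χ * Qᴴ), h2, h1, ?_⟩
  have e1 : Q * (P * ψ * Pᴴ) * Qᴴ = ψ := by
    calc Q * (P * ψ * Pᴴ) * Qᴴ = (Q * P) * ψ * (Q * P)ᴴ := by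
          rw [conjTranspose_mul]; simp only [Matrix.mul_assoc]
      _ = ψ := by rw [h2]; simp
  have e2 : (Q * χ * Qᴴ)ᴴ = Q * χᴴ * Qᴴ := by
    rw [conjTranspose_mul, conjTranspose_mul, conjTranspose_conjTranspose, Matrix.mul_assoc]
  have e3 : Q * ψ' * Qᴴ + (Q * χ * Qᴴ - ε • (Q * χᴴ * Qᴴ)) = ψ := by
    rw [← e1, h3, Matrix.mul_add, Matrix.add_mul, Matrix.mul_sub, Matrix.sub_mul, Matrix.mul_smul,
      Matrix.smul_mul]
  rw [conjTranspose_neg, e2, ← e3]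
  simp only [smul_neg]
  abel

theorem sy_ct {ε : ℤ} (hε : ε * ε = 1) (ψ : Matrix ι ι A) : (sy ε ψ)ᴴ = ε • sy ε ψ := by
  unfold sy
  rw [conjTranspose_add, ct_zsmul, conjTranspose_conjTranspose, smul_add, smul_smul, hε, one_smul]
  abel

theorem sy_mod {ε : ℤ} (hε : ε * ε = 1) (ψ χ : Matrix ι ι A) :
    sy ε (ψ + (χ - ε • χᴴ)) = sy ε ψ := by
  unfold sy
  rw [conjTranspose_add, conjTranspose_sub, ct_zsmul, conjTranspose_conjTranspose, smul_add,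
    smul_sub, smul_smul, hε, one_smul]
  abel

theorem sy_congr (ε : ℤ) (ψ : Matrix ι ι A) (P : Matrix κ ι A) :
    sy ε (P * ψ * Pᴴ) = P * sy ε ψ * Pᴴ := by
  unfold sy
  rw [conjTranspose_mul, conjTranspose_mul, conjTranspose_conjTranspose, Matrix.mul_add,
    Matrix.add_mul, Matrix.mul_smul, Matrix.smul_mul, Matrix.mul_assoc P ψᴴ]

/-- nonsingular forms -/
def NS (ε : ℤ) (ψ : Matrix ι ι A) : Prop := ∃ N : Matrix ι ι A, sy ε ψ * N = 1 ∧ N * sy ε ψ = 1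

theorem QI.ns {ε : ℤ} (hε : ε * ε = 1) {ψ : Matrix ι ι A} {ψ' : Matrix κ κ A} (h : QI ε ψ ψ')
    (hn : NS ε ψ) : NS ε ψ' := by
  obtain ⟨P, Q, χ, h1, h2, h3⟩ := h
  obtain ⟨N, g1, g2⟩ := hn
  have e1 : P * sy ε ψ * Pᴴ = sy ε ψ' := by rw [← sy_congr, h3, sy_mod hε]
  have e2 : Pᴴ * Qᴴ = 1 := by rw [← conjTranspose_mul, h2, conjTranspose_one]
  have e3 : Qᴴ * Pᴴ = 1 := by rw [← conjTranspose_mul, h1, conjTranspose_one]
  refine ⟨Qᴴ * N * Q, ?_, ?_⟩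
  · calc sy ε ψ' * (Qᴴ * N * Q) = P * sy ε ψ * (Pᴴ * Qᴴ) * N * Q := by
          rw [← e1]; simp only [Matrix.mul_assoc]
      _ = P * (sy ε ψ * N) * Q := by rw [e2]; simp only [Matrix.mul_assoc, Matrix.one_mul]
      _ = 1 := by rw [g1, Matrix.mul_one, h1]
  · calc Qᴴ * N * Q * sy ε ψ' = Qᴴ * N * (Q * P) * sy ε ψ * Pᴴ := by
          rw [← e1]; simp only [Matrix.mul_assoc]
      _ = Qᴴ * (N * sy ε ψ) * Pᴴ := by rw [h2]; simp only [Matrix.mul_assoc, Matrix.one_mul]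
      _ = 1 := by rw [g2, Matrix.mul_one, e3]

/-- orthogonal sum -/
abbrev os (ψ : Matrix ι ι A) (ψ' : Matrix κ κ A) : Matrix (ι ⊕ κ) (ι ⊕ κ) A :=
  fromBlocks ψ 0 0 ψ'

theorem QI.os {ε : ℤ} {ψ : Matrix ι ι A} {ψ' : Matrix κ κ A} {θ : Matrix ι' ι' A}
    {θ' : Matrix κ' κ' A} (h : QI ε ψ θ) (h' : QI ε ψ' θ') : QI ε (os ψ ψ') (os θ θ') := by
  obtain ⟨P, Q, χ, h1, h2, h3⟩ := h
  obtain ⟨P', Q', χ', g1, g2, g3⟩ := h'
  refine ⟨fromBlocks P 0 0 P', fromBlocks Q 0 0 Q', fromBlocks χ 0 0 χ', ?_, ?_, ?_⟩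
  · rw [fromBlocks_multiply]; simp [h1, g1]
  · rw [fromBlocks_multiply]; simp [h2, g2]
  · rw [fromBlocks_conjTranspose, fromBlocks_multiply, fromBlocks_multiply,
      fromBlocks_conjTranspose, Matrix.fromBlocks_smul, sub_eq_add_neg, Matrix.fromBlocks_neg,
      Matrix.fromBlocks_add, Matrix.fromBlocks_add]
    simp [h3, g3, sub_eq_add_neg]

/-- change of the index set -/
theorem QI.reindex (ε : ℤ) (ψ : Matrix ι ι A) (e : κ ≃ ι) : QI ε ψ (ψ.submatrix e e) := by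
  refine ⟨(1 : Matrix ι ι A).submatrix e id, (1 : Matrix ι ι A).submatrix id e, 0, ?_, ?_, ?_⟩
  · rw [← Matrix.submatrix_mul _ _ e id e Function.bijective_id, Matrix.one_mul,
      Matrix.submatrix_one_equiv]
  · rw [← Matrix.submatrix_mul _ _ id e id e.bijective, Matrix.one_mul, Matrix.submatrix_id_id]
  · rw [conjTranspose_submatrix, conjTranspose_one, conjTranspose_zero, smul_zero, sub_zero,
      add_zero]
    conv_lhs => rw [← Matrix.submatrix_id_id ψ]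
    rw [← Matrix.submatrix_mul _ _ e id id Function.bijective_id, Matrix.one_mul,
      ← Matrix.submatrix_mul _ _ e id e Function.bijective_id, Matrix.mul_one]

/-- splitting off a block on which the symmetrisation is invertible -/
theorem split (ε : ℤ) (a : Matrix ι ι A) (b : Matrix ι κ A) (c : Matrix κ ι A)
    (d : Matrix κ κ A) (N : Matrix ι ι A) (hN : sy ε a * N = 1) :
    QI ε (fromBlocks a b c d) (os a ((-(N * (b + ε • cᴴ)))ᴴ * a * (-(N * (b + ε • cᴴ))) +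
      (-(N * (b + ε • cᴴ)))ᴴ * b + c * (-(N * (b + ε • cᴴ))) + d)) := by
  set Y := -(N * (b + ε • cᴴ)) with hY
  have h1 : a * Y + b = -(ε • (Yᴴ * a + c)ᴴ) := by
    have h2 : sy ε a * Y = -(b + ε • cᴴ) := by
      rw [hY, Matrix.mul_neg, ← Matrix.mul_assoc, hN, Matrix.one_mul]
    rw [sy, Matrix.add_mul, Matrix.smul_mul] at h2
    rw [conjTranspose_add, conjTranspose_mul, conjTranspose_conjTranspose, smul_add]
    rw [eq_neg_iff_add_eq_zero] at h2 ⊢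
    rw [← h2]; abel
  refine ⟨fromBlocks 1 0 Yᴴ 1, fromBlocks 1 0 (-Yᴴ) 1, fromBlocks 0 0 (Yᴴ * a + c) 0, ?_, ?_, ?_⟩
  · rw [fromBlocks_multiply]; simp
  · rw [fromBlocks_multiply]; simp
  · rw [fromBlocks_conjTranspose, fromBlocks_multiply, fromBlocks_multiply,
      fromBlocks_conjTranspose, Matrix.fromBlocks_smul, sub_eq_add_neg, Matrix.fromBlocks_neg,
      Matrix.fromBlocks_add, Matrix.fromBlocks_add]
    simp only [conjTranspose_one, conjTranspose_zero, conjTranspose_conjTranspose, Matrix.one_mul,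
      Matrix.mul_one, Matrix.zero_mul, Matrix.mul_zero, add_zero, zero_add, smul_zero, neg_zero,
      h1, Matrix.add_mul]
    congr 1
    abel

theorem os_ns {ε : ℤ} {ψ : Matrix ι ι A} {ψ' : Matrix κ κ A} (h : NS ε (os ψ ψ')) :
    NS ε ψ' := by
  obtain ⟨N, h1, h2⟩ := h
  have e : sy ε (os ψ ψ') = fromBlocks (sy ε ψ) 0 0 (sy ε ψ') := by
    rw [sy, os, fromBlocks_conjTranspose, Matrix.fromBlocks_smul, Matrix.fromBlocks_add]
    simp [sy]
  rw [e, ← fromBlocks_toBlocks N, fromBlocks_multiply, ← fromBlocks_one] at h1 h2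
  refine ⟨N.toBlocks₂₂, ?_, ?_⟩
  · have := (fromBlocks_inj.1 h1).2.2.2
    simpa using this
  · have := (fromBlocks_inj.1 h2).2.2.2
    simpa using this

end Pool.Agent.X263.Qf
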