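import Pool.Agent.X263.Qf.Zp

/-!
The forms `T d b c` over commutative rings.
-/

set_option autoImplicit false
set_option linter.unusedSectionVars false

namespace Pool.Agent.X263.Qf

open Matrix

section

variable {B : Type*} [CommRing B] [StarRing B]

/-- a shear -/
theorem shear (hL : HL B) (m₁ m₂ j d d' : ℤ) (hd : 2 * d = m₁ * m₂)
    (hd' : 2 * d' = m₁ * (m₂ - 2 * m₁ * j)) (s c : B)
    (hc : (m₁ : B) * (c + star c) = s + star s + m₂ * (star s * s)) :
    QI 1 (T d (1 + (m₂ : B) * s) c)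
      (T d' (1 + ((m₂ - 2 * m₁ * j : ℤ) : B) * s) (c - (j : B) * (star s * s))) := by
  obtain ⟨r, hr⟩ : ∃ r, r = c + star c := ⟨_, rfl⟩
  obtain ⟨s', hs'⟩ : ∃ s', s' = star s := ⟨_, rfl⟩
  have hs : star s' = s := by rw [hs', star_star]
  rw [← hr, ← hs'] at hc
  rw [← hs']
  have e1 : c - (j : B) * (s' * s) + star (c - (j : B) * (s' * s)) = r - 2 * j * (s' * s) := by
    rw [star_sub, star_mul, star_mul, hs, star_m, ← hs', hr]; ring
  refine QI_of_sy hL !![1 + m₁ * j * s', -(m₁ ^ 2 * j); j * s' ^ 2, 1 - m₁ * j * s']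
    !![1 - m₁ * j * s', m₁ ^ 2 * j; -(j * s' ^ 2), 1 + m₁ * j * s'] ?_ ?_ ?_
  · rw [Matrix.mul_fin_two, Matrix.one_fin_two]
    ext i k
    fin_cases i <;> fin_cases k <;> simp <;> ring
  · rw [Matrix.mul_fin_two, Matrix.one_fin_two]
    ext i k
    fin_cases i <;> fin_cases k <;> simp <;> ring
  · rw [sy_T, sy_T, e1, ← hr, hd, hd', ct_two, Matrix.mul_fin_two, Matrix.mul_fin_two]
    simp only [star_add, star_sub, star_mul, star_neg, star_pow, star_one, star_m, hs, ← hs']
    push_cast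
    ext i k
    fin_cases i <;> fin_cases k
    · simp
      linear_combination (m₁ ^ 3 * j ^ 2 : B) * hc
    · simp
      linear_combination (-(m₁ * j * (1 - m₁ * j * s)) : B) * hc
    · simp
      linear_combination (-(m₁ * j * (1 - m₁ * j * s')) : B) * hc
    · simp
      linear_combination (-(j * (s + s')) + m₁ * j ^ 2 * s * s' : B) * hc

theorem castB {a b : ℤ} (h : a = b) : (a : B) = (b : B) := by rw [h]

/-- forms with the same symmetrisation -/
theorem T_eq (hL : HL B) (d : ℤ) {b b' c c' : B} (hb : b = b')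
    (hc : c + star c = c' + star c') : QI 1 (T d b c) (T d b' c') := by
  subst hb
  refine QI_of_sy hL 1 1 (one_mul 1) (one_mul 1) ?_
  rw [conjTranspose_one, Matrix.one_mul, Matrix.mul_one, sy_T, sy_T, hc]

/-- the Euclidean algorithm with even quotients -/
theorem euclid (hL : HL B) (n : ℕ) : ∀ (m₁ m₂ x y d : ℤ) (_ : m₁.natAbs + m₂.natAbs ≤ n)
    (_ : x * m₂ + y * m₁ = 1) (_ : 2 * d = m₁ * m₂) (t : B) (_ : t * star t = 1),
    SE 1 (T d (((x * m₂ : ℤ) : B) * t + ((y * m₁ : ℤ) : B)) (((x * y : ℤ) : B) * (t - 1)))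
      (hy B Unit) := by
  induction n with
  | zero =>
    intro m₁ m₂ x y d h1 h2
    have : m₁ = 0 := by omega
    have : m₂ = 0 := by omega
    subst_vars
    omega
  | succ n ih =>
  -- the case where the second modulus is larger
  have key : ∀ (m₁ m₂ x y d : ℤ) (_ : m₁.natAbs + m₂.natAbs ≤ n + 1)
      (_ : x * m₂ + y * m₁ = 1) (_ : 2 * d = m₁ * m₂) (t : B) (_ : t * star t = 1)
      (_ : m₁ ≠ 0) (_ : m₁.natAbs < m₂.natAbs),
      SE 1 (T d (((x * m₂ : ℤ) : B) * t + ((y * m₁ : ℤ) : B)) (((x * y : ℤ) : B) * (t - 1)))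
        (hy B Unit) := by
    intro m₁ m₂ x y d h1 h2 h3 t h4 h5 h6
    obtain ⟨j, hj⟩ : ∃ j : ℤ, (m₂ - 2 * m₁ * j).natAbs < m₂.natAbs := by
      by_cases hs : (0 < m₁ ∧ 0 < m₂) ∨ (m₁ < 0 ∧ m₂ < 0)
      · exact ⟨1, by omega⟩
      · exact ⟨-1, by omega⟩
    obtain ⟨d₀, hd₀⟩ : ∃ d₀ : ℤ, 2 * d₀ = m₁ * (m₂ - 2 * m₁ * j) :=
      ⟨d - m₁ ^ 2 * j, by linear_combination h3⟩
    have h2B : (x : B) * m₂ + y * m₁ = 1 := by
      have := castB (B := B) h2; push_cast at this; exact this
    have q1 := shear hL m₁ m₂ j d d₀ h3 hd₀ ((x : B) * (t - 1)) (((x * y : ℤ) : B) * (t - 1)) (by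
      push_cast
      simp only [star_mul, star_sub, star_one, star_m]
      linear_combination (x * (t + star t - 2) : B) * h2B - (m₂ * x ^ 2 : B) * h4)
    have s1 := ih m₁ (m₂ - 2 * m₁ * j) x (y + 2 * j * x) d₀ (by omega)
      (by linear_combination h2) hd₀ t h4
    refine (SE.of_QI ?_).trans s1
    refine (T_eq hL d ?_ rfl).trans (q1.trans (T_eq hL d₀ ?_ ?_))
    · push_cast; linear_combination (1 : B) * h2B
    · push_cast; linear_combination (-1 : B) * h2B
    · push_cast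
      simp only [star_mul, star_sub, star_add, star_one, star_m, star_star]
      simp
      linear_combination (-(2 * j * x ^ 2) : B) * h4
  intro m₁ m₂ x y d h1 h2 h3 t h4
  have h2B : (x : B) * m₂ + y * m₁ = 1 := by
    have := castB (B := B) h2; push_cast at this; exact this
  -- the exchange
  have sw : QI 1 (T d (((x * m₂ : ℤ) : B) * t + ((y * m₁ : ℤ) : B)) (((x * y : ℤ) : B) * (t - 1)))
      (T d (((y * m₁ : ℤ) : B) * star t + ((x * m₂ : ℤ) : B))
        (((y * x : ℤ) : B) * (star t - 1))) := by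
    refine QI_of_sy hL !![1, 0; 0, t] !![1, 0; 0, star t] ?_ ?_ ?_
    · rw [Matrix.mul_fin_two, Matrix.one_fin_two]; simp [h4]
    · rw [Matrix.mul_fin_two, Matrix.one_fin_two]; simp [mul_comm (star t), h4]
    · rw [sy_T, sy_T, ct_two, Matrix.mul_fin_two, Matrix.mul_fin_two]
      simp only [star_add, star_sub, star_mul, star_one, star_m, star_zero, star_star]
      push_cast
      ext i k
      fin_cases i <;> fin_cases k
      · simp
      · simp
        linear_combination (x * m₂ : B) * h4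
      · simp
        linear_combination (x * m₂ : B) * h4
      · simp
        linear_combination (x * y * (t - 1) + (star t - 1) * (x * y) : B) * h4
  by_cases hz : m₁ * m₂ = 0
  · have hd : d = 0 := by omega
    subst hd
    have hu : (((x * m₂ : ℤ) : B) * t + ((y * m₁ : ℤ) : B)) *
        star (((x * m₂ : ℤ) : B) * t + ((y * m₁ : ℤ) : B)) = 1 := by
      have hzB : (m₁ : B) * m₂ = 0 := by
        have := castB (B := B) hz; push_cast at this; exact this
      simp only [star_add, star_mul, star_m]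
      push_cast
      linear_combination (x * x * m₂ * m₂ : B) * h4 + (x * y * (t + star t - 2) : B) * hzB +
        (x * m₂ + y * m₁ + 1 : B) * h2B
    exact SE.of_QI (hplane _ _ _ hu (by rw [mul_comm]; exact hu))
  · have hm1 : m₁ ≠ 0 := left_ne_zero_of_mul hz
    have hm2 : m₂ ≠ 0 := right_ne_zero_of_mul hz
    rcases lt_trichotomy m₁.natAbs m₂.natAbs with h | h | h
    · exact key m₁ m₂ x y d h1 h2 h3 t h4 hm1 h
    · exfalso
      rcases Int.natAbs_eq_natAbs_iff.1 h with h5 | h5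
      · subst h5
        have h6 : m₁ ∣ 1 := ⟨x + y, by linear_combination -h2⟩
        rcases Int.isUnit_iff.1 (isUnit_of_dvd_one h6) with h7 | h7 <;> subst h7 <;> omega
      · subst h5
        have h6 : m₂ ∣ 1 := ⟨x - y, by linear_combination -h2⟩
        rcases Int.isUnit_iff.1 (isUnit_of_dvd_one h6) with h7 | h7 <;> subst h7 <;> omega
    · refine (SE.of_QI sw).trans ?_
      exact key m₂ m₁ y x d (by omega) (by linear_combination h2) (by linear_combination h3)
        (star t) (by rw [star_star, mul_comm]; exact h4) hm2 h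

/-- the residues of the first type -/
theorem Z_euclid (hL : HL B) (m₁ m₂ x y d : ℤ) (h1 : x * m₂ + y * m₁ = 1)
    (h2 : 2 * d = m₁ * m₂) (t : B) (h3 : t * star t = 1) :
    Z d (((x * m₂ : ℤ) : B) * t + ((y * m₁ : ℤ) : B)) := by
  have h1B : (x : B) * m₂ + y * m₁ = 1 := by
    have := castB (B := B) h1; push_cast at this; exact this
  refine ⟨((x * y : ℤ) : B) * (t - 1), ((x * y : ℤ) : B) * (t - 1), ?_,
    euclid hL _ m₁ m₂ x y d le_rfl h1 h2 t h3⟩
  have key : (((x * m₂ : ℤ) : B) * t + ((y * m₁ : ℤ) : B)) *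
      star (((x * m₂ : ℤ) : B) * t + ((y * m₁ : ℤ) : B)) = 1 + ((2 * d : ℤ) : B) *
        (((x * y : ℤ) : B) * (t - 1) + star (((x * y : ℤ) : B) * (t - 1))) := by
    rw [h2]
    simp only [star_add, star_sub, star_one, star_mul, star_m]
    push_cast
    linear_combination (x * x * m₂ * m₂ : B) * h3 + (x * m₂ + y * m₁ + 1 : B) * h1B
  exact ⟨by rw [mul_comm]; exact key, key⟩

/-- a form with an isotropic vector that is part of a basis -/
theorem iso (hL : HL B) (d : ℤ) (b c x₁ x₂ y₁ y₂ : B)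
    (h0 : (x₁ * ((2 * d : ℤ) : B) + x₂ * star b) * star x₁ +
      (x₁ * b + x₂ * (c + star c)) * star x₂ = 0)
    (h1 : (x₁ * ((2 * d : ℤ) : B) + x₂ * star b) * star y₁ +
      (x₁ * b + x₂ * (c + star c)) * star y₂ = 1) :
    QI 1 (T d b c) (hy B Unit) := by
  obtain ⟨ζ, hζ⟩ : ∃ ζ, ζ = y₁ * (d : B) * star y₁ + y₁ * b * star y₂ + y₂ * c * star y₂ :=
    ⟨_, rfl⟩
  have hP : !![x₁, x₂; y₁, y₂] * sy 1 (T d b c) * (!![x₁, x₂; y₁, y₂])ᴴ =
      sy 1 (T 0 1 ζ) := by
    have h1' : (y₁ * ((2 * d : ℤ) : B) + y₂ * star b) * star x₁ +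
      (y₁ * b + y₂ * (c + star c)) * star x₂ = 1 := by
      have := congrArg star h1
      simp only [star_add, star_mul, star_m, star_star, star_one] at this
      rw [← this]; ring
    have hz : (y₁ * ((2 * d : ℤ) : B) + y₂ * star b) * star y₁ +
        (y₁ * b + y₂ * (c + star c)) * star y₂ = ζ + star ζ := by
      rw [hζ]
      simp only [star_add, star_mul, star_m, star_star]
      push_cast
      ring
    rw [sy_T, sy_T, ct_two, Matrix.mul_fin_two, Matrix.mul_fin_two, h0, h1, h1', hz]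
    simp
  have hN : sy 1 (T 0 1 ζ) * !![-(ζ + star ζ), 1; 1, 0] = 1 := by
    rw [sy_T, Matrix.mul_fin_two, Matrix.one_fin_two]
    simp
  have hPQ : !![x₁, x₂; y₁, y₂] * (sy 1 (T d b c) * (!![x₁, x₂; y₁, y₂])ᴴ *
      !![-(ζ + star ζ), 1; 1, 0]) = 1 := by
    rw [← Matrix.mul_assoc, ← Matrix.mul_assoc, hP, hN]
  exact (QI_of_sy hL _ _ hPQ (mul_eq_one_comm.1 hPQ) hP).trans
    (hplane 1 ζ 1 (one_mul 1) (one_mul 1))

end

end Pool.Agent.X263.Qf
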