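import Pool.Agent.X263.Qf.Basic

/-!
Quadratic forms whose matrix has entries in a division subring off one row and column.
-/

set_option autoImplicit false
set_option linter.unusedSectionVars false

namespace Pool.Agent.X263.Qf

open Matrix

variable {A : Type*} [Ring A] [StarRing A]

/-- the conditions on the ring `A` and the subring `C` of constants -/
structure Cb (ε : ℤ) (C : Subring A) : Prop where
  star_mem : ∀ x ∈ C, star x ∈ C
  dom : ∀ x y : A, x * y = 0 → x = 0 ∨ y = 0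
  nt : (1 : A) ≠ 0
  lin : ∀ x : A, x + ε • star x ∈ C → ∃ c ∈ C, ∃ χ : A, x = c + (χ - ε • star χ)
  unit : ∀ u v : A, u * v = 1 → v * u = 1 → u = ε • star u → u ∈ C

/-- the conditions on the ring `A` and the division subring `C` of constants -/
structure Cf (ε : ℤ) (C : Subring A) : Prop extends Cb ε C where
  inv : ∀ x ∈ C, x ≠ 0 → ∃ y ∈ C, x * y = 1 ∧ y * x = 1

variable {ε : ℤ} {C : Subring A}

theorem point (hC : Cb ε C) (hε : ε * ε = 1) {κ : Type} [Fintype κ] [DecidableEq κ] [Unique κ]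
    (ψ : Matrix κ κ A) (hn : NS ε ψ) :
    ∃ θ : Matrix κ κ A, (∀ i j, θ i j ∈ C) ∧ QI ε ψ θ := by
  obtain ⟨N, h1, h2⟩ := hn
  set d := ψ default default with hd
  have h3 : (d + ε • star d) * N default default = 1 := by
    have := congrFun (congrFun h1 default) default
    simpa [Matrix.mul_apply, sy, -zsmul_eq_mul] using this
  have h4 : N default default * (d + ε • star d) = 1 := by
    have := congrFun (congrFun h2 default) default
    simpa [Matrix.mul_apply, sy, -zsmul_eq_mul] using this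
  have h5 : d + ε • star d ∈ C := by
    refine hC.unit _ _ h3 h4 ?_
    rw [star_add, star_zsmul, star_star, smul_add, smul_smul, hε, one_smul, add_comm]
  obtain ⟨c, hc, χ, hχ⟩ := hC.lin d h5
  refine ⟨fun _ _ => c, fun _ _ => hc, 1, 1, fun _ _ => χ, by simp, by simp, ?_⟩
  ext i j
  obtain rfl := Subsingleton.elim i default
  obtain rfl := Subsingleton.elim j default
  rw [Matrix.one_mul, conjTranspose_one, Matrix.mul_one]
  exact hχ

theorem plane (hC : Cb ε C) (ψ : Matrix (Fin 2) (Fin 2) A)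
    (h00 : ψ 0 0 ∈ C) (h0 : ψ 0 0 + ε • star (ψ 0 0) = 0) (hn : NS ε ψ) :
    ∃ θ : Matrix (Fin 2) (Fin 2) A, (∀ i j, θ i j ∈ C) ∧ QI ε ψ θ := by
  obtain ⟨N, h1, h2⟩ := hn
  set μ := ψ 0 0 with hμ
  set w := N 1 0 with hw
  have h3 : (ψ 0 1 + ε • star (ψ 1 0)) * w = 1 := by
    have := congrFun (congrFun h1 0) 0
    simp only [Matrix.mul_apply, Fin.sum_univ_two, sy, Matrix.add_apply, Matrix.smul_apply,
      conjTranspose_apply, Matrix.one_apply_eq] at this
    rw [← hμ, h0, zero_mul, zero_add] at this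
    exact this
  set v := ψ 0 1 + ε • star (ψ 1 0) with hv
  have h4 : w * v = 1 := by
    rcases hC.dom v (w * v - 1) (by rw [mul_sub, ← mul_assoc, h3]; simp) with h | h
    · rw [h, zero_mul] at h3; exact absurd h3.symm hC.nt
    · exact sub_eq_zero.1 h
  have hμ' : μ = -(ε • star μ) := eq_neg_of_add_eq_zero_left h0
  -- scaling
  obtain ⟨ν, hν⟩ : ∃ ν, ν = star w * ψ 1 1 * w := ⟨_, rfl⟩
  have s1 : QI ε ψ !![μ, 1; 0, ν] := by
    refine ⟨!![1, 0; 0, star w], !![1, 0; 0, star v], !![0, 0; star w * ψ 1 0, 0], ?_, ?_, ?_⟩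
    · ext i j; fin_cases i <;> fin_cases j <;>
        simp [Matrix.mul_apply, Fin.sum_univ_two, ← star_mul, h3]
    · ext i j; fin_cases i <;> fin_cases j <;>
        simp [Matrix.mul_apply, Fin.sum_univ_two, ← star_mul, h4]
    · have e1 : ψ 0 1 * w = 1 + -(ε • (star (ψ 1 0) * w)) := by
        rw [← h3, hv, add_mul, smul_mul_assoc]; abel
      ext i j
      fin_cases i <;> fin_cases j
      · simp [Matrix.mul_apply, Fin.sum_univ_two, conjTranspose_apply, hμ, -zsmul_eq_mul, Matrix.vecMul, dotProduct]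
      · simpa [Matrix.mul_apply, Fin.sum_univ_two, conjTranspose_apply, -zsmul_eq_mul, Matrix.vecMul, dotProduct] using e1
      · simp [Matrix.mul_apply, Fin.sum_univ_two, conjTranspose_apply, -zsmul_eq_mul, Matrix.vecMul, dotProduct]
      · simp [Matrix.mul_apply, Fin.sum_univ_two, conjTranspose_apply, hν, -zsmul_eq_mul, Matrix.vecMul, dotProduct]
  have s2 : QI ε !![μ, 1; 0, ν] !![μ, 1; 0, ν * μ * star ν] := by
    refine ⟨!![1, 0; -ν, 1], !![1, 0; ν, 1], !![0, 0; -ν * μ, 0], ?_, ?_, ?_⟩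
    · ext i j; fin_cases i <;> fin_cases j <;> simp [Matrix.mul_apply, Fin.sum_univ_two]
    · ext i j; fin_cases i <;> fin_cases j <;> simp [Matrix.mul_apply, Fin.sum_univ_two]
    · have e1 : -(μ * star ν) + 1 = 1 + ε • (star μ * star ν) := by
        conv_lhs => rw [hμ']
        rw [neg_mul, neg_neg, smul_mul_assoc, add_comm]
      ext i j
      fin_cases i <;> fin_cases j
      · simp [Matrix.mul_apply, Fin.sum_univ_two, conjTranspose_apply, -zsmul_eq_mul, Matrix.vecMul, dotProduct]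
      · simpa [Matrix.mul_apply, Fin.sum_univ_two, conjTranspose_apply, -zsmul_eq_mul, Matrix.vecMul, dotProduct] using e1
      · simp [Matrix.mul_apply, Fin.sum_univ_two, conjTranspose_apply, -zsmul_eq_mul, Matrix.vecMul, dotProduct]
      · simp [Matrix.mul_apply, Fin.sum_univ_two, conjTranspose_apply, mul_assoc, -zsmul_eq_mul, Matrix.vecMul, dotProduct]
  obtain ⟨η, hη⟩ : ∃ η, η = ν * μ * star ν := ⟨_, rfl⟩
  rw [← hη] at s2
  have h5 : η + ε • star η ∈ C := by
    have : η + ε • star η = ν * (μ + ε • star μ) * star ν := by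
      rw [hη, star_mul, star_mul, star_star, mul_add, add_mul, ← mul_assoc, mul_smul_comm,
        smul_mul_assoc]
    rw [this, h0, mul_zero, zero_mul]; exact C.zero_mem
  obtain ⟨c, hc, χ, hχ⟩ := hC.lin η h5
  refine ⟨!![μ, 1; 0, c], ?_, s1.trans (s2.trans ?_)⟩
  · intro i j
    fin_cases i <;> fin_cases j
    · exact h00
    · exact C.one_mem
    · exact C.zero_mem
    · exact hc
  · refine ⟨1, 1, !![0, 0; 0, χ], by simp, by simp, ?_⟩
    ext i j
    fin_cases i <;> fin_cases j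
    · simp [conjTranspose_apply, -zsmul_eq_mul]
    · simp [conjTranspose_apply, -zsmul_eq_mul]
    · simp [conjTranspose_apply, -zsmul_eq_mul]
    · simpa [conjTranspose_apply, -zsmul_eq_mul] using hχ

/-- a splitting step -/
theorem step (hC : Cf ε C) {α κ' κ : Type} [Fintype α] [DecidableEq α] [Fintype κ']
    [DecidableEq κ'] [Fintype κ] [DecidableEq κ] (e0 : α ⊕ κ' ≃ κ)
    (ψ : Matrix (κ ⊕ Unit) (κ ⊕ Unit) A) (hψ : ∀ i j, ψ (Sum.inl i) (Sum.inl j) ∈ C)
    (hε : ε * ε = 1) (hn : NS ε ψ) (N : Matrix α α A) (hNC : ∀ i j, N i j ∈ C)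
    (hN : sy ε (Matrix.of fun i j : α => ψ (Sum.inl (e0 (Sum.inl i))) (Sum.inl (e0 (Sum.inl j))))
      * N = 1)
    (ih : ∀ ψ' : Matrix (κ' ⊕ Unit) (κ' ⊕ Unit) A, (∀ i j, ψ' (Sum.inl i) (Sum.inl j) ∈ C) →
      NS ε ψ' → ∃ θ : Matrix (κ' ⊕ Unit) (κ' ⊕ Unit) A, (∀ i j, θ i j ∈ C) ∧ QI ε ψ' θ) :
    ∃ θ : Matrix (κ ⊕ Unit) (κ ⊕ Unit) A, (∀ i j, θ i j ∈ C) ∧ QI ε ψ θ := by
  let e : α ⊕ (κ' ⊕ Unit) ≃ κ ⊕ Unit :=
    (Equiv.sumAssoc α κ' Unit).symm.trans (Equiv.sumCongr e0 (Equiv.refl Unit))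
  have q1 := QI.reindex ε ψ e
  set φ := ψ.submatrix e e with hφ
  have q2 := split ε φ.toBlocks₁₁ φ.toBlocks₁₂ φ.toBlocks₂₁ φ.toBlocks₂₂ N hN
  rw [fromBlocks_toBlocks] at q2
  set Y := -(N * (φ.toBlocks₁₂ + ε • φ.toBlocks₂₁ᴴ)) with hY
  set δ := Yᴴ * φ.toBlocks₁₁ * Y + Yᴴ * φ.toBlocks₁₂ + φ.toBlocks₂₁ * Y + φ.toBlocks₂₂ with hδ
  have c11 : ∀ i j, φ.toBlocks₁₁ i j ∈ C := fun i j => hψ _ _
  have c12 : ∀ i j, φ.toBlocks₁₂ i (Sum.inl j) ∈ C := fun i j => hψ _ _
  have c21 : ∀ i j, φ.toBlocks₂₁ (Sum.inl i) j ∈ C := fun i j => hψ _ _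
  have c22 : ∀ i j, φ.toBlocks₂₂ (Sum.inl i) (Sum.inl j) ∈ C := fun i j => hψ _ _
  have cY : ∀ i j, Y i (Sum.inl j) ∈ C := by
    intro i j
    rw [hY, Matrix.neg_apply, Matrix.mul_apply]
    refine C.neg_mem (C.sum_mem fun k _ => C.mul_mem (hNC _ _) ?_)
    rw [Matrix.add_apply, Matrix.smul_apply, conjTranspose_apply]
    exact C.add_mem (c12 _ _) (C.zsmul_mem (hC.star_mem _ (c21 _ _)) _)
  have cδ : ∀ i j, δ (Sum.inl i) (Sum.inl j) ∈ C := by
    intro i j
    rw [hδ, Matrix.add_apply, Matrix.add_apply, Matrix.add_apply, Matrix.mul_apply,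
      Matrix.mul_apply, Matrix.mul_apply]
    refine C.add_mem (C.add_mem (C.add_mem (C.sum_mem fun k _ => C.mul_mem ?_ (cY _ _))
      (C.sum_mem fun k _ => C.mul_mem (hC.star_mem _ (cY _ _)) (c12 _ _)))
      (C.sum_mem fun k _ => C.mul_mem (c21 _ _) (cY _ _))) (c22 _ _)
    rw [Matrix.mul_apply]
    exact C.sum_mem fun l _ => C.mul_mem (hC.star_mem _ (cY _ _)) (c11 _ _)
  have n2 : NS ε (os φ.toBlocks₁₁ δ) := (q1.trans q2).ns hε hn
  obtain ⟨θ', hθ', q3⟩ := ih δ cδ (os_ns n2)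
  have q4 := (q1.trans q2).trans ((QI.refl ε φ.toBlocks₁₁).os q3)
  have q5 := q4.trans (QI.reindex ε _ e.symm)
  refine ⟨_, ?_, q5⟩
  intro i j
  rw [Matrix.submatrix_apply]
  rcases e.symm i with i | i <;> rcases e.symm j with j | j
  · exact c11 _ _
  · exact C.zero_mem
  · exact C.zero_mem
  · exact hθ' _ _

theorem core_aux (hC : Cf ε C) (hε : ε * ε = 1) (n : ℕ) :
    ∀ (κ : Type) [Fintype κ] [DecidableEq κ], Fintype.card κ = n →
    ∀ ψ : Matrix (κ ⊕ Unit) (κ ⊕ Unit) A, (∀ i j, ψ (Sum.inl i) (Sum.inl j) ∈ C) →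
      NS ε ψ → ∃ θ : Matrix (κ ⊕ Unit) (κ ⊕ Unit) A, (∀ i j, θ i j ∈ C) ∧ QI ε ψ θ := by
  classical
  induction n using Nat.strong_induction_on with
  | _ n ih =>
  intro κ _ _ hcard ψ hψ hn
  have key : ∀ (α : Type) [Fintype α] [DecidableEq α] [Nonempty α] (f : α → κ)
      (_ : Function.Injective f) (N : Matrix α α A) (_ : ∀ i j, N i j ∈ C)
      (_ : sy ε (Matrix.of fun i j : α => ψ (Sum.inl (f i)) (Sum.inl (f j))) * N = 1),
      ∃ θ : Matrix (κ ⊕ Unit) (κ ⊕ Unit) A, (∀ i j, θ i j ∈ C) ∧ QI ε ψ θ := by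
    intro α _ _ _ f hf N hNC hN
    let e0 : α ⊕ ((Set.range f)ᶜ : Set κ) ≃ κ :=
      (Equiv.sumCongr (Equiv.ofInjective f hf) (Equiv.refl _)).trans (Equiv.Set.sumCompl _)
    have he : ∀ i, e0 (Sum.inl i) = f i := fun i => by simp [e0]
    refine step hC e0 ψ hψ hε hn N hNC ?_ ?_
    · simp only [he]; exact hN
    · have h1 : Fintype.card α + Fintype.card ((Set.range f)ᶜ : Set κ) = Fintype.card κ := by
        rw [← Fintype.card_sum]; exact Fintype.card_congr e0
      have h2 : 0 < Fintype.card α := Fintype.card_pos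
      exact ih _ (by omega) _ rfl
  by_cases c1 : ∃ a, sy ε ψ (Sum.inl a) (Sum.inl a) ≠ 0
  · obtain ⟨a, ha⟩ := c1
    have hm : sy ε ψ (Sum.inl a) (Sum.inl a) ∈ C := by
      rw [sy, Matrix.add_apply, Matrix.smul_apply, conjTranspose_apply]
      exact C.add_mem (hψ _ _) (C.zsmul_mem (hC.star_mem _ (hψ _ _)) _)
    obtain ⟨y, hy, h1, h2⟩ := hC.inv _ hm ha
    refine key Unit (fun _ => a) (fun _ _ _ => rfl) (Matrix.of fun _ _ => y)
      (fun _ _ => hy) ?_
    ext i j
    rw [Matrix.mul_apply]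
    simpa [sy, Matrix.one_apply, -zsmul_eq_mul] using h1
  push Not at c1
  by_cases c2 : ∃ a b, sy ε ψ (Sum.inl a) (Sum.inl b) ≠ 0
  · obtain ⟨a, b, hab⟩ := c2
    have hne : a ≠ b := by rintro rfl; exact hab (c1 _)
    have hm : sy ε ψ (Sum.inl a) (Sum.inl b) ∈ C := by
      rw [sy, Matrix.add_apply, Matrix.smul_apply, conjTranspose_apply]
      exact C.add_mem (hψ _ _) (C.zsmul_mem (hC.star_mem _ (hψ _ _)) _)
    obtain ⟨y, hy, h1, h2⟩ := hC.inv _ hm hab
    have hba : sy ε ψ (Sum.inl b) (Sum.inl a) = ε • star (sy ε ψ (Sum.inl a) (Sum.inl b)) := by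
      have := congrFun (congrFun (sy_ct hε ψ) (Sum.inl b)) (Sum.inl a)
      rw [conjTranspose_apply, Matrix.smul_apply] at this
      rw [this, smul_smul, hε, one_smul]
    have ba : sy ε ψ (Sum.inl b) (Sum.inl a) * (ε • star y) = 1 := by
      rw [hba, smul_mul_smul_comm, hε, one_smul, ← star_mul, h2, star_one]
    refine key (Fin 2) ![a, b] ?_ !![0, ε • star y; y, 0] ?_ ?_
    · intro i j hij
      fin_cases i <;> fin_cases j <;> simp_all
    · intro i j
      fin_cases i <;> fin_cases j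
      · exact C.zero_mem
      · exact C.zsmul_mem (hC.star_mem _ hy) _
      · exact hy
      · exact C.zero_mem
    · have e1 : sy ε (Matrix.of fun i j : Fin 2 => ψ (Sum.inl (![a, b] i))
          (Sum.inl (![a, b] j))) = !![0, sy ε ψ (Sum.inl a) (Sum.inl b);
            sy ε ψ (Sum.inl b) (Sum.inl a), 0] := by
        ext i j
        fin_cases i <;> fin_cases j
        · exact c1 a
        · rfl
        · rfl
        · exact c1 b
      rw [e1]
      ext i j
      fin_cases i <;> fin_cases j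
      · simpa [Matrix.mul_apply, Fin.sum_univ_two] using h1
      · simp [Matrix.mul_apply, Fin.sum_univ_two]
      · simp [Matrix.mul_apply, Fin.sum_univ_two]
      · simpa [Matrix.mul_apply, Fin.sum_univ_two, -zsmul_eq_mul] using ba
  push Not at c2
  obtain ⟨N, h1, h2⟩ := hn
  -- the core is zero
  have hrow : ∀ a b : κ, sy ε ψ (Sum.inl a) (Sum.inr ()) * N (Sum.inr ()) (Sum.inl b) =
      if a = b then 1 else 0 := by
    intro a b
    have := congrFun (congrFun h1 (Sum.inl a)) (Sum.inl b)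
    rw [Matrix.mul_apply, Fintype.sum_sum_type] at this
    simpa [c2, Matrix.one_apply, -zsmul_eq_mul] using this
  have hsub : Subsingleton κ := by
    refine ⟨fun a b => ?_⟩
    by_contra hab
    have e1 := hrow a a
    have e2 := hrow a b
    have e3 := hrow b b
    rw [if_pos rfl] at e1 e3
    rw [if_neg hab] at e2
    rcases hC.dom _ _ e2 with h | h
    · rw [h, zero_mul] at e1; exact hC.nt e1.symm
    · rw [h, mul_zero] at e3; exact hC.nt e3.symm
  rcases isEmpty_or_nonempty κ with hk | ⟨⟨a⟩⟩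
  · let e : Unit ≃ κ ⊕ Unit := (Equiv.emptySum κ Unit).symm
    have q1 := QI.reindex ε ψ e
    obtain ⟨θ, hθ, q2⟩ := point hC.toCb hε _ (q1.ns hε ⟨N, h1, h2⟩)
    exact ⟨_, fun i j => by rw [Matrix.submatrix_apply]; exact hθ _ _,
      (q1.trans q2).trans (QI.reindex ε _ e.symm)⟩
  · have : Unique κ := ⟨⟨a⟩, fun b => Subsingleton.elim _ _⟩
    let e : Fin 2 ≃ κ ⊕ Unit := (finSumFinEquiv (m := 1) (n := 1)).symm.trans
      (Equiv.sumCongr (Equiv.ofUnique _ _) (Equiv.ofUnique _ _))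
    have e0 : e 0 = Sum.inl a := by
      rw [show a = default from Subsingleton.elim _ _]; rfl
    have q1 := QI.reindex ε ψ e
    obtain ⟨θ, hθ, q2⟩ := plane hC.toCb (ψ.submatrix e e)
      (by rw [Matrix.submatrix_apply, e0]; exact hψ _ _)
      (by
        have := c2 a a
        rw [sy, Matrix.add_apply, Matrix.smul_apply, conjTranspose_apply] at this
        rw [Matrix.submatrix_apply, e0]; exact this) (q1.ns hε ⟨N, h1, h2⟩)
    exact ⟨_, fun i j => by rw [Matrix.submatrix_apply]; exact hθ _ _,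
      (q1.trans q2).trans (QI.reindex ε _ e.symm)⟩

end Pool.Agent.X263.Qf
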