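import Pool.Agent.X263.Qf.Red

/-!
The even stable theorem for integral group rings.
-/

set_option autoImplicit false
set_option linter.unusedSectionVars false

namespace Pool.Agent.X263.Qf

open Matrix TH6.PF

attribute [local instance] zs

section

variable {G : Type} [Group G]

theorem trace_comm (x y : MonoidAlgebra ℤ G) : (x * y).coeff 1 = (y * x).coeff 1 := by
  induction x using MonoidAlgebra.induction_linear with
  | zero => simp
  | add x x' hx hy =>
    rw [mul_add, add_mul, MonoidAlgebra.coeff_add, MonoidAlgebra.coeff_add, Finsupp.add_apply,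
      Finsupp.add_apply, hx, hy]
  | single g r =>
    rw [MonoidAlgebra.coeff_single_mul_apply, MonoidAlgebra.coeff_mul_single_apply, mul_one,
      one_mul, mul_comm]

/-- a self-adjoint divisor of a constant is constant -/
theorem const_of_mul [UniqueProds G] (D N : MonoidAlgebra ℤ G) (n : ℤ) (hn : n ≠ 0)
    (h1 : D * N = n) (h2 : N * D = n) (hs : star D = D) :
    ∃ e : ℤ, D = e := by
  classical
  let F : MonoidAlgebra ℤ G →+* MonoidAlgebra ℚ G := MonoidAlgebra.mapRingHom G (Int.castRingHom ℚ)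
  have hF : ∀ (x : MonoidAlgebra ℤ G) (g : G), (F x).coeff g = ((x.coeff g : ℤ) : ℚ) :=
    fun x g => rfl
  have hc : ∀ x : MonoidAlgebra ℚ G, x * MonoidAlgebra.single 1 (n : ℚ)⁻¹ =
      MonoidAlgebra.single 1 (n : ℚ)⁻¹ * x := by
    intro x
    induction x using MonoidAlgebra.induction_linear with
    | zero => simp
    | add x y hx hy => rw [add_mul, mul_add, hx, hy]
    | single g r =>
      rw [MonoidAlgebra.single_mul_single, MonoidAlgebra.single_mul_single, mul_one, one_mul,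
        mul_comm]
  have hnn : ((n : ℤ) : MonoidAlgebra ℚ G) * MonoidAlgebra.single 1 (n : ℚ)⁻¹ = 1 := by
    have e : ((n : ℤ) : MonoidAlgebra ℚ G) = MonoidAlgebra.single 1 (n : ℚ) := by
      have := map_intCast (MonoidAlgebra.singleOneRingHom : ℚ →+* MonoidAlgebra ℚ G) n
      rw [← this]; rfl
    rw [e, MonoidAlgebra.single_mul_single, one_mul, mul_inv_cancel₀ (by exact_mod_cast hn)]
    rfl
  have k1 : F D * (F N * MonoidAlgebra.single 1 (n : ℚ)⁻¹) = 1 := by
    rw [← mul_assoc, ← map_mul, h1, map_intCast, hnn]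
  have k2 : (F N * MonoidAlgebra.single 1 (n : ℚ)⁻¹) * F D = 1 := by
    rw [mul_assoc, ← hc, ← mul_assoc, ← map_mul, h2, map_intCast, hnn]
  obtain ⟨k, g, hk, hu⟩ := unit_single _ _ k1 k2
  have h3 : ∀ h, h ≠ g → D.coeff h = 0 := by
    intro h hh
    have := hF D h
    rw [hu, MonoidAlgebra.coeff_single, Finsupp.single_eq_of_ne hh] at this
    exact_mod_cast this.symm
  have h4 : D.coeff g ≠ 0 := by
    intro h5
    have := hF D g
    rw [hu, MonoidAlgebra.coeff_single, Finsupp.single_eq_same, h5, Int.cast_zero] at this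
    exact hk this
  have hg : g = 1 := by
    by_contra hg
    have h5 := congrArg (fun x => x.coeff g) hs
    simp only [coeff_star] at h5
    rw [h3 g⁻¹ (inv_ne hg).symm] at h5
    exact h4 h5.symm
  refine ⟨D.coeff 1, ?_⟩
  have e : ((D.coeff 1 : ℤ) : MonoidAlgebra ℤ G) = MonoidAlgebra.single 1 (D.coeff 1) := by
    have := map_intCast (MonoidAlgebra.singleOneRingHom : ℤ →+* MonoidAlgebra ℤ G) (D.coeff 1)
    rw [← this]; rfl
  rw [e]
  ext h
  rw [MonoidAlgebra.coeff_single, Finsupp.single_apply]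
  split_ifs with h6
  · rw [h6]
  · exact h3 h (by rw [hg]; exact Ne.symm h6)

theorem cast_eq (n : ℤ) : ((n : ℤ) : MonoidAlgebra ℤ G) = MonoidAlgebra.single 1 n := by
  have := map_intCast (MonoidAlgebra.singleOneRingHom : ℤ →+* MonoidAlgebra ℤ G) n
  rw [← this]; rfl

/-- a nonsingular form with a nonzero constant on the diagonal -/
theorem hyp_of_ns [UniqueProds G] (d : ℤ) (hd : d ≠ 0)
    (δ : Matrix (Fin 2) (Fin 2) (MonoidAlgebra ℤ G)) (h0 : δ 0 0 = d) (hn : NS 1 δ) :
    SE 1 δ (hy (MonoidAlgebra ℤ G) Unit) := by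
  obtain ⟨b, hb⟩ : ∃ b, b = δ 0 1 + star (δ 1 0) := ⟨_, rfl⟩
  obtain ⟨c, hc⟩ : ∃ c, c = δ 1 1 := ⟨_, rfl⟩
  have hsy : sy 1 δ = sy 1 (T d b c) := by
    rw [sy_T]
    ext1 i j
    fin_cases i <;> fin_cases j
    · simp [sy, h0, two_mul]
    · simp [sy, hb]
    · simp [sy, hb, add_comm]
    · simp [sy, hc]
  have q1 : QI 1 δ (T d b c) := by
    refine QI_of_sy hl_grp 1 1 (one_mul 1) (one_mul 1) ?_
    rw [conjTranspose_one, Matrix.one_mul, Matrix.mul_one, hsy]
  obtain ⟨N, n1, n2⟩ := hn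
  rw [hsy, sy_T] at n1 n2
  obtain ⟨C, hC⟩ : ∃ C, C = c + star c := ⟨_, rfl⟩
  have sC : star C = C := by rw [hC, star_add, star_star, add_comm]
  rw [← hC] at n1 n2
  obtain ⟨μ, hμ⟩ : ∃ μ : MonoidAlgebra ℤ G, μ = ((2 * d : ℤ) : MonoidAlgebra ℤ G) := ⟨_, rfl⟩
  have cμ : ∀ x : MonoidAlgebra ℤ G, x * μ = μ * x := fun x => by rw [hμ]; exact cmm _ x
  have sμ : star μ = μ := by rw [hμ]; exact star_m _
  rw [← hμ] at n1 n2
  have e1 : μ * N 0 0 + b * N 1 0 = 1 := by
    simpa [Matrix.mul_apply, Fin.sum_univ_two] using congrFun (congrFun n1 0) 0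
  have e2 : μ * N 0 1 + b * N 1 1 = 0 := by
    simpa [Matrix.mul_apply, Fin.sum_univ_two] using congrFun (congrFun n1 0) 1
  have e4 : star b * N 0 1 + C * N 1 1 = 1 := by
    simpa [Matrix.mul_apply, Fin.sum_univ_two] using congrFun (congrFun n1 1) 1
  have e5 : N 0 0 * μ + N 0 1 * star b = 1 := by
    simpa [Matrix.mul_apply, Fin.sum_univ_two] using congrFun (congrFun n2 0) 0
  have e7 : N 1 0 * μ + N 1 1 * star b = 0 := by
    simpa [Matrix.mul_apply, Fin.sum_univ_two] using congrFun (congrFun n2 1) 0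
  have e8 : N 1 0 * b + N 1 1 * C = 1 := by
    simpa [Matrix.mul_apply, Fin.sum_univ_two] using congrFun (congrFun n2 1) 1
  obtain ⟨D, hD⟩ : ∃ D, D = μ * C - star b * b := ⟨_, rfl⟩
  have d1 : D * N 1 1 = μ := by
    have : D * N 1 1 = μ * (star b * N 0 1 + C * N 1 1) - star b * (μ * N 0 1 + b * N 1 1) := by
      rw [hD, mul_add (star b), ← mul_assoc (star b) μ, cμ (star b)]
      noncomm_ring
    rw [this, e4, e2, mul_one, mul_zero, sub_zero]
  have d2 : N 1 1 * D = μ := by
    have : N 1 1 * D = (N 1 0 * b + N 1 1 * C) * μ - (N 1 0 * μ + N 1 1 * star b) * b := by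
      rw [hD, add_mul (N 1 0 * μ), mul_assoc (N 1 0) μ b, ← cμ b, ← cμ C]
      noncomm_ring
    rw [this, e8, e7, one_mul, zero_mul, sub_zero]
  have sD : star D = D := by
    rw [hD, star_sub, star_mul, star_mul, star_star, sμ, sC, cμ]
  have hd2 : (2 * d : ℤ) ≠ 0 := by omega
  obtain ⟨e, he⟩ := const_of_mul D (N 1 1) (2 * d) hd2 (by rw [← hμ]; exact d1)
    (by rw [← hμ]; exact d2) sD
  -- the augmentation
  have he1 : e = -1 := by
    have f1 : ∀ i j, augm ℤ G (!![μ, b; star b, C] i j) =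
        (!![2 * d, augm ℤ G b; augm ℤ G b, 2 * augm ℤ G c] : Matrix (Fin 2) (Fin 2) ℤ) i j := by
      intro i j
      have s1 : augm ℤ G (star b) = augm ℤ G b := by
        rw [star_zs, augm_sbar, star_trivial]
      have s2 : augm ℤ G C = 2 * augm ℤ G c := by
        rw [hC, map_add, star_zs, augm_sbar, star_trivial, two_mul]
      have s3 : augm ℤ G μ = 2 * d := by
        rw [hμ, map_intCast]; simp
      fin_cases i <;> fin_cases j
      · exact s3
      · rfl
      · exact s1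
      · exact s2
    have f2 : (!![μ, b; star b, C]).map (augm ℤ G) =
        (!![2 * d, augm ℤ G b; augm ℤ G b, 2 * augm ℤ G c] : Matrix (Fin 2) (Fin 2) ℤ) := by
      ext i j
      exact f1 i j
    have f3 : (!![2 * d, augm ℤ G b; augm ℤ G b, 2 * augm ℤ G c] : Matrix (Fin 2) (Fin 2) ℤ) *
        N.map (augm ℤ G) = 1 := by
      rw [← f2, ← Matrix.map_mul, n1, Matrix.map_one _ (map_zero _) (map_one _)]
    have f4 := congrArg Matrix.det f3
    rw [Matrix.det_mul, Matrix.det_one, Matrix.det_fin_two_of] at f4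
    have f5 : 2 * d * (2 * augm ℤ G c) - augm ℤ G b * augm ℤ G b = 1 ∨
        2 * d * (2 * augm ℤ G c) - augm ℤ G b * augm ℤ G b = -1 :=
      Int.isUnit_iff.1 (IsUnit.of_mul_eq_one _ f4)
    have f6 : (2 * d * (2 * augm ℤ G c) - augm ℤ G b * augm ℤ G b) = e := by
      have := congrArg (augm ℤ G) he
      rw [hD, map_sub, map_mul, map_mul, map_intCast, hμ, map_intCast, hC, map_add, star_zs,
        star_zs, augm_sbar, augm_sbar, star_trivial, star_trivial, ← two_mul] at this
      simpa using this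
    rw [f6] at f5
    rcases f5 with f5 | f5
    · exfalso
      rw [f5] at f6
      have f7 : (augm ℤ G b) * (augm ℤ G b) = 4 * (d * augm ℤ G c) - 1 := by linarith
      rcases Int.even_or_odd' (augm ℤ G b) with ⟨a, ha | ha⟩
      · rw [ha] at f7
        have : 4 * (a * a) = 4 * (d * augm ℤ G c) - 1 := by rw [← f7]; ring
        omega
      · rw [ha] at f7
        have : 4 * (a * a + a) + 1 = 4 * (d * augm ℤ G c) - 1 := by rw [← f7]; ring
        omega
    · exact f5
  rw [he1] at he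
  have hm1 : ((-1 : ℤ) : MonoidAlgebra ℤ G) = -1 := by push_cast; rfl
  have r1 : star b * b = 1 + μ * C := by
    rw [hm1, hD, sub_eq_iff_eq_add] at he
    rw [he]; abel
  have n11 : N 1 1 = -μ := by
    rw [he, hm1, neg_one_mul] at d1
    rw [← d1, neg_neg]
  have n01 : N 0 1 = b := by
    rw [n11, mul_neg, cμ, ← mul_neg, ← mul_add, hμ] at e2
    have := tf_grp _ _ hd2 e2
    exact add_neg_eq_zero.1 this
  have r2 : b * star b = 1 + μ * (-(N 0 0)) := by
    rw [n01, cμ] at e5
    rw [← e5]; noncomm_ring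
  obtain ⟨K, hK⟩ : ∃ K, K = -(N 0 0) := ⟨_, rfl⟩
  rw [← hK] at r2
  have sK : star K = K := by
    have h1 := congrArg star r2
    rw [star_mul, star_star, star_add, star_mul, star_one, sμ, cμ, r2] at h1
    rw [← sub_eq_zero]
    refine tf_grp (2 * d) _ hd2 ?_
    rw [← hμ, mul_sub, sub_eq_zero]
    exact (add_left_cancel h1).symm
  have hK1 : K.coeff 1 = 2 * c.coeff 1 := by
    have h1 := trace_comm b (star b)
    rw [r1, r2, hμ, MonoidAlgebra.coeff_add, MonoidAlgebra.coeff_add, Finsupp.add_apply,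
      Finsupp.add_apply, coeff_intmul, coeff_intmul, hC, MonoidAlgebra.coeff_add,
      Finsupp.add_apply, coeff_star, inv_one, add_right_inj, ← two_mul] at h1
    exact mul_left_cancel₀ hd2 h1
  obtain ⟨χ, hχ⟩ := lin (1 : G →* ℤˣ) (-1) K (by
    intro g _
    rw [← star_zs, sK, neg_one_smul, add_neg_cancel]; rfl)
  have hk : K = (MonoidAlgebra.single 1 (c.coeff 1) + χ) +
      star (MonoidAlgebra.single 1 (c.coeff 1) + χ) := by
    rw [hK1, neg_one_smul, sub_neg_eq_add, ← star_zs] at hχ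
    rw [hχ, star_add, star_single, inv_one, two_mul, MonoidAlgebra.single_add]
    abel
  have v : Val d b c (MonoidAlgebra.single 1 (c.coeff 1) + χ) :=
    ⟨by rw [r1, hμ, hC], by rw [← hk, ← hμ]; exact r2⟩
  exact (SE.of_QI q1).trans ((all_case d hd b ⟨_, _, v⟩).spec hl_grp tf_grp hd v)

/-- the even case -/
theorem even [UniqueProds G] (δ : Matrix (Fin 2) (Fin 2) (MonoidAlgebra ℤ G))
    (hδ : δ 0 0 ∈ Cs ℤ G) (hn : NS 1 δ) : SE 1 δ (δ.map (rh ℤ G)) := by
  obtain ⟨d, hd⟩ := (mem_Cs _).1 hδ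
  rw [← cast_eq] at hd
  by_cases hd0 : d = 0
  · have h0 : δ 0 0 = 0 := by rw [← hd, hd0, Int.cast_zero]
    obtain ⟨θ, hθ, q1⟩ := plane (cb_of (R := ℤ) (G := G) 1 1 unit_dom) δ hδ
      (by rw [h0, star_zero, smul_zero, add_zero]) hn
    have q2 := q1.map (rh ℤ G) rh_star
    have e1 : θ.map (rh ℤ G) = θ := by
      ext1 i j
      exact rh_const (hθ i j)
    rw [e1] at q2
    exact SE.of_QI (q1.trans q2.symm)
  · have s1 := hyp_of_ns d hd0 δ hd.symm hn
    have hn' : NS 1 (δ.map (rh ℤ G)) := by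
      obtain ⟨N, n1, n2⟩ := hn
      have e : sy 1 (δ.map (rh ℤ G)) = (sy 1 δ).map (rh ℤ G) := by
        rw [sy, sy, Matrix.map_add _ (map_add _), map_zs, map_ct _ rh_star]
      refine ⟨N.map (rh ℤ G), ?_, ?_⟩
      · rw [e, ← Matrix.map_mul, n1, Matrix.map_one _ (map_zero _) (map_one _)]
      · rw [e, ← Matrix.map_mul, n2, Matrix.map_one _ (map_zero _) (map_one _)]
    have s2 := hyp_of_ns d hd0 (δ.map (rh ℤ G)) (by
      rw [Matrix.map_apply, rh_const hδ]; exact hd.symm) hn'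
    exact s1.trans s2.symm

end

end Pool.Agent.X263.Qf
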