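import Pool.Agent.X263.Qf.Com

/-!
The residues of the second type over commutative rings.
-/

set_option autoImplicit false
set_option linter.unusedSectionVars false

namespace Pool.Agent.X263.Qf

open Matrix

section

variable {B : Type*} [CommRing B] [StarRing B]

/-- the patching form -/
theorem patch (hL : HL B) (n e m k p q d : ℤ) (h1 : m * k = n ^ 2)
    (h2 : p * (n ^ 2 - 1) + q * k = 1) (h3 : 2 * d = (n ^ 2 - 1) * m) (h4 : n = 2 * e) (g : B)
    (hg : g * star g = 1) :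
    Z d ((1 - n ^ 2 : B) + n * star g + n * (n ^ 2 - 1) * g) := by
  obtain ⟨h, hh⟩ : ∃ h, h = star g := ⟨_, rfl⟩
  have hs : star h = g := by rw [hh, star_star]
  rw [← hh] at hg ⊢
  have h1B : (m : B) * k = n ^ 2 := by
    have := castB (B := B) h1; push_cast at this; exact this
  have h2B : (p : B) * (n ^ 2 - 1) + q * k = 1 := by
    have := castB (B := B) h2; push_cast at this; exact this
  have h3B : (2 : B) * d = (n ^ 2 - 1) * m := by
    have := castB (B := B) h3; push_cast at this; exact this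
  have h4B : (n : B) = 2 * e := by
    have := castB (B := B) h4; push_cast at this; exact this
  obtain ⟨c, hc⟩ : ∃ c : B, c = k * (2 * e ^ 2 - n * g + g ^ 2) := ⟨_, rfl⟩
  have hcc : c + star c = k * (n ^ 2 - n * (g + h) + g ^ 2 + h ^ 2) := by
    rw [hc]
    simp only [star_add, star_sub, star_mul, star_pow, star_m, ← hh, star_ofNat]
    linear_combination (-(k * (n + 2 * e)) : B) * h4B
  have hval : ((1 - n ^ 2 : B) + n * h + n * (n ^ 2 - 1) * g) *
      star ((1 - n ^ 2 : B) + n * h + n * (n ^ 2 - 1) * g) =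
        1 + ((2 * d : ℤ) : B) * (c + star c) := by
    rw [hcc]
    simp only [star_add, star_sub, star_mul, star_pow, star_m, star_one, ← hh, hs]
    push_cast
    linear_combination
      (n ^ 2 + n ^ 2 * (n ^ 2 - 1) ^ 2 : B) * hg -
      (k * (n ^ 2 - n * (g + h) + g ^ 2 + h ^ 2) : B) * h3B -
      ((n ^ 2 - 1) * (n ^ 2 - n * (g + h) + g ^ 2 + h ^ 2) : B) * h1B
  have hdm : ((2 * d : ℤ) : B) = (n ^ 2 - 1) * m := by
    push_cast; exact h3B
  refine ⟨c, c, ⟨by rw [mul_comm]; exact hval, hval⟩, SE.of_QI ?_⟩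
  refine iso hL d _ c (-(k * h ^ 2)) (1 + n * h)
    (p * n * g - p * ((1 - n ^ 2 : B) + n * g + n * (n ^ 2 - 1) * h))
    (q * g ^ 2 + p * ((n ^ 2 - 1) * m)) ?_ ?_
  · rw [hcc, hdm]
    simp only [star_add, star_sub, star_neg, star_mul, star_pow, star_m, star_one, ← hh, hs]
    linear_combination (-2*g*h*n^4*k + g*h*n^2*m*k^2 + 2*g*h*n^2*k - g*h*m*k^2 - g*n^3*k +
      g*n*k - h*n^3*k + h*n*k - n^4*k + n^2*m*k^2 - m*k^2 : B) * hg + (n^2*k - k : B) * h1B
  · rw [hcc, hdm]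
    simp only [star_add, star_sub, star_mul, star_pow, star_m, star_one, ← hh, hs]
    linear_combination (g*h^2*n*k*q + g*h*k*q - g*n^5*p + g*n^3*m*k*p + g*n^3*p - g*n*m*k*p -
      h^3*n^3*k*q + h^3*n*k*q - h^2*n^2*k*q - h*n^7*p + 2*h*n^5*p - h*n^3*p - n^4*m*k*p +
      n^4*p + n^2*m*k*p - n^2*p + k*q : B) * hg + (g^2*n^2*p - g^2*p - h^2*n^4*p +
      2*h^2*n^2*p - h^2*p + h*n^5*p - 2*h*n^3*p + h*n*p : B) * h1B + h2B

/-- the residues of the second type are valid -/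
theorem second_val (m : ℤ) (g : B) (hg : g * star g = 1) :
    Val (2 * m) (1 + ((2 * m : ℤ) : B) * (g - star g)) ((m : B) * (1 - g ^ 2))
      ((m : B) * (1 - g ^ 2)) := by
  obtain ⟨h, hh⟩ : ∃ h, h = star g := ⟨_, rfl⟩
  have hs : star h = g := by rw [hh, star_star]
  rw [← hh] at hg ⊢
  constructor
  all_goals
    simp only [star_add, star_sub, star_mul, star_pow, star_m, star_one, ← hh, hs]
    push_cast
    linear_combination (8 * m ^ 2 : B) * hg

theorem second (hL : HL B) (ht : TF B) (m : ℤ) (hm : m % 2 = 1) (g : B) (hg : g * star g = 1) :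
    Z (2 * m) (1 + ((2 * m : ℤ) : B) * (g - star g)) := by
  obtain ⟨e, he⟩ : ∃ e : ℤ, e = 3 * m := ⟨_, rfl⟩
  obtain ⟨n, hn⟩ : ∃ n : ℤ, n = 2 * e := ⟨_, rfl⟩
  obtain ⟨N, hN⟩ : ∃ N : ℤ, N = e * (n ^ 2 - 1) := ⟨_, rfl⟩
  have hN2 : 2 * N = n * (n ^ 2 - 1) := by rw [hN, hn]; ring
  have he0 : e ≠ 0 := by omega
  have hn0 : n ^ 2 - 1 ≠ 0 := by
    intro h
    have h1 : n ^ 2 = 1 := by omega
    have h2 : 4 * e ^ 2 = 1 := by rw [← h1, hn]; ring
    omega
  have hN0 : N ≠ 0 := by rw [hN]; exact mul_ne_zero he0 hn0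
  have hN0' : 2 * N ≠ 0 := by omega
  obtain ⟨h, hh⟩ : ∃ h, h = star g := ⟨_, rfl⟩
  have hs : star h = g := by rw [hh, star_star]
  have hgh : g * h = 1 := by rw [hh]; exact hg
  have hg' : h * star h = 1 := by rw [hs, mul_comm, hh]; exact hg
  have hg'' : (-h) * star (-h) = 1 := by rw [star_neg, neg_mul_neg]; exact hg'
  have hnB : (n : B) = 2 * e := by
    have := castB (B := B) hn; push_cast at this; exact this
  have hNB : (2 : B) * N = n * (n ^ 2 - 1) := by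
    have := castB (B := B) hN2; push_cast at this; exact this
  -- the patching form
  have z0 := patch hL n e (4 * e) e (-1) (4 * e) (2 * N) (by rw [hn]; ring) (by rw [hn]; ring)
    (by rw [hN]; ring) hn g hg
  rw [← hh] at z0
  -- the residues of the first type
  obtain ⟨y₁, hy₁⟩ : ∃ y₁ : ℤ, y₁ = -(e * (n + 1) * (2 * e + 1)) - (e + 1) * e * (2 * n) +
    (e + 1) * (2 * e + 1) * (n - 1) := ⟨_, rfl⟩
  have c1 : e ^ 2 * (2 * n * (n + 1)) + y₁ * (n - 1) = 1 := by rw [hy₁, hn]; ring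
  obtain ⟨y₂, hy₂⟩ : ∃ y₂ : ℤ, y₂ = e * (e * (2 * n) + (1 - 2 * e) * (n + 1)) -
    (e + 1) * (n - 1) * (1 - 2 * e) := ⟨_, rfl⟩
  have c2 : (-(e * (e + 1))) * (2 * n * (n - 1)) + y₂ * (n + 1) = 1 := by rw [hy₂, hn]; ring
  have z1 := Z_euclid hL (n - 1) (2 * n * (n + 1)) (e ^ 2) y₁ (2 * N) c1
    (by linear_combination 2 * hN2) h hg'
  have z2 := Z_euclid hL (n + 1) (2 * n * (n - 1)) (-(e * (e + 1))) y₂ (2 * N) c2
    (by linear_combination 2 * hN2) (-h) hg''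
  have c1B : (e : B) ^ 2 * (2 * n * (n + 1)) + y₁ * (n - 1) = 1 := by
    have := castB (B := B) c1; push_cast at this; exact this
  have c2B : (-((e : B) * (e + 1))) * (2 * n * (n - 1)) + y₂ * (n + 1) = 1 := by
    have := castB (B := B) c2; push_cast at this; exact this
  obtain ⟨β₁, hβ₁⟩ : ∃ β₁ : B, β₁ = ((e ^ 2 * (2 * n * (n + 1)) : ℤ) : B) * h +
    ((y₁ * (n - 1) : ℤ) : B) := ⟨_, rfl⟩
  obtain ⟨β₂, hβ₂⟩ : ∃ β₂ : B, β₂ = ((-(e * (e + 1)) * (2 * n * (n - 1)) : ℤ) : B) * (-h) +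
    ((y₂ * (n + 1) : ℤ) : B) := ⟨_, rfl⟩
  rw [← hβ₁] at z1
  rw [← hβ₂] at z2
  have a1 : β₁ = h + (n - 1) * y₁ * (1 - h) := by
    rw [hβ₁]; push_cast; linear_combination h * c1B
  have a1' : β₁ = 1 + e ^ 2 * (2 * n * (n + 1)) * (h - 1) := by
    rw [hβ₁]; push_cast; linear_combination c1B
  have a2 : β₂ = -h + (n + 1) * y₂ * (1 + h) := by
    rw [hβ₂]; push_cast; linear_combination (-h) * c2B
  have a2' : β₂ = 1 + e * (e + 1) * (2 * n * (n - 1)) * (1 + h) := by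
    rw [hβ₂]; push_cast; linear_combination c2B
  obtain ⟨w, hw⟩ : ∃ w : B, w = 1 + ((2 * N : ℤ) : B) * (g - h) := ⟨_, rfl⟩
  have hw' : w = 1 + n * (n ^ 2 - 1) * (g - h) := by
    rw [hw]; push_cast; rw [hNB]
  obtain ⟨u, hu⟩ : ∃ u : B, u = (1 - n ^ 2 : B) + n * h + n * (n ^ 2 - 1) * g := ⟨_, rfl⟩
  rw [← hu] at z0
  have d1 : ((n - 1 : ℤ) : B) ∣ w * (β₁ * β₂) - u := by
    refine ⟨-((-(n + 1) + h + n * (n + 1) * g) - (n * (n + 1) * (g - h) * β₁ * β₂ +
      y₁ * (1 - h) * β₂ + h * (e * (e + 1) * 2 * n * (1 + h)))), ?_⟩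
    rw [hw', hu]; push_cast
    linear_combination β₂ * a1 + h * a2'
  have d2 : ((n + 1 : ℤ) : B) ∣ w * (β₁ * β₂) - u := by
    refine ⟨-(((1 - n) + h + n * (n - 1) * g) - (n * (n - 1) * (g - h) * β₁ * β₂ +
      e ^ 2 * 2 * n * (h - 1) * β₂ + y₂ * (1 + h))), ?_⟩
    rw [hw', hu]; push_cast
    linear_combination β₂ * a1' + a2
  have d3 : ((2 * n : ℤ) : B) ∣ w * (β₁ * β₂) - u := by
    refine ⟨-((-e + e * n * h) - w * (e ^ 2 * (n + 1) * (h - 1) * β₂ +
      e * (e + 1) * (n - 1) * (1 + h))), ?_⟩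
    rw [hu]; push_cast
    linear_combination w * β₂ * a1' + w * a2' + hw' + (n - n ^ 2 * h) * hnB
  have k1 : IsCoprime ((n + 1 : ℤ) : B) ((2 * n : ℤ) : B) := by
    have : IsCoprime (n + 1 : ℤ) (2 * n) := ⟨1 - 2 * e, e, by rw [hn]; ring⟩
    exact this.map (Int.castRingHom B)
  have k2 : IsCoprime ((n - 1 : ℤ) : B) (((n + 1 : ℤ) : B) * ((2 * n : ℤ) : B)) := by
    have h1 : IsCoprime (n - 1 : ℤ) (2 * n) := ⟨-(2 * e + 1), e, by rw [hn]; ring⟩
    have h2 : IsCoprime (n - 1 : ℤ) (n + 1) := ⟨-(e + 1), e, by rw [hn]; ring⟩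
    have h3 := (h2.mul_right h1).map (Int.castRingHom B)
    simpa using h3
  obtain ⟨z, hz⟩ := k2.mul_dvd d1 (k1.mul_dvd d2 d3)
  have z3 : Z (2 * N) (w * (β₁ * β₂)) := by
    have := z0.congr hL z
    convert this using 1
    rw [sub_eq_iff_eq_add] at hz
    rw [hz]
    push_cast
    linear_combination (-2 * z) * hNB
  have v0 := second_val N g hg
  rw [← hh, ← hw] at v0
  have z4 : Z (2 * N) w := Z.of_mul hL ht hN0' ⟨_, _, v0⟩ (Z.mul hL ht hN0' z1 z2) z3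
  -- the shear
  obtain ⟨j, hj⟩ : ∃ j : ℤ, N - 8 * j = m := by
    obtain ⟨a, ha⟩ : ∃ a : ℤ, m = 2 * a + 1 := ⟨m / 2, by omega⟩
    refine ⟨m * (27 * (2 * a ^ 2 + 2 * a) + 13), ?_⟩
    rw [hN, hn, he, ha]; ring
  have s1 := z4.spec hL ht hN0' v0
  have q1 := shear hL 4 N j (2 * N) (2 * m) (by ring) (by rw [← hj]; ring) (2 * (g - h))
    ((N : B) * (1 - g ^ 2)) (by
      simp only [star_sub, star_mul, star_pow, star_m, star_one, ← hh, hs, star_ofNat]
      push_cast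
      linear_combination (-8 * N : B) * hgh)
  have e1 : N - 2 * 4 * j = m := by rw [← hj]; ring
  have hjB : (N : B) - 8 * j = m := by
    have := castB (B := B) hj; push_cast at this; exact this
  rw [e1] at q1
  have v1 := second_val m g hg
  rw [← hh] at v1 ⊢
  refine ⟨_, _, v1, ?_⟩
  refine SE.trans (SE.of_QI ?_) s1
  refine QI.trans ?_ (q1.symm.trans ?_)
  · refine T_eq hL (2 * m) ?_ ?_
    · push_cast; ring
    · simp only [star_sub, star_mul, star_pow, star_m, star_one, ← hh, hs, star_ofNat]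
      linear_combination (16 * j : B) * hgh - (2 - g ^ 2 - h ^ 2) * hjB
  · refine QI.of_eq ?_
    rw [hw]
    congr 1
    push_cast; ring

end

end Pool.Agent.X263.Qf
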