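import Pool.Agent.X263.Qf.Core
import Pool.Agent.X263.Bc.Cross
import Pool.Agent.TH6.PF.SBar

/-!
The group ring of a group with unique products over a division ring with involution.
-/

set_option autoImplicit false
set_option linter.unusedSectionVars false

namespace Pool.Agent.X263.Qf

open Matrix TH6.PF

section

variable {R G : Type} [Ring R] [StarRing R] [Group G]

/-- the involution of the group ring as a star ring structure -/
@[reducible] noncomputable def sr (w : G →* ℤˣ) : StarRing (MonoidAlgebra R G) where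
  star := sbar w
  star_involutive := sbar_sbar w
  star_mul := sbar_mul w
  star_add := sbar_add w

/-- the constants -/
noncomputable def Cs (R G : Type) [Ring R] [Group G] : Subring (MonoidAlgebra R G) :=
  (MonoidAlgebra.singleOneRingHom : R →+* MonoidAlgebra R G).range

omit [StarRing R] in
theorem mem_Cs (x : MonoidAlgebra R G) : x ∈ Cs R G ↔ ∃ r : R, MonoidAlgebra.single 1 r = x :=
  Iff.rfl

omit [StarRing R] in
theorem coeff_of_mem {x : MonoidAlgebra R G} (hx : x ∈ Cs R G) {g : G} (hg : g ≠ 1) :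
    x.coeff g = 0 := by
  classical
  obtain ⟨r, rfl⟩ := (mem_Cs x).1 hx
  rw [MonoidAlgebra.coeff_single, Finsupp.single_apply, if_neg hg.symm]

theorem inv_ne [UniqueProds G] {g : G} (hg : g ≠ 1) : g ≠ g⁻¹ := by
  intro h
  have h1 : g * g = 1 := by
    nth_rewrite 2 [h]; exact mul_inv_cancel g
  have h2 : ((1 : MonoidAlgebra ℤ G) + MonoidAlgebra.single g 1) *
      (1 - MonoidAlgebra.single g 1) = 0 := by
    rw [add_mul, mul_sub, mul_sub, one_mul, one_mul, mul_one, MonoidAlgebra.single_mul_single, h1,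
      mul_one, ← MonoidAlgebra.one_def]
    abel
  rcases mul_eq_zero.1 h2 with h3 | h3
  · have := congrArg (fun x => x.coeff (1 : G)) h3
    simp [MonoidAlgebra.one_def, hg] at this
  · have := congrArg (fun x => x.coeff (1 : G)) h3
    simp [MonoidAlgebra.one_def, hg] at this

theorem lin [UniqueProds G] (w : G →* ℤˣ) (ε : ℤ) (x : MonoidAlgebra R G)
    (hx : ∀ g : G, g ≠ 1 → (x + ε • sbar w x).coeff g = 0) :
    ∃ χ : MonoidAlgebra R G, x = MonoidAlgebra.single 1 (x.coeff 1) + (χ - ε • sbar w χ) := by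
  classical
  let χ : MonoidAlgebra R G := MonoidAlgebra.ofCoeff (x.coeff.filter
    (fun g => WellOrderingRel g g⁻¹))
  have hχ : ∀ g, χ.coeff g = if WellOrderingRel g g⁻¹ then x.coeff g else 0 := by
    intro g
    change (x.coeff.filter (fun g => WellOrderingRel g g⁻¹)) g = _
    rw [Finsupp.filter_apply]
  refine ⟨χ, ?_⟩
  ext h
  rw [MonoidAlgebra.coeff_add, Finsupp.add_apply, MonoidAlgebra.coeff_sub, Finsupp.sub_apply,
    MonoidAlgebra.coeff_smul, Finsupp.smul_apply, coeff_sbar, MonoidAlgebra.coeff_single,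
    Finsupp.single_apply, hχ, hχ, inv_inv]
  by_cases h1 : h = 1
  · subst h1
    have : ¬ WellOrderingRel (1 : G) 1 := fun h => irrefl_of WellOrderingRel _ h
    simp [this]
  · rw [if_neg (Ne.symm h1)]
    have h2 := inv_ne h1
    rcases trichotomous_of WellOrderingRel h h⁻¹ with h3 | h3 | h3
    · have h4 : ¬ WellOrderingRel h⁻¹ h := fun h5 => asymm_of WellOrderingRel h3 h5
      rw [if_pos h3, if_neg h4]
      simp
    · exact absurd h3 h2
    · have h4 : ¬ WellOrderingRel h h⁻¹ := fun h5 => asymm_of WellOrderingRel h3 h5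
      rw [if_pos h3, if_neg h4]
      have h5 := hx h h1
      rw [MonoidAlgebra.coeff_add, Finsupp.add_apply, MonoidAlgebra.coeff_smul,
        Finsupp.smul_apply, coeff_sbar] at h5
      rw [zero_add, zero_sub]
      exact eq_neg_of_add_eq_zero_left h5

end

/-- the group ring as a crossed product -/
noncomputable def crs (K G : Type) [DivisionRing K] [Group G] :
    Pool.Agent.X263.Bc.Crossed K (MonoidAlgebra K G) G where
  ι := MonoidAlgebra.singleOneRingHom
  u g := ⟨MonoidAlgebra.single g 1, MonoidAlgebra.single g⁻¹ 1, by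
    rw [MonoidAlgebra.single_mul_single, mul_inv_cancel, mul_one, MonoidAlgebra.one_def], by
    rw [MonoidAlgebra.single_mul_single, inv_mul_cancel, mul_one, MonoidAlgebra.one_def]⟩
  conj g k := ⟨k, by
    change MonoidAlgebra.single g 1 * MonoidAlgebra.single 1 k =
      MonoidAlgebra.single 1 k * MonoidAlgebra.single g 1
    rw [MonoidAlgebra.single_mul_single, MonoidAlgebra.single_mul_single, mul_one, one_mul,
      mul_one, one_mul]⟩
  mul g h := ⟨1, by
    change MonoidAlgebra.single g (1 : K) * MonoidAlgebra.single h 1 =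
      MonoidAlgebra.single 1 1 * MonoidAlgebra.single (g * h) 1
    rw [MonoidAlgebra.single_mul_single, MonoidAlgebra.single_mul_single, one_mul, one_mul]⟩
  e :=
    { toFun := MonoidAlgebra.ofCoeff
      invFun := MonoidAlgebra.coeff
      left_inv := fun _ => rfl
      right_inv := fun _ => rfl
      map_add' := fun _ _ => rfl }
  he g k := by
    change MonoidAlgebra.single g k = MonoidAlgebra.single 1 k * MonoidAlgebra.single g 1
    rw [MonoidAlgebra.single_mul_single, one_mul, mul_one]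

theorem unit_single {K G : Type} [DivisionRing K] [Group G] [UniqueProds G]
    (u v : MonoidAlgebra K G) (h1 : u * v = 1) (h2 : v * u = 1) :
    ∃ (k : K) (g : G), k ≠ 0 ∧ u = MonoidAlgebra.single g k := by
  obtain ⟨k, g, hk, h⟩ := (crs K G).unit_form ⟨u, v, h1, h2⟩
  refine ⟨k, g, hk, ?_⟩
  rw [← (crs K G).he] at h
  exact h

theorem cb_of {R G : Type} [Ring R] [StarRing R] [Group G] [Nontrivial R] [NoZeroDivisors R]
    [UniqueProds G] (w : G →* ℤˣ) (ε : ℤ)
    (hu : ∀ u v : MonoidAlgebra R G, u * v = 1 → v * u = 1 →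
      ∃ (k : R) (g : G), k ≠ 0 ∧ u = MonoidAlgebra.single g k) :
    letI := sr (R := R) w; Cb ε (Cs R G) := by
  let _ := sr (R := R) w
  have hstar : ∀ x : MonoidAlgebra R G, star x = sbar w x := fun _ => rfl
  have hdom : ∀ x y : MonoidAlgebra R G, x * y = 0 → x = 0 ∨ y = 0 := fun x y h =>
    mul_eq_zero.1 h
  refine ⟨?_, hdom, one_ne_zero, ?_, ?_⟩
  · intro x hx
    obtain ⟨r, rfl⟩ := (mem_Cs x).1 hx
    rw [hstar, sbar_single, inv_one, map_one, Units.val_one, one_smul]
    exact (mem_Cs _).2 ⟨_, rfl⟩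
  · intro x hx
    obtain ⟨χ, h⟩ := lin w ε x fun g hg => coeff_of_mem hx hg
    exact ⟨_, (mem_Cs _).2 ⟨_, rfl⟩, χ, h⟩
  · intro u v h1 h2 h3
    obtain ⟨k, g, hk, rfl⟩ := hu u v h1 h2
    have h4 := congrArg (fun x => MonoidAlgebra.coeff x g) h3
    simp only [hstar] at h4
    rw [MonoidAlgebra.coeff_smul, Finsupp.smul_apply, sbar_single, MonoidAlgebra.coeff_single,
      MonoidAlgebra.coeff_single, Finsupp.single_eq_same] at h4
    by_cases hg : g = 1
    · subst hg; exact (mem_Cs _).2 ⟨k, rfl⟩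
    · rw [Finsupp.single_eq_of_ne (inv_ne hg), smul_zero] at h4
      exact absurd h4 hk

theorem cf (K G : Type) [DivisionRing K] [StarRing K] [Group G] [UniqueProds G] (w : G →* ℤˣ)
    (ε : ℤ) : letI := sr (R := K) w; Cf ε (Cs K G) := by
  let _ := sr (R := K) w
  refine ⟨cb_of w ε unit_single, ?_⟩
  intro x hx hx0
  obtain ⟨r, rfl⟩ := (mem_Cs x).1 hx
  have hr : r ≠ 0 := by rintro rfl; exact hx0 (MonoidAlgebra.single_zero _)
  refine ⟨MonoidAlgebra.single 1 r⁻¹, (mem_Cs _).2 ⟨_, rfl⟩, ?_, ?_⟩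
  · rw [MonoidAlgebra.single_mul_single, mul_one, mul_inv_cancel₀ hr, MonoidAlgebra.one_def]
  · rw [MonoidAlgebra.single_mul_single, mul_one, inv_mul_cancel₀ hr, MonoidAlgebra.one_def]

/-- the units of the group ring of a group with unique products over a domain -/
theorem unit_dom {R G : Type} [CommRing R] [IsDomain R] [Group G] [UniqueProds G]
    (u v : MonoidAlgebra R G) (h1 : u * v = 1) (h2 : v * u = 1) :
    ∃ (k : R) (g : G), k ≠ 0 ∧ u = MonoidAlgebra.single g k := by
  classical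
  let f : MonoidAlgebra R G →+* MonoidAlgebra (FractionRing R) G :=
    MonoidAlgebra.mapRangeRingHom G (algebraMap R (FractionRing R))
  have hf : ∀ (x : MonoidAlgebra R G) (g : G),
      (f x).coeff g = algebraMap R (FractionRing R) (x.coeff g) := fun x g => rfl
  obtain ⟨k, g, hk, hu⟩ := unit_single (f u) (f v) (by rw [← map_mul, h1, map_one])
    (by rw [← map_mul, h2, map_one])
  have hinj := IsFractionRing.injective R (FractionRing R)
  have h3 : ∀ h : G, h ≠ g → u.coeff h = 0 := by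
    intro h hh
    apply hinj
    rw [← hf, hu, map_zero, MonoidAlgebra.coeff_single, Finsupp.single_eq_of_ne hh]
  have h4 : algebraMap R (FractionRing R) (u.coeff g) = k := by
    rw [← hf, hu, MonoidAlgebra.coeff_single, Finsupp.single_eq_same]
  refine ⟨u.coeff g, g, ?_, ?_⟩
  · intro h5
    rw [h5, map_zero] at h4
    exact hk h4.symm
  · ext h
    rw [MonoidAlgebra.coeff_single, Finsupp.single_apply]
    split_ifs with h5
    · rw [h5]
    · exact h3 h (Ne.symm h5)

/-- isometries of quadratic forms over a group ring in terms of `sadj` -/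
def QG {K G : Type} [Ring K] [StarRing K] [Group G] (w : G →* ℤˣ) (ε : ℤ) {n : ℕ}
    (ψ ψ' : Matrix (Fin n) (Fin n) (MonoidAlgebra K G)) : Prop :=
  ∃ (P : (Matrix (Fin n) (Fin n) (MonoidAlgebra K G))ˣ)
    (χ : Matrix (Fin n) (Fin n) (MonoidAlgebra K G)),
    P.val * ψ * sadj w P.val = ψ' + (χ - ε • sadj w χ)

theorem qg_iff {K G : Type} [Ring K] [StarRing K] [Group G] (w : G →* ℤˣ) (ε : ℤ) {n : ℕ}
    (ψ ψ' : Matrix (Fin n) (Fin n) (MonoidAlgebra K G)) :
    QG w ε ψ ψ' ↔ letI := sr (R := K) w; QI ε ψ ψ' := by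
  let _ := sr (R := K) w
  constructor
  · rintro ⟨P, χ, h⟩
    exact ⟨P.val, P⁻¹.val, χ, P.mul_inv, P.inv_mul, h⟩
  · rintro ⟨P, Q, χ, h1, h2, h⟩
    exact ⟨⟨P, Q, h1, h2⟩, χ, h⟩

/-- the form of the constants -/
noncomputable def cm {K : Type} (G : Type) [Ring K] [Group G] {n : ℕ} (θ : Matrix (Fin n) (Fin n) K) :
    Matrix (Fin n) (Fin n) (MonoidAlgebra K G) :=
  θ.map (fun r => MonoidAlgebra.single (1 : G) r)

theorem cs_coeff {K G : Type} [Ring K] [Group G] {x : MonoidAlgebra K G} (hx : x ∈ Cs K G) :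
    MonoidAlgebra.single 1 (x.coeff 1) = x := by
  obtain ⟨r, rfl⟩ := (mem_Cs x).1 hx
  rw [MonoidAlgebra.coeff_single, Finsupp.single_eq_same]

theorem coeff_one_mul' {K G : Type} [Ring K] [Group G] (r : K) (x : MonoidAlgebra K G) :
    (MonoidAlgebra.single 1 r * x).coeff 1 = r * x.coeff 1 := by
  induction x using MonoidAlgebra.induction_linear with
  | zero => simp
  | add x y hx hy =>
    rw [mul_add, MonoidAlgebra.coeff_add, Finsupp.add_apply, hx, hy, MonoidAlgebra.coeff_add,
      Finsupp.add_apply, mul_add]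
  | single g s =>
    classical
    rw [MonoidAlgebra.single_mul_single, one_mul, MonoidAlgebra.coeff_single,
      MonoidAlgebra.coeff_single, Finsupp.single_apply, Finsupp.single_apply]
    split_ifs <;> simp

theorem coeff_mul_one' {K G : Type} [Ring K] [Group G] (r : K) (x : MonoidAlgebra K G) :
    (x * MonoidAlgebra.single 1 r).coeff 1 = x.coeff 1 * r := by
  induction x using MonoidAlgebra.induction_linear with
  | zero => simp
  | add x y hx hy =>
    rw [add_mul, MonoidAlgebra.coeff_add, Finsupp.add_apply, hx, hy, MonoidAlgebra.coeff_add,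
      Finsupp.add_apply, add_mul]
  | single g s =>
    classical
    rw [MonoidAlgebra.single_mul_single, mul_one, MonoidAlgebra.coeff_single,
      MonoidAlgebra.coeff_single, Finsupp.single_apply, Finsupp.single_apply]
    split_ifs <;> simp

/-- the main theorem: existence of a constant form -/
theorem const_form (K G : Type) [DivisionRing K] [StarRing K] [Group G] [UniqueProds G]
    (w : G →* ℤˣ) (ε : ℤ) (hε : ε * ε = 1) (n : ℕ)
    (ψ : Matrix (Fin n) (Fin n) (MonoidAlgebra K G)) (hψ : IsUnit (ψ + ε • sadj w ψ))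
    (i₀ : Fin n) (g : Fin n → G)
    (h : ∀ i j, i ≠ i₀ → j ≠ i₀ → ∃ k : K, ψ i j = MonoidAlgebra.single (g i * (g j)⁻¹) k) :
    ∃ θ : Matrix (Fin n) (Fin n) K, IsUnit (θ + ε • θᴴ) ∧ QG w ε ψ (cm G θ) := by
  classical
  let _ := sr (R := K) w
  have hstar : ∀ x : MonoidAlgebra K G, star x = sbar w x := fun _ => rfl
  have hns : NS ε ψ := by
    obtain ⟨U, hU⟩ := hψ
    have e : sy ε ψ = U.val := hU.symm
    exact ⟨U⁻¹.val, by rw [e, U.mul_inv], by rw [e, U.inv_mul]⟩
  -- scaling
  set ψ₁ : Matrix (Fin n) (Fin n) (MonoidAlgebra K G) :=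
    Matrix.of fun i j => MonoidAlgebra.single (g i)⁻¹ 1 * ψ i j * star (MonoidAlgebra.single (g j)⁻¹ 1)
    with hψ₁
  have q0 : QI ε ψ ψ₁ := by
    refine ⟨Matrix.diagonal fun i => MonoidAlgebra.single (g i)⁻¹ 1,
      Matrix.diagonal fun i => MonoidAlgebra.single (g i) 1, 0, ?_, ?_, ?_⟩
    · rw [Matrix.diagonal_mul_diagonal, ← Matrix.diagonal_one]
      congr 1; funext i
      rw [MonoidAlgebra.single_mul_single, inv_mul_cancel, mul_one, MonoidAlgebra.one_def]
    · rw [Matrix.diagonal_mul_diagonal, ← Matrix.diagonal_one]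
      congr 1; funext i
      rw [MonoidAlgebra.single_mul_single, mul_inv_cancel, mul_one, MonoidAlgebra.one_def]
    · rw [conjTranspose_zero, smul_zero, sub_zero, add_zero]
      ext1 i j
      rw [diagonal_conjTranspose, Matrix.mul_diagonal, Matrix.diagonal_mul]
      rfl
  let κ := {i : Fin n // ¬ i = i₀}
  let e : κ ⊕ Unit ≃ Fin n := (Equiv.sumComm _ _).trans ((Equiv.sumCongr
    (Equiv.ofUnique Unit {i : Fin n // i = i₀}) (Equiv.refl _)).trans (Equiv.sumCompl _))
  have he : ∀ a : κ, e (Sum.inl a) = a.1 := fun a => rfl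
  have q1 := q0.trans (QI.reindex ε ψ₁ e)
  have hcore : ∀ a b : κ, ψ₁.submatrix e e (Sum.inl a) (Sum.inl b) ∈ Cs K G := by
    intro a b
    rw [Matrix.submatrix_apply, he, he, hψ₁, Matrix.of_apply]
    obtain ⟨k, hk⟩ := h a.1 b.1 a.2 b.2
    rw [hk, hstar, sbar_single, MonoidAlgebra.single_mul_single,
      MonoidAlgebra.single_mul_single]
    have e1 : (g a.1)⁻¹ * (g a.1 * (g b.1)⁻¹) * ((g b.1)⁻¹)⁻¹ = 1 := by group
    rw [e1]
    exact (mem_Cs _).2 ⟨_, rfl⟩
  obtain ⟨θ', hθ', q2⟩ := core_aux (cf K G w ε) hε _ κ rfl _ hcore (q1.ns hε hns)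
  have q3 := (q1.trans q2).trans (QI.reindex ε θ' e.symm)
  set θ'' := θ'.submatrix e.symm e.symm with hθ''
  have hC : ∀ i j, θ'' i j ∈ Cs K G := fun i j => hθ' _ _
  have hc : cm G (θ''.map fun x => x.coeff 1) = θ'' := by
    ext1 i j
    exact cs_coeff (hC i j)
  refine ⟨θ''.map fun x => x.coeff 1, ?_, (qg_iff w ε _ _).2 (by rw [hc]; exact q3)⟩
  obtain ⟨N, h1, h2⟩ := q3.ns hε hns
  set θ := θ''.map fun x => x.coeff 1 with hθ
  have e1 : sy ε θ'' = cm G (θ + ε • θᴴ) := by
    ext1 i j
    have e2 : ∀ i j, θ'' i j = MonoidAlgebra.single 1 (θ i j) := fun i j =>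
      (cs_coeff (hC i j)).symm
    rw [sy, Matrix.add_apply, Matrix.smul_apply, conjTranspose_apply, e2, e2, hstar, sbar_single,
      inv_one, map_one, Units.val_one, one_smul, cm, Matrix.map_apply, Matrix.add_apply,
      Matrix.smul_apply, conjTranspose_apply, MonoidAlgebra.single_add]
    congr 1
    exact (map_zsmul (MonoidAlgebra.singleAddHom (1 : G)) ε (star (θ j i))).symm
  rw [e1] at h1 h2
  have hone : ∀ i j : Fin n, ((1 : Matrix (Fin n) (Fin n) (MonoidAlgebra K G)) i j).coeff 1 =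
      (1 : Matrix (Fin n) (Fin n) K) i j := by
    intro i j
    rw [Matrix.one_apply, Matrix.one_apply]
    split_ifs
    · rw [MonoidAlgebra.one_def, MonoidAlgebra.coeff_single, Finsupp.single_eq_same]
    · rfl
  refine ⟨⟨θ + ε • θᴴ, N.map fun x => x.coeff 1, ?_, ?_⟩, rfl⟩
  · ext i j
    rw [← hone, ← h1, Matrix.mul_apply, Matrix.mul_apply, MonoidAlgebra.coeff_sum,
      Finsupp.finsetSum_apply]
    exact Finset.sum_congr rfl fun k _ => (coeff_one_mul' _ _).symm
  · ext i j
    rw [← hone, ← h2, Matrix.mul_apply, Matrix.mul_apply, MonoidAlgebra.coeff_sum,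
      Finsupp.finsetSum_apply]
    exact Finset.sum_congr rfl fun k _ => (coeff_mul_one' _ _).symm

end Pool.Agent.X263.Qf
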