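import Pool.Agent.X263.Qf.Tr

/-!
All residues over the integral group ring of a group with unique products are products of
residues of both types and units.
-/

set_option autoImplicit false
set_option linter.unusedSectionVars false

namespace Pool.Agent.X263.Qf

open Matrix TH6.PF

attribute [local instance] zs

section

variable {G : Type} [Group G]

/-- divisibility by an integer -/
def Dv (n : ℤ) (x : MonoidAlgebra ℤ G) : Prop := ∃ z, x = (n : MonoidAlgebra ℤ G) * z

theorem dv_iff {n : ℤ} {x : MonoidAlgebra ℤ G} : Dv n x ↔ ∀ g, n ∣ x.coeff g := by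
  constructor
  · rintro ⟨z, rfl⟩ g
    rw [coeff_intmul]
    exact dvd_mul_right _ _
  · intro h
    refine ⟨MonoidAlgebra.ofCoeff (x.coeff.mapRange (fun r => r / n) (Int.zero_ediv n)), ?_⟩
    ext g
    rw [coeff_intmul]
    change x.coeff g = n * (x.coeff g / n)
    exact (Int.mul_ediv_cancel' (h g)).symm

theorem Dv.add {n : ℤ} {x y : MonoidAlgebra ℤ G} (h : Dv n x) (h' : Dv n y) : Dv n (x + y) := by
  obtain ⟨z, rfl⟩ := h
  obtain ⟨z', rfl⟩ := h'
  exact ⟨z + z', by rw [mul_add]⟩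

theorem Dv.sub {n : ℤ} {x y : MonoidAlgebra ℤ G} (h : Dv n x) (h' : Dv n y) : Dv n (x - y) := by
  obtain ⟨z, rfl⟩ := h
  obtain ⟨z', rfl⟩ := h'
  exact ⟨z - z', by rw [mul_sub]⟩

theorem Dv.mul_left {n : ℤ} {x : MonoidAlgebra ℤ G} (h : Dv n x) (y : MonoidAlgebra ℤ G) :
    Dv n (y * x) := by
  obtain ⟨z, rfl⟩ := h
  exact ⟨y * z, by rw [cmm']⟩

theorem Dv.mul_right {n : ℤ} {x : MonoidAlgebra ℤ G} (h : Dv n x) (y : MonoidAlgebra ℤ G) :
    Dv n (x * y) := by
  obtain ⟨z, rfl⟩ := h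
  exact ⟨z * y, by rw [mul_assoc]⟩

theorem Dv.of_dvd {n m : ℤ} {x : MonoidAlgebra ℤ G} (h : Dv n x) (hm : m ∣ n) : Dv m x :=
  dv_iff.2 fun g => hm.trans (dv_iff.1 h g)

theorem Dv.coprime {n m : ℤ} {x : MonoidAlgebra ℤ G} (h : Dv n x) (h' : Dv m x)
    (hc : IsCoprime n m) : Dv (n * m) x :=
  dv_iff.2 fun g => hc.mul_dvd (dv_iff.1 h g) (dv_iff.1 h' g)

theorem single_unitary (g : G) {r : ℤ} (hr : r * r = 1) :
    (MonoidAlgebra.single g r) * star (MonoidAlgebra.single g r) = 1 ∧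
      star (MonoidAlgebra.single g r) * (MonoidAlgebra.single g r) = 1 := by
  rw [star_single, MonoidAlgebra.single_mul_single, MonoidAlgebra.single_mul_single,
    mul_inv_cancel, inv_mul_cancel, hr]
  exact ⟨rfl, rfl⟩

/-- units modulo a prime -/
theorem unit_mod [UniqueProds G] (p : ℕ) (hp : p.Prime) (b : MonoidAlgebra ℤ G)
    (h1 : Dv p (star b * b - 1)) (h2 : Dv p (b * star b - 1)) :
    ∃ (γ : G) (r : ℤ), r * r = 1 ∧ Dv p (b - MonoidAlgebra.single γ r) := by
  classical
  have : Fact p.Prime := ⟨hp⟩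
  let F : MonoidAlgebra ℤ G →+* MonoidAlgebra (ZMod p) G :=
    MonoidAlgebra.mapRingHom G (Int.castRingHom (ZMod p))
  have hF : ∀ (x : MonoidAlgebra ℤ G) (g : G), (F x).coeff g = ((x.coeff g : ℤ) : ZMod p) :=
    fun x g => rfl
  have hD : ∀ x : MonoidAlgebra ℤ G, Dv p x ↔ F x = 0 := by
    intro x
    rw [dv_iff]
    constructor
    · intro h
      ext g
      rw [hF]
      exact (ZMod.intCast_zmod_eq_zero_iff_dvd _ _).2 (h g)
    · intro h g
      have := congrArg (fun y => y.coeff g) h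
      simp only [hF] at this
      exact (ZMod.intCast_zmod_eq_zero_iff_dvd _ _).1 this
  rw [hD, map_sub, map_mul, map_one, sub_eq_zero] at h1 h2
  obtain ⟨k, γ, hk, hu⟩ := unit_single (F b) (F (star b)) h2 h1
  have hs : F (star b) = MonoidAlgebra.single γ⁻¹ k := by
    ext h
    rw [hF, coeff_star, ← hF, hu, MonoidAlgebra.coeff_single, MonoidAlgebra.coeff_single,
      Finsupp.single_apply, Finsupp.single_apply]
    by_cases hh : γ = h⁻¹
    · rw [if_pos hh, if_pos (by rw [hh, inv_inv])]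
    · rw [if_neg hh, if_neg (by rintro rfl; exact hh (inv_inv γ).symm)]
  rw [hs, hu, MonoidAlgebra.single_mul_single, mul_inv_cancel, MonoidAlgebra.one_def] at h2
  have h3 : k * k = 1 := by
    have := congrArg (fun y => y.coeff (1 : G)) h2
    simpa [MonoidAlgebra.coeff_single] using this
  rcases mul_self_eq_one_iff.1 h3 with h4 | h4
  · refine ⟨γ, 1, by norm_num, ?_⟩
    rw [hD, map_sub, hu, h4, sub_eq_zero]
    ext g
    rw [hF, MonoidAlgebra.coeff_single, MonoidAlgebra.coeff_single, Finsupp.single_apply,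
      Finsupp.single_apply]
    split_ifs <;> simp
  · refine ⟨γ, -1, by norm_num, ?_⟩
    rw [hD, map_sub, hu, h4, sub_eq_zero]
    ext g
    rw [hF, MonoidAlgebra.coeff_single, MonoidAlgebra.coeff_single, Finsupp.single_apply,
      Finsupp.single_apply]
    split_ifs <;> simp

theorem V.dv {d : ℤ} {b : MonoidAlgebra ℤ G} (h : V d b) {n : ℤ} (hn : n ∣ 2 * d) :
    Dv n (star b * b - 1) ∧ Dv n (b * star b - 1) := by
  obtain ⟨c, k, h1, h2⟩ := h
  exact ⟨Dv.of_dvd ⟨_, by rw [h1, add_sub_cancel_left]⟩ hn,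
    Dv.of_dvd ⟨_, by rw [h2, add_sub_cancel_left]⟩ hn⟩

/-- the odd part -/
theorem odd_part [UniqueProds G] (d : ℤ) (hd : d ≠ 0) (l : ℕ) : ∀ (k : ℤ) (_ : 2 * d = k * l)
    (_ : IsCoprime k (l : ℤ)) (_ : Squarefree l) (b : MonoidAlgebra ℤ G) (_ : V d b)
    (_ : Dv k (b - 1)), Z d b := by
  induction l using Nat.strong_induction_on with
  | _ l ih =>
  intro k h1 h2 h3 b h4 h5
  by_cases hl : l = 1
  · subst hl
    obtain ⟨z, hz⟩ := h5
    have e : b = 1 + ((2 * d : ℤ) : MonoidAlgebra ℤ G) * z := by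
      rw [h1, Nat.cast_one, mul_one, ← hz, add_sub_cancel]
    rw [e]
    exact (Z.unit d (by simp) (by simp)).congr hl_grp z
  · obtain ⟨p, hp, l', rfl⟩ : ∃ p, p.Prime ∧ p ∣ l := Nat.exists_prime_and_dvd hl
    have hpl : Nat.Coprime p l' := (Nat.squarefree_mul_iff.1 h3).1
    have hl' : Squarefree l' := (Nat.squarefree_mul_iff.1 h3).2.2
    have hl0 : l' ≠ 0 := hl'.ne_zero
    obtain ⟨γ, r, hr, hγ⟩ := unit_mod p hp b (h4.dv ⟨k * l', by rw [h1]; push_cast; ring⟩).1
      (h4.dv ⟨k * l', by rw [h1]; push_cast; ring⟩).2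
    obtain ⟨u1, u2⟩ := single_unitary γ hr
    obtain ⟨t, ht⟩ : ∃ t : MonoidAlgebra ℤ G, t = star (MonoidAlgebra.single γ r) := ⟨_, rfl⟩
    have t1 : t * star t = 1 := by rw [ht, star_star]; exact u2
    have t2 : star t * t = 1 := by rw [ht, star_star]; exact u1
    rw [Nat.cast_mul] at h2
    have hkp : IsCoprime k (p : ℤ) := h2.of_mul_right_left
    have hkl : IsCoprime k (l' : ℤ) := h2.of_mul_right_right
    have hpl' : IsCoprime (p : ℤ) (l' : ℤ) := Nat.isCoprime_iff_coprime.2 hpl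
    obtain ⟨x, y, hxy⟩ : IsCoprime (k * l') (p : ℤ) := hkp.mul_left hpl'.symm
    have z1 := type1 (A := MonoidAlgebra ℤ G) (m₁ := p) (m₂ := k * l') (d := d) hxy
      (by rw [h1]; push_cast; ring) t1 t2
    obtain ⟨β, hβ⟩ : ∃ β, β = ((x * (k * l') : ℤ) : MonoidAlgebra ℤ G) * t + ((y * p : ℤ) :
      MonoidAlgebra ℤ G) := ⟨_, rfl⟩
    rw [← hβ] at z1
    refine Z.of_mul hl_grp tf_grp hd h4 z1 ?_
    have e1 : Dv p (β - t) := by
      refine ⟨(y : MonoidAlgebra ℤ G) * (1 - t), ?_⟩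
      have e2 : x * (k * l') = 1 - y * p := by linear_combination hxy
      have e6 : ((y * p : ℤ) : MonoidAlgebra ℤ G) = ((p : ℤ) : MonoidAlgebra ℤ G) * y := by
        rw [← Int.cast_mul, mul_comm]
      rw [hβ, e2, Int.cast_sub, e6, Int.cast_one]
      noncomm_ring
    have e3 : Dv k (β - 1) := by
      refine ⟨((x * l' : ℤ) : MonoidAlgebra ℤ G) * (t - 1), ?_⟩
      have e2 : y * p = 1 - x * (k * l') := by linear_combination hxy
      have e6 : ((x * (k * l') : ℤ) : MonoidAlgebra ℤ G) = (k : MonoidAlgebra ℤ G) *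
          ((x * l' : ℤ) : MonoidAlgebra ℤ G) := by
        rw [← Int.cast_mul]; congr 1; ring
      rw [hβ, e2, Int.cast_sub, e6, Int.cast_one]
      noncomm_ring
    have e4 : Dv k (b * β - 1) := by
      have : b * β - 1 = b * (β - 1) + (b - 1) := by rw [mul_sub, mul_one]; abel
      rw [this]
      exact (e3.mul_left b).add h5
    have e5 : Dv p (b * β - 1) := by
      have : b * β - 1 = b * (β - t) + (b - MonoidAlgebra.single γ r) * t := by
        rw [mul_sub, sub_mul, ht, u1]; abel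
      rw [this]
      exact (e1.mul_left b).add (hγ.mul_right t)
    refine ih l' ?_ (k * p) (by rw [h1]; push_cast; ring) (hkl.mul_left hpl') hl' (b * β)
      (h4.mul z1.v) (e4.coprime e5 hkp)
    have := hp.one_lt
    have h0 : 0 < l' := Nat.pos_of_ne_zero hl0
    nlinarith

/-- normalisation modulo two -/
theorem norm_two [UniqueProds G] (d : ℤ) (hd : d ≠ 0) (b : MonoidAlgebra ℤ G) (h : V d b)
    (H : ∀ β : MonoidAlgebra ℤ G, V d (1 + 2 * β) → Z d (1 + 2 * β)) : Z d b := by
  obtain ⟨γ, r, hr, z, hz⟩ := unit_mod 2 Nat.prime_two b (h.dv (by simp)).1 (h.dv (by simp)).2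
  obtain ⟨u1, u2⟩ := single_unitary γ hr
  have z1 : Z d (star (MonoidAlgebra.single γ r)) :=
    Z.unit d (by rw [star_star]; exact u1) (by rw [star_star]; exact u2)
  refine Z.of_mul hl_grp tf_grp hd h z1 ?_
  have e : b * star (MonoidAlgebra.single γ r) =
      1 + 2 * (z * star (MonoidAlgebra.single γ r)) := by
    rw [sub_eq_iff_eq_add] at hz
    rw [hz, add_mul, u1, mul_assoc]
    push_cast
    rw [add_comm]
  rw [e]
  refine H _ ?_
  rw [← e]
  exact h.mul z1.v

theorem odd_case [UniqueProds G] (l : ℕ) (hl : Squarefree l) (ho : Odd l)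
    (b : MonoidAlgebra ℤ G) (h : V (l : ℤ) b) : Z (l : ℤ) b := by
  have hd : (l : ℤ) ≠ 0 := by exact_mod_cast hl.ne_zero
  refine norm_two _ hd b h fun β hβ => ?_
  refine odd_part (l : ℤ) hd l 2 rfl ?_ hl _ hβ ⟨β, by rw [add_sub_cancel_left]; push_cast; rfl⟩
  exact Nat.isCoprime_iff_coprime.2 (Nat.coprime_two_left.2 ho)

theorem coeff_two_mul (β : MonoidAlgebra ℤ G) (g : G) : (2 * β).coeff g = 2 * β.coeff g := by
  have := coeff_intmul 2 β g
  push_cast at this
  exact this

theorem sym_two {d : ℤ} (hd : d % 2 = 0) {β : MonoidAlgebra ℤ G} (h : V d (1 + 2 * β)) (g : G) :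
    (β.coeff g + β.coeff g⁻¹) % 2 = 0 := by
  obtain ⟨x, hx⟩ := (h.dv (n := 4) (by omega)).1
  have e : star (1 + 2 * β) * (1 + 2 * β) - 1 = 2 * (β + star β) + 4 * (star β * β) := by
    rw [star_add, star_mul, star_one, star_ofNat]
    noncomm_ring
  rw [e] at hx
  have h1 := congrArg (fun y => y.coeff g) hx
  have h4 : (4 : MonoidAlgebra ℤ G) * (star β * β) = ((4 : ℤ) : MonoidAlgebra ℤ G) *
    (star β * β) := by push_cast; rfl
  simp only [h4, MonoidAlgebra.coeff_add, Finsupp.add_apply, coeff_two_mul, coeff_intmul,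
    coeff_star] at h1
  omega

/-- the even part -/
theorem even_part [UniqueProds G] (m : ℕ) (hm : Squarefree m) (ho : m % 2 = 1) (n : ℕ) :
    ∀ (β : MonoidAlgebra ℤ G) (_ : (β.coeff.support.filter fun g => β.coeff g % 2 = 1).card = n)
      (_ : V (2 * m : ℤ) (1 + 2 * β)), Z (2 * m : ℤ) (1 + 2 * β) := by
  classical
  have hm0 : (m : ℤ) ≠ 0 := by exact_mod_cast hm.ne_zero
  have hd : (2 * m : ℤ) ≠ 0 := by omega
  induction n using Nat.strong_induction_on with
  | _ n ih =>
  intro β hn hv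
  -- a step
  have step : ∀ (w β' : MonoidAlgebra ℤ G) (g : G), Z (2 * m : ℤ) w →
      (1 + 2 * β) * w = 1 + 2 * β' → β.coeff g % 2 = 1 → β'.coeff g % 2 = 0 →
      (∀ h, β'.coeff h % 2 = 1 → β.coeff h % 2 = 1) → Z (2 * m : ℤ) (1 + 2 * β) := by
    intro w β' g h1 h2 h3 h4 h5
    refine Z.of_mul hl_grp tf_grp hd hv h1 ?_
    rw [h2]
    refine ih _ ?_ β' rfl (by rw [← h2]; exact hv.mul h1.v)
    rw [← hn]
    refine Finset.card_lt_card ⟨?_, ?_⟩
    · intro h hh
      rw [Finset.mem_filter] at hh ⊢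
      have h6 := h5 h hh.2
      refine ⟨?_, h6⟩
      rw [Finsupp.mem_support_iff]
      intro h7
      rw [h7] at h6
      omega
    · intro hsub
      have h6 : g ∈ β.coeff.support.filter fun g => β.coeff g % 2 = 1 := by
        rw [Finset.mem_filter, Finsupp.mem_support_iff]
        exact ⟨fun h7 => by rw [h7] at h3; omega, h3⟩
      have h7 := (Finset.mem_filter.1 (hsub h6)).2
      omega
  by_cases hall : ∀ g, β.coeff g % 2 = 0
  · -- divisible by four
    obtain ⟨z, hz⟩ : Dv 2 β := dv_iff.2 fun g => Int.dvd_of_emod_eq_zero (hall g)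
    refine odd_part (2 * m : ℤ) hd m 4 (by ring) ?_ hm _ hv ⟨z, ?_⟩
    · have h1 : Nat.Coprime 2 m := Nat.coprime_two_left.2 (Nat.odd_iff.2 ho)
      have h2 : Nat.Coprime 4 m := by
        have := h1.pow_left 2
        simpa using this
      exact Nat.isCoprime_iff_coprime.2 h2
    · rw [add_sub_cancel_left, hz]
      push_cast
      noncomm_ring
  · push Not at hall
    obtain ⟨g, hg⟩ := hall
    have hg1 : β.coeff g % 2 = 1 := by omega
    by_cases hg0 : g = 1
    · subst hg0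
      refine step (-1) (-1 - β) 1 (Z.unit _ (by simp) (by simp)) (by noncomm_ring) hg1 ?_ ?_
      · simp only [MonoidAlgebra.coeff_sub, MonoidAlgebra.coeff_neg, Finsupp.sub_apply,
          Finsupp.neg_apply, MonoidAlgebra.one_def, MonoidAlgebra.coeff_single,
          Finsupp.single_eq_same]
        omega
      · intro h hh
        by_cases h1 : h = 1
        · subst h1; exact hg1
        · simp only [MonoidAlgebra.coeff_sub, MonoidAlgebra.coeff_neg, Finsupp.sub_apply,
            Finsupp.neg_apply, MonoidAlgebra.one_def, MonoidAlgebra.coeff_single,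
            Finsupp.single_eq_of_ne h1] at hh
          omega
    · obtain ⟨u1, u2⟩ := single_unitary g (r := 1) (by norm_num)
      have z1 := type2 (A := MonoidAlgebra ℤ G) (m := m) (by omega) u1 u2
      obtain ⟨s, hs⟩ : ∃ s, s = MonoidAlgebra.single g (1 : ℤ) - star (MonoidAlgebra.single g 1) :=
        ⟨_, rfl⟩
      rw [← hs] at z1
      have hsc : ∀ h, s.coeff h = (if g = h then 1 else 0) - (if g⁻¹ = h then 1 else 0) := by
        intro h
        rw [hs, star_single, MonoidAlgebra.coeff_sub, Finsupp.sub_apply,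
          MonoidAlgebra.coeff_single, MonoidAlgebra.coeff_single, Finsupp.single_apply,
          Finsupp.single_apply]
      have hgg : g ≠ g⁻¹ := inv_ne hg0
      have hc : ∀ h, (β + (m : ℤ) * (s + 2 * (β * s)) : MonoidAlgebra ℤ G).coeff h =
          β.coeff h + m * (s.coeff h + 2 * (β * s).coeff h) := by
        intro h
        rw [MonoidAlgebra.coeff_add, Finsupp.add_apply, coeff_intmul, MonoidAlgebra.coeff_add,
          Finsupp.add_apply, coeff_two_mul]
      refine step _ (β + (m : ℤ) * (s + 2 * (β * s))) g z1 ?_ hg1 ?_ ?_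
      · have e6 : ((2 * (m : ℤ) : ℤ) : MonoidAlgebra ℤ G) = 2 * ((m : ℤ) : MonoidAlgebra ℤ G) := by
          push_cast; rfl
        rw [e6]
        have e7 : β * ((m : ℤ) : MonoidAlgebra ℤ G) = ((m : ℤ) : MonoidAlgebra ℤ G) * β :=
          cmm _ _
        calc (1 + 2 * β) * (1 + 2 * ((m : ℤ) : MonoidAlgebra ℤ G) * s) =
            1 + 2 * β + 2 * (((m : ℤ) : MonoidAlgebra ℤ G) * s) +
              4 * (β * ((m : ℤ) : MonoidAlgebra ℤ G) * s) := by noncomm_ring
          _ = _ := by rw [e7]; noncomm_ring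
      · rw [hc, hsc, if_pos rfl, if_neg (Ne.symm hgg)]
        have : (m : ℤ) % 2 = 1 := by omega
        obtain ⟨a, ha⟩ : ∃ a : ℤ, (m : ℤ) = 2 * a + 1 := ⟨m / 2, by omega⟩
        rw [ha]
        have e8 : β.coeff g + (2 * a + 1) * (1 - 0 + 2 * (β * s).coeff g) =
          β.coeff g + 1 + 2 * (a + (2 * a + 1) * (β * s).coeff g) := by ring
        rw [e8]
        omega
      · intro h hh
        rw [hc] at hh
        obtain ⟨a, ha⟩ : ∃ a : ℤ, (m : ℤ) = 2 * a + 1 := ⟨m / 2, by omega⟩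
        rw [ha] at hh
        have e8 : β.coeff h + (2 * a + 1) * (s.coeff h + 2 * (β * s).coeff h) =
          β.coeff h + s.coeff h + 2 * (a * s.coeff h + (2 * a + 1) * (β * s).coeff h) := by ring
        rw [e8] at hh
        by_cases h1 : g = h
        · subst h1; exact hg1
        · by_cases h2 : g⁻¹ = h
          · subst h2
            have := sym_two (by omega) hv g
            omega
          · rw [hsc, if_neg h1, if_neg h2] at hh
            omega

theorem even_case [UniqueProds G] (m : ℕ) (hm : Squarefree m) (ho : m % 2 = 1)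
    (b : MonoidAlgebra ℤ G) (h : V (2 * m : ℤ) b) : Z (2 * m : ℤ) b := by
  have hm0 : (m : ℤ) ≠ 0 := by exact_mod_cast hm.ne_zero
  exact norm_two _ (by omega) b h fun β hβ => even_part m hm ho _ β rfl hβ

theorem sqfree_case [UniqueProds G] (d : ℕ) (hd : Squarefree d) (b : MonoidAlgebra ℤ G)
    (h : V (d : ℤ) b) : Z (d : ℤ) b := by
  rcases Nat.even_or_odd d with ⟨m, hm⟩ | ho
  · have hm' : d = 2 * m := by omega
    subst hm'
    have h1 := Nat.squarefree_mul_iff.1 hd
    push_cast at h ⊢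
    exact even_case m h1.2.2 (Nat.odd_iff.1 (Nat.coprime_two_left.1 h1.1)) b h
  · exact odd_case d hd ho b h

theorem V.neg {A : Type*} [Ring A] [StarRing A] {d : ℤ} {b : A} (h : V d b) : V (-d) b := by
  obtain ⟨c, k, h1, h2⟩ := h
  have e : ∀ y : A, ((2 * -d : ℤ) : A) * (-y + star (-y)) = ((2 * d : ℤ) : A) * (y + star y) := by
    intro y
    rw [star_neg]
    push_cast
    noncomm_ring
  exact ⟨-c, -k, by rw [e, h1], by rw [e, h2]⟩

theorem V.of_sq {A : Type*} [Ring A] [StarRing A] {d r : ℤ} {b : A} (h : V (r * d) b) :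
    V d b := by
  obtain ⟨c, k, h1, h2⟩ := h
  have e : ∀ y : A, ((2 * (r * d) : ℤ) : A) * (y + star y) =
      ((2 * d : ℤ) : A) * ((r : A) * y + star ((r : A) * y)) := by
    intro y
    rw [star_mul, star_m, cmm, ← mul_add, ← mul_assoc ((2 * d : ℤ) : A), ← Int.cast_mul]
    congr 2; ring
  exact ⟨_, _, by rw [h1, e], by rw [h2, e]⟩

theorem nat_case [UniqueProds G] (d : ℕ) (hd : d ≠ 0) (b : MonoidAlgebra ℤ G)
    (h : V (d : ℤ) b) : Z (d : ℤ) b := by
  obtain ⟨a, r, hr, ha⟩ := Nat.sq_mul_squarefree d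
  have hr0 : (r : ℤ) ≠ 0 := by
    rintro h0
    have : r = 0 := by exact_mod_cast h0
    subst this
    simp at hr
    exact hd hr.symm
  have e : (d : ℤ) = (r : ℤ) ^ 2 * (a : ℤ) := by rw [← hr]; push_cast; rfl
  rw [e] at h ⊢
  exact Z.sq hl_grp tf_grp (by exact_mod_cast ha.ne_zero) hr0 (sqfree_case a ha b h.of_sq) h

/-- all nonsingular forms `T d b c` are stably hyperbolic -/
theorem all_case [UniqueProds G] (d : ℤ) (hd : d ≠ 0) (b : MonoidAlgebra ℤ G)
    (h : V d b) : Z d b := by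
  rcases Int.natAbs_eq d with h1 | h1
  · rw [h1] at h ⊢
    exact nat_case _ (by omega) b h
  · rw [h1] at h ⊢
    exact (nat_case _ (by omega) b (by have := h.neg; rwa [neg_neg] at this)).neg

end

end Pool.Agent.X263.Qf
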