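import Pool.Agent.X263.Qf.Sy

/-!
The relations between the forms `T d b c`.
-/

set_option autoImplicit false
set_option linter.unusedSectionVars false

namespace Pool.Agent.X263.Qf

open Matrix

section

variable {A : Type*} [Ring A] [StarRing A]

theorem sy_os {ι κ : Type*} [Fintype ι] [DecidableEq ι] [Fintype κ] [DecidableEq κ]
    (ψ : Matrix ι ι A) (ψ' : Matrix κ κ A) : sy 1 (os ψ ψ') = os (sy 1 ψ) (sy 1 ψ') := by
  rw [sy, os, fromBlocks_conjTranspose, Matrix.fromBlocks_smul, Matrix.fromBlocks_add]
  simp [sy]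

theorem cmm (m : ℤ) (x : A) : x * (m : A) = (m : A) * x := (Int.commute_cast x m).eq

theorem cmm' (m : ℤ) (x y : A) : x * ((m : A) * y) = (m : A) * (x * y) := by
  rw [← mul_assoc, cmm, mul_assoc]

theorem star_m (m : ℤ) : star (m : A) = m := by simp

theorem prod_rel (hL : HL A) (d : ℤ) (hd : ∀ x : A, ((2 * d : ℤ) : A) * x = 0 → x = 0)
    (b c b' c' k : A)
    (r1 : star b * b = 1 + ((2 * d : ℤ) : A) * (c + star c))
    (r2 : star b' * b' = 1 + ((2 * d : ℤ) : A) * (c' + star c'))
    (r3 : b' * star b' = 1 + ((2 * d : ℤ) : A) * (k + star k)) :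
    QI 1 (os (T d b c) (T d b' c'))
      (os (T d (b * b') (c' + star b' * c * b')) (T 0 1 (-k))) := by
  obtain ⟨m, hm⟩ : ∃ m : ℤ, m = 2 * d := ⟨_, rfl⟩
  rw [← hm] at r1 r2 r3
  obtain ⟨C, hC⟩ : ∃ C, C = c + star c := ⟨_, rfl⟩
  obtain ⟨C', hC'⟩ : ∃ C', C' = c' + star c' := ⟨_, rfl⟩
  obtain ⟨K, hK⟩ : ∃ K, K = k + star k := ⟨_, rfl⟩
  rw [← hC] at r1
  rw [← hC'] at r2
  rw [← hK] at r3
  have sC : star C = C := by rw [hC, star_add, star_star, add_comm]
  have sC' : star C' = C' := by rw [hC', star_add, star_star, add_comm]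
  have sK : star K = K := by rw [hK, star_add, star_star, add_comm]
  have hd' : ∀ x y : A, (m : A) * x = (m : A) * y → x = y := by
    intro x y h
    rw [← sub_eq_zero]
    apply hd
    rw [← hm, mul_sub, h, sub_self]
  have r4 : K * b' = b' * C' := by
    apply hd'
    rw [← mul_assoc, ← cmm' m b' C', show (m : A) * K = b' * star b' - 1 by rw [r3]; abel,
      show (m : A) * C' = star b' * b' - 1 by rw [r2]; abel]
    noncomm_ring
  have r5 : star b' * K = C' * star b' := by
    have := congrArg star r4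
    rw [star_mul, star_mul, sK, sC'] at this
    exact this
  have mK : (m : A) * K = b' * star b' - 1 := by rw [r3]; abel
  refine QI_of_sy hL
    (fromBlocks !![1, 0; 0, star b'] !![0, 0; 0, 1] !![-star b, (m : A); 0, 0] !![1, 0; -K, b'])
    (fromBlocks !![1, 0; -(K * star b), b'] !![0, 0; -K, -1]
      !![star b + (m : A) * (K * star b), -((m : A) * b');
        star b' * K * star b, 1 - star b' * b']
      !![1 + (m : A) * K, (m : A); star b' * K, star b']) ?_ ?_ ?_
  · rw [fromBlocks_multiply, ← fromBlocks_one]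
    simp only [Matrix.mul_fin_two]
    congr 1
    · ext i j
      fin_cases i <;> fin_cases j <;> simp [mul_assoc]
    · ext i j
      fin_cases i <;> fin_cases j <;> simp
    · ext i j
      fin_cases i <;> fin_cases j
      · simp [mul_assoc]
        abel
      · simp
      · simp
        rw [mul_add, cmm', ← mul_assoc (m : A) K, mK]
        noncomm_ring
      · simp
        rw [cmm', ← mul_assoc (m : A) K, mK]
        noncomm_ring
    · ext i j
      fin_cases i <;> fin_cases j
      · simp
      · simp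
      · simp
        rw [mul_add, cmm', ← mul_assoc (m : A) K, mK]
        noncomm_ring
      · simp
        rw [cmm, mK]
        abel
  · rw [fromBlocks_multiply, ← fromBlocks_one]
    simp only [Matrix.mul_fin_two]
    congr 1
    · ext i j
      fin_cases i <;> fin_cases j
      · simp
      · simp
      · simp
      · simp
        rw [cmm, mK]
        abel
    · ext i j
      fin_cases i <;> fin_cases j <;> simp
    · ext i j
      fin_cases i <;> fin_cases j
      · simp
        noncomm_ring
      · simp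
        rw [mK, cmm]
        noncomm_ring
      · simp
      · simp
        rw [mul_assoc (star b') K, cmm m K, mK]
        noncomm_ring
    · ext i j
      fin_cases i <;> fin_cases j <;> simp
  · have e1 : c' + star b' * c * b' + star (c' + star b' * c * b') =
        C' + star b' * C * b' := by
      rw [star_add, star_mul, star_mul, star_star, hC, hC']
      noncomm_ring
    have e2 : (-k) + star (-k) = -K := by rw [hK, star_neg]; abel
    rw [sy_os, sy_os, sy_T, sy_T, sy_T, sy_T, ← hm, ← hC, ← hC', e1, e2,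
      fromBlocks_conjTranspose, os, os, fromBlocks_multiply, fromBlocks_multiply]
    have t : ∀ x y z w : A, (!![x, y; z, w] : Matrix (Fin 2) (Fin 2) A)ᴴ =
        !![star x, star z; star y, star w] := by
      intro x y z w
      ext i j
      fin_cases i <;> fin_cases j <;> rfl
    have mC : (m : A) * C = star b * b - 1 := by rw [r1]; abel
    simp only [t, Matrix.mul_fin_two, Matrix.mul_zero, add_zero, zero_add]
    congr 1
    · ext i j
      fin_cases i <;> fin_cases j
      · simp
      · simp
      · simp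
      · simp
        abel
    · ext i j
      fin_cases i <;> fin_cases j
      · simp
        rw [cmm]; abel
      · simp
      · simp
        rw [mul_assoc (star b') C, cmm m C, mC]
        noncomm_ring
      · simp
        rw [sK, r5]; abel
    · ext i j
      fin_cases i <;> fin_cases j
      · simp
        rw [cmm]; abel
      · simp
        rw [mC]
        noncomm_ring
      · simp
      · simp
        rw [r4]; abel
    · ext i j
      fin_cases i <;> fin_cases j
      · simp
        rw [cmm, mC]
        noncomm_ring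
      · simp
        rw [sK, mK]; abel
      · simp
        rw [cmm, mK]; abel
      · simp
        rw [sK, cmm, mK, r4]
        noncomm_ring

/-- the product formula up to stable isometry -/
theorem prod_SE (hL : HL A) (d : ℤ) (hd : ∀ x : A, ((2 * d : ℤ) : A) * x = 0 → x = 0)
    (b c b' c' k : A)
    (r1 : star b * b = 1 + ((2 * d : ℤ) : A) * (c + star c))
    (r2 : star b' * b' = 1 + ((2 * d : ℤ) : A) * (c' + star c'))
    (r3 : b' * star b' = 1 + ((2 * d : ℤ) : A) * (k + star k)) :
    SE 1 (os (T d b c) (T d b' c'))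
      (os (T d (b * b') (c' + star b' * c * b')) (hy A Unit)) := by
  exact SE.of_QI ((prod_rel hL d hd b c b' c' k r1 r2 r3).trans ((QI.refl 1 _).os
    (hplane 1 (-k) 1 (one_mul 1) (one_mul 1))))

/-- the square relation -/
theorem sq_rel (hL : HL A) (d r : ℤ)
    (hd : ∀ x : A, ((2 * (r ^ 2 * d) : ℤ) : A) * x = 0 → x = 0) (b c k : A)
    (r1 : star b * b = 1 + ((2 * (r ^ 2 * d) : ℤ) : A) * (c + star c))
    (r3 : b * star b = 1 + ((2 * (r ^ 2 * d) : ℤ) : A) * (k + star k)) :
    QI 1 (os (T (r ^ 2 * d) b c) (-(T d b (((r * r : ℤ) : A) * c)))) (hy A (Fin 2)) := by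
  obtain ⟨m, hm⟩ : ∃ m : ℤ, m = 2 * d := ⟨_, rfl⟩
  obtain ⟨M, hM⟩ : ∃ M : ℤ, M = 2 * (r ^ 2 * d) := ⟨_, rfl⟩
  have hMm : M = r * r * m := by rw [hM, hm]; ring
  rw [← hM] at r1 r3 hd
  obtain ⟨C, hC⟩ : ∃ C, C = c + star c := ⟨_, rfl⟩
  obtain ⟨K, hK⟩ : ∃ K, K = k + star k := ⟨_, rfl⟩
  rw [← hC] at r1
  rw [← hK] at r3
  have sC : star C = C := by rw [hC, star_add, star_star, add_comm]
  have sK : star K = K := by rw [hK, star_add, star_star, add_comm]
  have hd' : ∀ x y : A, (M : A) * x = (M : A) * y → x = y := by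
    intro x y h
    rw [← sub_eq_zero]
    apply hd
    rw [mul_sub, h, sub_self]
  have mK : (M : A) * K = b * star b - 1 := by rw [r3]; abel
  have mC : (M : A) * C = star b * b - 1 := by rw [r1]; abel
  have r4 : K * b = b * C := by
    apply hd'
    rw [← mul_assoc, ← cmm' M b C, mK, mC]
    noncomm_ring
  have r5 : star b * K = C * star b := by
    have := congrArg star r4
    rw [star_mul, star_mul, sK, sC] at this
    exact this
  have t : ∀ x y z w : A, (!![x, y; z, w] : Matrix (Fin 2) (Fin 2) A)ᴴ =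
      !![star x, star z; star y, star w] := by
    intro x y z w
    ext i j
    fin_cases i <;> fin_cases j <;> rfl
  obtain ⟨ρ, hρ⟩ : ∃ ρ : A, ρ = (r : A) := ⟨_, rfl⟩
  have cρ : ∀ x : A, x * ρ = ρ * x := fun x => by rw [hρ]; exact cmm r x
  have sρ : star ρ = ρ := by rw [hρ]; exact star_m r
  obtain ⟨μ, hμ⟩ : ∃ μ : A, μ = (m : A) := ⟨_, rfl⟩
  have cμ : ∀ x : A, x * μ = μ * x := fun x => by rw [hμ]; exact cmm m x
  have sμ : star μ = μ := by rw [hμ]; exact star_m m
  have eM : (M : A) = ρ * ρ * μ := by rw [hMm, hρ, hμ]; push_cast; rfl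
  rw [eM] at mK mC
  have f1 : ∀ x : A, ρ * μ * (ρ * x) = ρ * ρ * μ * x := by
    intro x
    rw [← mul_assoc, mul_assoc ρ μ ρ, cρ μ, ← mul_assoc]
  have f2 : ∀ x : A, ρ * x * (ρ * μ) = ρ * ρ * μ * x := by
    intro x
    rw [mul_assoc ρ x, ← mul_assoc x ρ μ, cρ x, mul_assoc ρ x μ, cμ x]
    simp only [mul_assoc]
  have f3 : ∀ x : A, x * (ρ * μ) = ρ * μ * x := by
    intro x
    rw [← mul_assoc x, cρ x, mul_assoc ρ x μ, cμ x, ← mul_assoc]
  refine (QI_of_sy (ψ' := fromBlocks 0 !![-(ρ * μ), b; -star b, ρ * C] 0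
    !![((-d : ℤ) : A), 0; 0, c]) hL
    (fromBlocks !![1, 0; 0, ρ] !![ρ, 0; 0, 1] !![0, 0; 0, 1] !![1, 0; 0, 0])
    (fromBlocks !![1, 0; 0, 0] !![-ρ, 0; 0, 1] !![0, 0; 0, 1] !![1, 0; 0, -ρ]) ?_ ?_ ?_).trans
    (metab 1 _ _ _ !![ρ * K, -b; star b, -(ρ * μ)] ?_ ?_)
  · rw [fromBlocks_multiply, ← fromBlocks_one]
    simp only [Matrix.mul_fin_two]
    congr 1 <;> ext i j <;> fin_cases i <;> fin_cases j <;> simp
  · rw [fromBlocks_multiply, ← fromBlocks_one]
    simp only [Matrix.mul_fin_two]
    congr 1 <;> ext i j <;> fin_cases i <;> fin_cases j <;> simp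
  · have e0 : sy 1 (-(T d b (((r * r : ℤ) : A) * c))) =
        !![-μ, -b; -star b, -(ρ * ρ * C)] := by
      have e1 : sy 1 (-(T d b (((r * r : ℤ) : A) * c))) =
          -(sy 1 (T d b (((r * r : ℤ) : A) * c))) := by
        rw [sy, sy, conjTranspose_neg, one_smul, one_smul]; abel
      have e2 : ((r * r : ℤ) : A) * c + star (((r * r : ℤ) : A) * c) = ρ * ρ * C := by
        rw [star_mul, star_m, cmm, ← mul_add, ← hC, hρ]; push_cast; rfl
      rw [e1, sy_T, e2, ← hm, hμ]
      ext i j
      fin_cases i <;> fin_cases j <;> rfl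
    have e3 : sy 1 (fromBlocks (0 : Matrix (Fin 2) (Fin 2) A)
        !![-(ρ * μ), b; -star b, ρ * C] 0 !![((-d : ℤ) : A), 0; 0, c]) =
        fromBlocks 0 !![-(ρ * μ), b; -star b, ρ * C] !![-(ρ * μ), -b; star b, ρ * C]
          !![-μ, 0; 0, C] := by
      rw [sy, fromBlocks_conjTranspose, one_smul, Matrix.fromBlocks_add, t, t]
      congr 1
      · simp
      · simp
      · ext i j
        fin_cases i <;> fin_cases j
        · simp [sρ, sμ]
          rw [cρ]
        · simp
        · simp
        · simp [sρ, sC]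
          rw [cρ]
      · ext i j
        fin_cases i <;> fin_cases j
        · have e4 : (m : A) = 2 * (d : A) := by rw [hm]; push_cast; rfl
          simp [hμ, e4]
          noncomm_ring
        · simp
        · simp
        · simp [hC]
    rw [sy_os, sy_T, ← hM, e0, ← hC, e3, fromBlocks_conjTranspose, os, fromBlocks_multiply,
      fromBlocks_multiply, eM]
    simp only [t, Matrix.mul_fin_two, Matrix.mul_zero, add_zero, zero_add]
    congr 1
    · ext i j
      fin_cases i <;> fin_cases j
      · simp [sρ]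
        rw [mul_assoc ρ μ ρ, cρ μ, ← mul_assoc]; abel
      · simp [sρ]
        rw [cρ]; abel
      · simp [sρ]
        rw [cρ (star b)]; abel
      · simp [sρ]
        rw [mul_assoc ρ C ρ, cρ C, ← mul_assoc]; abel
    · ext i j
      fin_cases i <;> fin_cases j <;> simp
    · ext i j
      fin_cases i <;> fin_cases j
      · simp [sρ]
        exact cρ μ
      · simp
      · simp
      · simp [sρ]
        exact cρ C
    · ext i j
      fin_cases i <;> fin_cases j <;> simp
  · rw [conjTranspose_zero, smul_zero, add_zero, Matrix.mul_fin_two]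
    ext i j
    fin_cases i <;> fin_cases j
    · simp
      rw [f1, mK]; abel
    · simp
      rw [f3]; abel
    · simp
      rw [← mul_assoc (star b) ρ K, cρ, mul_assoc ρ (star b) K, r5, ← mul_assoc]; abel
    · simp
      rw [f2, mC]; abel
  · rw [conjTranspose_zero, smul_zero, add_zero, Matrix.mul_fin_two]
    ext i j
    fin_cases i <;> fin_cases j
    · simp
      rw [f2, mK]; abel
    · simp
      rw [mul_assoc ρ K b, r4, ← mul_assoc b ρ C, cρ b, mul_assoc]; abel
    · simp
      rw [f3]; abel
    · simp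
      rw [f1, mC]; abel

end

end Pool.Agent.X263.Qf
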