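import Pool.Agent.X263.Qf.Theta
import Pool.Agent.X263.Qf.Aug

/-!
Stable isometry of quadratic forms.
-/

set_option autoImplicit false
set_option linter.unusedSectionVars false

namespace Pool.Agent.X263.Qf

open Matrix

variable {A : Type*} [Ring A] [StarRing A] {ε : ℤ}
variable {ι κ μ ν ι' κ' : Type} [Fintype ι] [DecidableEq ι] [Fintype κ] [DecidableEq κ]
  [Fintype μ] [DecidableEq μ] [Fintype ν] [DecidableEq ν] [Fintype ι'] [DecidableEq ι']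
  [Fintype κ'] [DecidableEq κ']

theorem os_assoc (α : Matrix ι ι A) (β : Matrix κ κ A) (γ : Matrix μ μ A) :
    QI ε (os (os α β) γ) (os α (os β γ)) := by
  refine (QI.reindex ε _ (Equiv.sumAssoc ι κ μ).symm).trans (QI.of_eq ?_)
  ext i j
  rcases i with i | (i | i) <;> rcases j with j | (j | j) <;> rfl

theorem os_comm (α : Matrix ι ι A) (β : Matrix κ κ A) : QI ε (os α β) (os β α) := by
  refine (QI.reindex ε _ (Equiv.sumComm κ ι)).trans (QI.of_eq ?_)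
  ext i j
  rcases i with i | i <;> rcases j with j | j <;> rfl

theorem hy_sum (ε : ℤ) (A : Type*) [Ring A] [StarRing A] (μ ν : Type) [Fintype μ]
    [DecidableEq μ] [Fintype ν] [DecidableEq ν] :
    QI ε (os (hy A μ) (hy A ν)) (hy A (μ ⊕ ν)) := by
  refine (QI.reindex ε _ (Equiv.sumSumSumComm μ ν μ ν)).trans (QI.of_eq ?_)
  ext i j
  rcases i with (i | i) | (i | i) <;> rcases j with (j | j) | (j | j) <;>
    simp [hy, Matrix.one_apply]

theorem hy_congr (ε : ℤ) (A : Type*) [Ring A] [StarRing A] {μ ν : Type} [Fintype μ]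
    [DecidableEq μ] [Fintype ν] [DecidableEq ν] (e : μ ≃ ν) : QI ε (hy A μ) (hy A ν) := by
  refine (QI.reindex ε _ (Equiv.sumCongr e.symm e.symm)).trans (QI.of_eq ?_)
  ext i j
  rcases i with i | i <;> rcases j with j | j <;>
    simp [hy, Matrix.one_apply]

/-- stable isometry -/
def SE (ε : ℤ) (ψ : Matrix ι ι A) (ψ' : Matrix κ κ A) : Prop :=
  ∃ (μ : Type) (_ : Fintype μ) (_ : DecidableEq μ), QI ε (os ψ (hy A μ)) (os ψ' (hy A μ))

theorem SE.of_QI {ψ : Matrix ι ι A} {ψ' : Matrix κ κ A} (h : QI ε ψ ψ') : SE ε ψ ψ' :=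
  ⟨Fin 0, inferInstance, inferInstance, h.os (QI.refl _ _)⟩

theorem SE.symm {ψ : Matrix ι ι A} {ψ' : Matrix κ κ A} (h : SE ε ψ ψ') : SE ε ψ' ψ := by
  obtain ⟨μ, i1, i2, h⟩ := h
  exact ⟨μ, i1, i2, h.symm⟩

theorem SE.add {ψ : Matrix ι ι A} {ψ' : Matrix κ κ A} {θ : Matrix ι' ι' A}
    {θ' : Matrix κ' κ' A} (h : SE ε ψ ψ') (h' : SE ε θ θ') : SE ε (os ψ θ) (os ψ' θ') := by
  obtain ⟨μ, i1, i2, h⟩ := h
  obtain ⟨ν, j1, j2, h'⟩ := h'
  refine ⟨μ ⊕ ν, inferInstance, inferInstance, ?_⟩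
  have key : ∀ {ι ι' : Type} [Fintype ι] [DecidableEq ι] [Fintype ι'] [DecidableEq ι']
      (ψ : Matrix ι ι A) (θ : Matrix ι' ι' A),
      QI ε (os (os ψ θ) (hy A (μ ⊕ ν))) (os (os ψ (hy A μ)) (os θ (hy A ν))) := by
    intro ι ι' _ _ _ _ ψ θ
    refine ((QI.refl ε (os ψ θ)).os (hy_sum ε A μ ν).symm).trans ?_
    refine (os_assoc _ _ _).trans ?_
    refine QI.trans ?_ (os_assoc _ _ _).symm
    refine (QI.refl ε ψ).os ?_
    refine (os_assoc _ _ _).symm.trans ?_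
    refine ((os_comm θ (hy A μ)).os (QI.refl _ _)).trans ?_
    exact os_assoc _ _ _
  exact (key ψ θ).trans ((h.os h').trans (key ψ' θ').symm)

theorem SE.refl (ψ : Matrix ι ι A) : SE ε ψ ψ := SE.of_QI (QI.refl _ _)

theorem SE.cancel_hy {ψ : Matrix ι ι A} {ψ' : Matrix κ κ A}
    (h : SE ε (os ψ (hy A μ)) (os ψ' (hy A μ))) : SE ε ψ ψ' := by
  obtain ⟨ν, i1, i2, h⟩ := h
  refine ⟨μ ⊕ ν, inferInstance, inferInstance, ?_⟩
  have key : ∀ {ι : Type} [Fintype ι] [DecidableEq ι] (ψ : Matrix ι ι A),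
      QI ε (os ψ (hy A (μ ⊕ ν))) (os (os ψ (hy A μ)) (hy A ν)) := by
    intro ι _ _ ψ
    exact ((QI.refl ε ψ).os (hy_sum ε A μ ν).symm).trans (os_assoc _ _ _).symm
  exact (key ψ).trans (h.trans (key ψ').symm)

theorem SE.trans {ψ : Matrix ι ι A} {ψ' : Matrix κ κ A} {ψ'' : Matrix μ μ A}
    (h : SE ε ψ ψ') (h' : SE ε ψ' ψ'') : SE ε ψ ψ'' := by
  obtain ⟨μ', i1, i2, h⟩ := h
  obtain ⟨ν', j1, j2, h'⟩ := h'
  refine SE.cancel_hy (μ := μ') ?_
  refine ⟨ν', inferInstance, inferInstance, ?_⟩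
  have sw : ∀ {ι : Type} [Fintype ι] [DecidableEq ι] (ψ : Matrix ι ι A),
      QI ε (os (os ψ (hy A μ')) (hy A ν')) (os (os ψ (hy A ν')) (hy A μ')) := by
    intro ι _ _ ψ
    exact (os_assoc _ _ _).trans (((QI.refl ε ψ).os (os_comm _ _)).trans (os_assoc _ _ _).symm)
  refine (h.os (QI.refl ε (hy A ν'))).trans ?_
  refine (sw ψ').trans ?_
  refine (h'.os (QI.refl ε (hy A μ'))).trans ?_
  exact (sw ψ'').symm

/-- cancellation of a nonsingular form -/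
theorem SE.cancel {ψ : Matrix ι ι A} {ψ' : Matrix κ κ A} {θ : Matrix μ μ A} (hθ : NS ε θ)
    (h : SE ε (os ψ (-θ)) (os ψ' (-θ))) : SE ε ψ ψ' := by
  refine SE.cancel_hy (μ := μ) ?_
  have h1 := h.add (SE.refl (ε := ε) θ)
  have key : ∀ {ι : Type} [Fintype ι] [DecidableEq ι] (ψ : Matrix ι ι A),
      QI ε (os (os ψ (-θ)) θ) (os ψ (hy A μ)) := by
    intro ι _ _ ψ
    exact (os_assoc _ _ _).trans ((QI.refl ε ψ).os (neg_sum ε θ hθ))
  exact (SE.of_QI (key ψ)).symm.trans (h1.trans (SE.of_QI (key ψ')))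

theorem hy_map (ρ : A →+* A) : (hy A μ).map ρ = hy A μ := by
  ext i j
  rcases i with i | i <;> rcases j with j | j <;> simp [hy, Matrix.one_apply, apply_ite ρ]

/-- the stable theorem from the case of rank two -/
theorem stab (hε : ε * ε = 1) (C : Subring A) (hC : ∀ x ∈ C, star x ∈ C) (ρ : A →+* A)
    (hρ : ∀ x, ρ (star x) = star (ρ x)) (hρC : ∀ x, ρ x ∈ C) (hρc : ∀ x ∈ C, ρ x = x)
    (H : ∀ δ : Matrix (Fin 2) (Fin 2) A, δ 0 0 ∈ C → NS ε δ → SE ε δ (δ.map ρ))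
    (ψ : Matrix (κ ⊕ Unit) (κ ⊕ Unit) A) (hψ : ∀ i j, ψ (Sum.inl i) (Sum.inl j) ∈ C)
    (hn : NS ε ψ) : SE ε ψ (ψ.map ρ) := by
  have hmap : sy ε (ψ.map ρ) = (sy ε ψ).map ρ := by
    rw [sy, sy, Matrix.map_add ρ (map_add ρ), map_zs, map_ct ρ hρ]
  obtain ⟨N, h1, h2⟩ := hn
  have n1 : sy ε (ψ.map ρ) * N.map ρ = 1 := by
    rw [hmap, ← Matrix.map_mul, h1, Matrix.map_one ρ (map_zero ρ) (map_one ρ)]
  have n2 : N.map ρ * sy ε (ψ.map ρ) = 1 := by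
    rw [hmap, ← Matrix.map_mul, h2, Matrix.map_one ρ (map_zero ρ) (map_one ρ)]
  obtain ⟨a, δ, q1, ha, hδ, hδn⟩ := theta ε hε C hC ψ (ψ.map ρ) (N.map ρ)
    (fun i j => (hρc _ (hψ i j)).symm) (fun i j => hρC _) (fun i j => hρC _) n1 n2 ⟨N, h1, h2⟩
  have q2 := q1.map ρ hρ
  have e1 : (os ψ (-(ψ.map ρ))).map ρ = os (ψ.map ρ) (-(ψ.map ρ)) := by
    ext i j
    rcases i with i | i <;> rcases j with j | j
    · rfl
    · exact map_zero ρ
    · exact map_zero ρ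
    · change ρ (-(ρ (ψ i j))) = -(ρ (ψ i j))
      rw [map_neg, hρc _ (hρC _)]
  have e2 : (os a δ).map ρ = os a (δ.map ρ) := by
    ext i j
    rcases i with i | i <;> rcases j with j | j
    · exact hρc _ (ha _ _)
    · exact map_zero ρ
    · exact map_zero ρ
    · rfl
  rw [e1, e2] at q2
  have q3 : SE ε (os a δ) (os a (δ.map ρ)) := (SE.refl a).add (H δ hδ hδn)
  exact SE.cancel ⟨N.map ρ, n1, n2⟩
    ((SE.of_QI q1).trans (q3.trans (SE.of_QI q2).symm))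

theorem SE.fin {ψ : Matrix ι ι A} {ψ' : Matrix κ κ A} (h : SE ε ψ ψ') :
    ∃ k : ℕ, QI ε (os ψ (hy A (Fin k))) (os ψ' (hy A (Fin k))) := by
  obtain ⟨μ, i1, i2, h⟩ := h
  have e := Fintype.equivFin μ
  exact ⟨Fintype.card μ, ((QI.refl ε ψ).os (hy_congr ε A e).symm).trans
    (h.trans ((QI.refl ε ψ').os (hy_congr ε A e)))⟩

end Pool.Agent.X263.Qf
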