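import Pool.Agent.X263.Qf.Stab

/-!
Even forms: isometries of the symmetrisations, and the sum formula for the forms `T d b c`.
-/

set_option autoImplicit false
set_option linter.unusedSectionVars false

namespace Pool.Agent.X263.Qf

open Matrix

section

variable {A : Type*} [Ring A] [StarRing A]
variable {ι κ : Type*} [Fintype ι] [DecidableEq ι] [Fintype κ] [DecidableEq κ]

/-- skew elements are differences -/
def HL (A : Type*) [Ring A] [StarRing A] : Prop :=
  ∀ x : A, x + star x = 0 → ∃ χ : A, x = χ - star χ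

theorem QI_of_sy (hL : HL A) {ψ : Matrix ι ι A} {ψ' : Matrix κ κ A} (P : Matrix κ ι A)
    (Q : Matrix ι κ A) (h1 : P * Q = 1) (h2 : Q * P = 1) (h : P * sy 1 ψ * Pᴴ = sy 1 ψ') :
    QI 1 ψ ψ' := by
  classical
  set D := P * ψ * Pᴴ - ψ' with hD
  have hs : sy 1 D = 0 := by
    have e : sy 1 D = sy 1 (P * ψ * Pᴴ) - sy 1 ψ' := by
      rw [hD, sy, sy, sy, conjTranspose_sub, one_smul, one_smul, one_smul]; abel
    rw [e, sy_congr, h, sub_self]
  have hs' : ∀ i j, D i j + star (D j i) = 0 := by
    intro i j
    have := congrFun (congrFun hs i) j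
    rwa [sy, one_smul, Matrix.add_apply, conjTranspose_apply] at this
  choose f hf using fun i => hL (D i i) (hs' i i)
  let χ : Matrix κ κ A := Matrix.of fun i j =>
    if WellOrderingRel i j then D i j else if i = j then f i else 0
  have hχ : ∀ i j, χ i j = if WellOrderingRel i j then D i j else if i = j then f i else 0 :=
    fun _ _ => rfl
  refine ⟨P, Q, χ, h1, h2, ?_⟩
  have key : D = χ - (1 : ℤ) • χᴴ := by
    ext i j
    rw [one_smul, Matrix.sub_apply, conjTranspose_apply, hχ, hχ]
    rcases trichotomous_of WellOrderingRel i j with h3 | h3 | h3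
    · have h4 : ¬ WellOrderingRel j i := fun h5 => asymm_of WellOrderingRel h3 h5
      have h5 : j ≠ i := by rintro rfl; exact h4 h3
      rw [if_pos h3, if_neg h4, if_neg h5, star_zero, sub_zero]
    · subst h3
      have h4 : ¬ WellOrderingRel i i := fun h => irrefl_of WellOrderingRel _ h
      rw [if_neg h4, if_pos rfl]
      exact hf i
    · have h4 : ¬ WellOrderingRel i j := fun h5 => asymm_of WellOrderingRel h3 h5
      have h5 : i ≠ j := by rintro rfl; exact h4 h3
      rw [if_pos h3, if_neg h4, if_neg h5, zero_sub]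
      exact eq_neg_of_add_eq_zero_left (hs' i j)
  rw [← key, hD]; abel

/-- the forms of rank two -/
def T (d : ℤ) (b c : A) : Matrix (Fin 2) (Fin 2) A := !![(d : A), b; 0, c]

theorem sy_T (d : ℤ) (b c : A) :
    sy 1 (T d b c) = !![((2 * d : ℤ) : A), b; star b, c + star c] := by
  ext i j
  fin_cases i <;> fin_cases j
  · simp [sy, T, conjTranspose_apply, two_mul]
  · simp [sy, T, conjTranspose_apply]
  · simp [sy, T, conjTranspose_apply]
  · simp [sy, T, conjTranspose_apply]

/-- hyperbolic planes -/
theorem hplane (b c : A) (b' : A) (h1 : b * b' = 1) (h2 : b' * b = 1) :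
    QI 1 (T 0 b c) (hy A Unit) := by
  let e : Unit ⊕ Unit ≃ Fin 2 := (Equiv.sumCongr (Equiv.ofUnique _ _)
    (Equiv.ofUnique _ _)).trans (finSumFinEquiv (m := 1) (n := 1))
  refine (QI.reindex 1 _ e).trans ?_
  have h3 : (T 0 b c).submatrix e e = fromBlocks (0 : Matrix Unit Unit A)
      (Matrix.of fun _ _ => b) 0 (Matrix.of fun _ _ => c) := by
    ext i j
    rcases i with i | i <;> rcases j with j | j
    · simp [T, e, finSumFinEquiv]
    · rfl
    · rfl
    · rfl
  rw [h3]
  refine metab 1 _ _ _ (Matrix.of fun _ _ => b') ?_ ?_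
  · ext i j
    simpa [Matrix.mul_apply, Matrix.one_apply] using h1
  · ext i j
    simpa [Matrix.mul_apply, Matrix.one_apply] using h2

end

end Pool.Agent.X263.Qf
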