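import Pool.Agent.X263.Qf.Core

/-!
The orthogonal sum of a form and the negative of a form with the same core.
-/

set_option autoImplicit false
set_option linter.unusedSectionVars false

namespace Pool.Agent.X263.Qf

open Matrix

variable {A : Type*} [Ring A] [StarRing A]
variable {ι κ : Type*} [Fintype ι] [DecidableEq ι] [Fintype κ] [DecidableEq κ]

/-- the hyperbolic form -/
def hy (A : Type*) [Ring A] (κ : Type*) [DecidableEq κ] : Matrix (κ ⊕ κ) (κ ⊕ κ) A :=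
  fromBlocks 0 1 0 0

theorem metab (ε : ℤ) (B C D M : Matrix κ κ A) (h : (B + ε • Cᴴ) * M = 1)
    (h' : M * (B + ε • Cᴴ) = 1) : QI ε (fromBlocks 0 B C D) (hy A κ) := by
  have s1 : QI ε (fromBlocks 0 B C D) (fromBlocks (0 : Matrix κ κ A) (1 : Matrix κ κ A) 0
      (Mᴴ * D * M)) := by
    refine ⟨fromBlocks 1 0 0 Mᴴ, fromBlocks 1 0 0 (B + ε • Cᴴ)ᴴ, fromBlocks 0 0 (Mᴴ * C) 0,
      ?_, ?_, ?_⟩
    · rw [fromBlocks_multiply, ← conjTranspose_mul, h]; simp
    · rw [fromBlocks_multiply, ← conjTranspose_mul, h']; simp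
    · have e1 : B * M = 1 + -(ε • (Cᴴ * M)) := by
        rw [← h, Matrix.add_mul, Matrix.smul_mul]; abel
      rw [fromBlocks_conjTranspose, fromBlocks_multiply, fromBlocks_multiply,
        fromBlocks_conjTranspose, Matrix.fromBlocks_smul, sub_eq_add_neg, Matrix.fromBlocks_neg,
        Matrix.fromBlocks_add, Matrix.fromBlocks_add]
      simp only [conjTranspose_one, conjTranspose_zero, conjTranspose_conjTranspose,
        Matrix.one_mul, Matrix.mul_one, Matrix.zero_mul, Matrix.mul_zero, add_zero, zero_add,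
        smul_zero, neg_zero, e1, conjTranspose_mul, Matrix.mul_assoc]
  refine s1.trans ⟨fromBlocks 1 0 (-(Mᴴ * D * M)) 1, fromBlocks 1 0 (Mᴴ * D * M) 1, 0, ?_, ?_, ?_⟩
  · rw [fromBlocks_multiply]; simp
  · rw [fromBlocks_multiply]; simp
  · rw [fromBlocks_conjTranspose, fromBlocks_multiply, fromBlocks_multiply, hy]
    simp

theorem neg_sum (ε : ℤ) (ψ : Matrix κ κ A) (h : NS ε ψ) : QI ε (os (-ψ) ψ) (hy A κ) := by
  obtain ⟨N, h1, h2⟩ := h
  refine QI.trans ⟨fromBlocks 1 1 0 1, fromBlocks 1 (-1) 0 1, 0, ?_, ?_, ?_⟩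
    (metab ε ψ ψ ψ N h1 h2)
  · rw [fromBlocks_multiply]; simp
  · rw [fromBlocks_multiply]; simp
  · rw [fromBlocks_conjTranspose, os, fromBlocks_multiply, fromBlocks_multiply]
    simp

theorem sy_blocks (ε : ℤ) (W : Matrix (ι ⊕ κ) (ι ⊕ κ) A) :
    sy ε W.toBlocks₁₁ = (sy ε W).toBlocks₁₁ := by
  ext i j
  rfl

/-- matrices with constant entries -/
def MC (C : Subring A) {m n : Type*} (M : Matrix m n A) : Prop := ∀ i j, M i j ∈ C

section

variable {C : Subring A} {l m n : Type*} [Fintype m]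

theorem MC.mul {M : Matrix l m A} {N : Matrix m n A} (h : MC C M) (h' : MC C N) :
    MC C (M * N) := by
  intro i j
  rw [Matrix.mul_apply]
  exact C.sum_mem fun k _ => C.mul_mem (h _ _) (h' _ _)

theorem MC.add {M N : Matrix l m A} (h : MC C M) (h' : MC C N) : MC C (M + N) :=
  fun i j => C.add_mem (h i j) (h' i j)

theorem MC.neg {M : Matrix l m A} (h : MC C M) : MC C (-M) := fun i j => C.neg_mem (h i j)

theorem MC.zs (ε : ℤ) {M : Matrix l m A} (h : MC C M) : MC C (ε • M) :=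
  fun i j => C.zsmul_mem (h i j) ε

theorem MC.ct (hC : ∀ x ∈ C, star x ∈ C) {M : Matrix l m A} (h : MC C M) : MC C Mᴴ :=
  fun i j => hC _ (h j i)

end

/-- the index set of the sum -/
def sg (κ : Type) : (κ ⊕ κ) ⊕ Fin 2 ≃ (κ ⊕ Unit) ⊕ (κ ⊕ Unit) where
  toFun x := match x with
    | Sum.inl (Sum.inl i) => Sum.inl (Sum.inl i)
    | Sum.inl (Sum.inr i) => Sum.inr (Sum.inl i)
    | Sum.inr 0 => Sum.inr (Sum.inr ())
    | Sum.inr 1 => Sum.inl (Sum.inr ())
  invFun x := match x with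
    | Sum.inl (Sum.inl i) => Sum.inl (Sum.inl i)
    | Sum.inr (Sum.inl i) => Sum.inl (Sum.inr i)
    | Sum.inr (Sum.inr _) => Sum.inr 0
    | Sum.inl (Sum.inr _) => Sum.inr 1
  left_inv := by
    rintro ((i | i) | i)
    · rfl
    · rfl
    · fin_cases i <;> rfl
  right_inv := by rintro ((i | i) | (i | i)) <;> rfl

/-- the sum of a form and the negative of a form with the same core -/
theorem theta (ε : ℤ) (hε : ε * ε = 1) (C : Subring A) (hC : ∀ x ∈ C, star x ∈ C) {κ : Type}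
    [Fintype κ] [DecidableEq κ] (ψ ψ' N' : Matrix (κ ⊕ Unit) (κ ⊕ Unit) A)
    (h11 : ∀ i j, ψ (Sum.inl i) (Sum.inl j) = ψ' (Sum.inl i) (Sum.inl j)) (hc : MC C ψ')
    (hN : MC C N') (hn : sy ε ψ' * N' = 1) (hn' : N' * sy ε ψ' = 1) (hψ : NS ε ψ) :
    ∃ (a : Matrix (κ ⊕ κ) (κ ⊕ κ) A) (δ : Matrix (Fin 2) (Fin 2) A),
      QI ε (os ψ (-ψ')) (os a δ) ∧ MC C a ∧ δ 0 0 ∈ C ∧ NS ε δ := by
  set φ' := sy ε ψ' with hφ'
  have hφ'C : MC C φ' := hc.add ((hc.ct hC).zs ε)
  have hφ't : φ'ᴴ = ε • φ' := sy_ct hε ψ'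
  have hNt : N'ᴴ = ε • N' := by
    have e1 : N'ᴴ * φ' = ε • (1 : Matrix _ _ A) := by
      have := congrArg conjTranspose hn
      rw [conjTranspose_mul, hφ't, conjTranspose_one, Matrix.mul_smul] at this
      rw [← this, smul_smul, hε, one_smul]
    calc N'ᴴ = N'ᴴ * φ' * N' := by rw [Matrix.mul_assoc, hn, Matrix.mul_one]
      _ = ε • N' := by rw [e1, Matrix.smul_mul, Matrix.one_mul]
  set T : Matrix (κ ⊕ Unit) (κ ⊕ Unit) A := -(ε • φ') with hT
  have hTC : MC C T := (hφ'C.zs ε).neg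
  have hTt : Tᴴ = -φ' := by
    rw [hT, conjTranspose_neg, ct_zsmul, hφ't, smul_smul, hε, one_smul]
  set Q : Matrix (κ ⊕ Unit) (κ ⊕ Unit) A := -(ε • N') with hQ
  have hQC : MC C Q := (hN.zs ε).neg
  have hTQ : T * Q = 1 := by
    rw [hT, hQ, Matrix.neg_mul, Matrix.mul_neg, neg_neg, Matrix.smul_mul, Matrix.mul_smul,
      smul_smul, hε, one_smul, hn]
  have hQT : Q * T = 1 := by
    rw [hT, hQ, Matrix.neg_mul, Matrix.mul_neg, neg_neg, Matrix.smul_mul, Matrix.mul_smul,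
      smul_smul, hε, one_smul, hn']
  set ψ'' := Q * (-ψ') * Qᴴ with hψ''
  have hψ''C : MC C ψ'' := (hQC.mul hc.neg).mul (hQC.ct hC)
  have hsn : sy ε (-ψ') = -φ' := by
    rw [hφ', sy, sy, conjTranspose_neg, smul_neg]; abel
  have hQt : Qᴴ = -N' := by
    rw [hQ, conjTranspose_neg, ct_zsmul, hNt, smul_smul, hε, one_smul]
  have hG : sy ε ψ'' = Q := by
    rw [hψ'', sy_congr, hsn, hQt, Matrix.mul_neg, Matrix.neg_mul, Matrix.mul_neg, neg_neg,
      Matrix.mul_assoc, hn, Matrix.mul_one]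
  have s1 : QI ε (os ψ (-ψ')) (os ψ ψ'') := by
    refine (QI.refl ε ψ).os ⟨Q, T, 0, hQT, hTQ, ?_⟩
    simp [hψ'']
  set π : Matrix (κ ⊕ Unit) (κ ⊕ Unit) A := fromBlocks 1 0 0 0 with hπ
  have hπC : MC C π := by
    rintro (i | i) (j | j)
    · change (1 : Matrix κ κ A) i j ∈ C
      rw [Matrix.one_apply]; split_ifs; exacts [C.one_mem, C.zero_mem]
    · exact C.zero_mem
    · exact C.zero_mem
    · exact C.zero_mem
  have hπt : πᴴ = π := by rw [hπ, fromBlocks_conjTranspose]; simp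
  set W := fromBlocks (ψ + π * T * ψ'' * (Tᴴ * π)) (π * T * ψ'') (ψ'' * (Tᴴ * π)) ψ'' with hW
  have s2 : QI ε (os ψ ψ'') W := by
    refine ⟨fromBlocks 1 (π * T) 0 1, fromBlocks 1 (-(π * T)) 0 1, 0, ?_, ?_, ?_⟩
    · rw [fromBlocks_multiply]; simp
    · rw [fromBlocks_multiply]; simp
    · rw [fromBlocks_conjTranspose, os, fromBlocks_multiply, fromBlocks_multiply, hW]
      simp [conjTranspose_mul, hπt, Matrix.mul_assoc]
  have hsW : sy ε W = fromBlocks (sy ε ψ - π * φ' * π) π (-(Q * φ' * π)) Q := by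
    have e1 : W = fromBlocks 1 (π * T) 0 1 * os ψ ψ'' * (fromBlocks 1 (π * T) 0 1)ᴴ := by
      rw [fromBlocks_conjTranspose, os, fromBlocks_multiply, fromBlocks_multiply, hW]
      simp [conjTranspose_mul, hπt, Matrix.mul_assoc]
    have e2 : sy ε (os ψ ψ'') = fromBlocks (sy ε ψ) 0 0 Q := by
      rw [← hG, sy, os, fromBlocks_conjTranspose, Matrix.fromBlocks_smul, Matrix.fromBlocks_add]
      simp [sy]
    rw [e1, sy_congr, e2, fromBlocks_conjTranspose, fromBlocks_multiply, fromBlocks_multiply]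
    simp only [Matrix.one_mul, Matrix.zero_mul, Matrix.mul_zero, add_zero, zero_add,
      conjTranspose_one, conjTranspose_zero, Matrix.mul_one, conjTranspose_mul, hπt, hTt,
      Matrix.mul_assoc, hTQ, Matrix.mul_neg, Matrix.neg_mul]
    rw [← sub_eq_add_neg]
  have s3 := QI.reindex ε W (sg κ)
  set W' := W.submatrix (sg κ) (sg κ) with hW'
  set D : Matrix κ κ A := Q.toBlocks₁₁ with hD
  have hQφ : -(Q * φ' * π) = ε • π := by
    rw [hQ, Matrix.neg_mul, Matrix.neg_mul, neg_neg, Matrix.smul_mul, hn', Matrix.smul_mul,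
      Matrix.one_mul]
  have hsW' : sy ε W' = (sy ε W).submatrix (sg κ) (sg κ) := by ext i j; rfl
  have hs0 : sy ε W'.toBlocks₁₁ = fromBlocks 0 1 (ε • 1) D := by
    rw [sy_blocks, hsW', hsW, hQφ]
    ext i j
    rcases i with i | i <;> rcases j with j | j
    · change (sy ε ψ - π * φ' * π) (Sum.inl i) (Sum.inl j) = 0
      have e1 : (π * φ' * π) (Sum.inl i) (Sum.inl j) = φ' (Sum.inl i) (Sum.inl j) := by
        rw [hπ, ← fromBlocks_toBlocks φ', fromBlocks_multiply, fromBlocks_multiply]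
        simp
      rw [Matrix.sub_apply, e1, sub_eq_zero, hφ', sy, sy, Matrix.add_apply, Matrix.add_apply,
        Matrix.smul_apply, Matrix.smul_apply, conjTranspose_apply, conjTranspose_apply, h11, h11]
    · rfl
    · rfl
    · rfl
  have hs11 : sy ε W'.toBlocks₁₁ * fromBlocks (-(ε • D)) (ε • 1) 1 0 = 1 := by
    rw [hs0, fromBlocks_multiply, ← fromBlocks_one]
    congr 1
    · simp
    · simp
    · rw [Matrix.smul_mul, Matrix.one_mul, Matrix.mul_one, smul_neg, smul_smul, hε, one_smul]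
      simp
    · rw [Matrix.smul_mul, Matrix.one_mul, smul_smul, hε, one_smul]
      simp
  have s4 := split ε W'.toBlocks₁₁ W'.toBlocks₁₂ W'.toBlocks₂₁ W'.toBlocks₂₂ _ hs11
  rw [fromBlocks_toBlocks] at s4
  set N₁ : Matrix (κ ⊕ κ) (κ ⊕ κ) A := fromBlocks (-(ε • D)) (ε • 1) 1 0 with hN₁
  set Y := -(N₁ * (W'.toBlocks₁₂ + ε • W'.toBlocks₂₁ᴴ)) with hY
  -- membership
  have hWC : ∀ x y : (κ ⊕ Unit) ⊕ (κ ⊕ Unit), x ≠ Sum.inl (Sum.inr ()) →
      y ≠ Sum.inl (Sum.inr ()) → W x y ∈ C := by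
    have m1 : MC C (π * T * ψ'') := (hπC.mul hTC).mul hψ''C
    have m2 : MC C (ψ'' * (Tᴴ * π)) := hψ''C.mul ((hTC.ct hC).mul hπC)
    have m3 : MC C (π * T * ψ'' * (Tᴴ * π)) := m1.mul ((hTC.ct hC).mul hπC)
    rintro (x | x) (y | y) hx hy
    · rcases x with x | x
      · rcases y with y | y
        · change (ψ + π * T * ψ'' * (Tᴴ * π)) (Sum.inl x) (Sum.inl y) ∈ C
          rw [Matrix.add_apply, h11]
          exact C.add_mem (hc _ _) (m3 _ _)
        · exact absurd rfl hy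
      · exact absurd rfl hx
    · exact m1 _ _
    · exact m2 _ _
    · exact hψ''C _ _
  have k1 : ∀ i : κ ⊕ κ, sg κ (Sum.inl i) ≠ Sum.inl (Sum.inr ()) := by
    rintro (i | i) <;> simp [sg]
  have k2 : sg κ (Sum.inr 0) ≠ Sum.inl (Sum.inr ()) := by simp [sg]
  have c11 : MC C W'.toBlocks₁₁ := fun i j => hWC _ _ (k1 i) (k1 j)
  have c12 : ∀ i, W'.toBlocks₁₂ i 0 ∈ C := fun i => hWC _ _ (k1 i) k2
  have c21 : ∀ j, W'.toBlocks₂₁ 0 j ∈ C := fun j => hWC _ _ k2 (k1 j)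
  have c22 : W'.toBlocks₂₂ 0 0 ∈ C := hWC _ _ k2 k2
  have cN : MC C N₁ := by
    have h1 : MC C (1 : Matrix κ κ A) := by
      intro i j
      rw [Matrix.one_apply]; split_ifs; exacts [C.one_mem, C.zero_mem]
    have hDC : MC C D := fun i j => hQC _ _
    rintro (i | i) (j | j)
    · exact (hDC.zs ε).neg _ _
    · exact (h1.zs ε) _ _
    · exact h1 _ _
    · exact C.zero_mem
  have cY : ∀ i, Y i 0 ∈ C := by
    intro i
    rw [hY, Matrix.neg_apply, Matrix.mul_apply]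
    refine C.neg_mem (C.sum_mem fun k _ => C.mul_mem (cN _ _) ?_)
    rw [Matrix.add_apply, Matrix.smul_apply, conjTranspose_apply]
    exact C.add_mem (c12 _) (C.zsmul_mem (hC _ (c21 _)) _)
  have s5 := ((s1.trans s2).trans s3).trans s4
  refine ⟨_, _, s5, c11, ?_, ?_⟩
  · rw [Matrix.add_apply, Matrix.add_apply, Matrix.add_apply, Matrix.mul_apply,
      Matrix.mul_apply, Matrix.mul_apply]
    refine C.add_mem (C.add_mem (C.add_mem (C.sum_mem fun k _ => C.mul_mem ?_ (cY _))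
      (C.sum_mem fun k _ => C.mul_mem (hC _ (cY _)) (c12 _)))
      (C.sum_mem fun k _ => C.mul_mem (c21 _) (cY _))) c22
    rw [Matrix.mul_apply]
    exact C.sum_mem fun l _ => C.mul_mem (hC _ (cY _)) (c11 _ _)
  · have hns : NS ε (os ψ (-ψ')) := by
      obtain ⟨N, g1, g2⟩ := hψ
      have e : sy ε (os ψ (-ψ')) = fromBlocks (sy ε ψ) 0 0 (-φ') := by
        rw [← hsn, sy, os, fromBlocks_conjTranspose, Matrix.fromBlocks_smul,
          Matrix.fromBlocks_add]
        simp [sy]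
      refine ⟨fromBlocks N 0 0 (-N'), ?_, ?_⟩
      · rw [e, fromBlocks_multiply]; simp [g1, hn]
      · rw [e, fromBlocks_multiply]; simp [g2, hn']
    exact os_ns (s5.ns hε hns)

end Pool.Agent.X263.Qf
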