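import Pool.Agent.X263.Qf.Stab

/-!
The stable theorem for group rings.
-/

set_option autoImplicit false
set_option linter.unusedSectionVars false

namespace Pool.Agent.X263.Qf

open Matrix TH6.PF

section

variable {R G : Type} [Ring R] [StarRing R] [Group G]

/-- the augmentation as an endomorphism of the group ring -/
noncomputable def rh (R G : Type) [Ring R] [Group G] : MonoidAlgebra R G →+* MonoidAlgebra R G :=
  (MonoidAlgebra.singleOneRingHom : R →+* MonoidAlgebra R G).comp (augm R G)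

omit [StarRing R] in
theorem rh_apply (x : MonoidAlgebra R G) : rh R G x = MonoidAlgebra.single 1 (augm R G x) := rfl

omit [StarRing R] in
theorem rh_mem (x : MonoidAlgebra R G) : rh R G x ∈ Cs R G := ⟨_, rfl⟩

omit [StarRing R] in
theorem rh_const {x : MonoidAlgebra R G} (hx : x ∈ Cs R G) : rh R G x = x := by
  obtain ⟨r, rfl⟩ := (mem_Cs x).1 hx
  rw [rh_apply, augm_single]

theorem rh_star (x : MonoidAlgebra R G) :
    rh R G (sbar 1 x) = sbar 1 (rh R G x) := by
  rw [rh_apply, rh_apply, augm_sbar, sbar_single, inv_one, MonoidHom.one_apply, Units.val_one,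
    one_smul]

theorem Cs_star (x : MonoidAlgebra R G) (hx : x ∈ Cs R G) : sbar 1 x ∈ Cs R G := by
  obtain ⟨r, rfl⟩ := (mem_Cs x).1 hx
  rw [sbar_single, inv_one, MonoidHom.one_apply, Units.val_one, one_smul]
  exact (mem_Cs _).2 ⟨_, rfl⟩

theorem grp_stab (ε : ℤ) (hε : ε * ε = 1) (n : ℕ)
    (ψ : Matrix (Fin n) (Fin n) (MonoidAlgebra R G))
    (hψ : IsUnit (ψ + ε • sadj (1 : G →* ℤˣ) ψ))
    (i₀ : Fin n) (g : Fin n → G)
    (h : ∀ i j, i ≠ i₀ → j ≠ i₀ → ∃ k : R, ψ i j = MonoidAlgebra.single (g i * (g j)⁻¹) k)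
    (H : letI := sr (R := R) (1 : G →* ℤˣ)
      ∀ δ : Matrix (Fin 2) (Fin 2) (MonoidAlgebra R G), δ 0 0 ∈ Cs R G → NS ε δ →
        SE ε δ (δ.map (rh R G))) :
    letI := sr (R := R) (1 : G →* ℤˣ)
    SE ε ψ (cm G (ψ.map fun x => x.coeff.sum fun _ r => r)) := by
  classical
  let _ := sr (R := R) (1 : G →* ℤˣ)
  have hstar : ∀ x : MonoidAlgebra R G, star x = sbar 1 x := fun _ => rfl
  have hns : NS ε ψ := by
    obtain ⟨U, hU⟩ := hψ
    have e : sy ε ψ = U.val := hU.symm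
    exact ⟨U⁻¹.val, by rw [e, U.mul_inv], by rw [e, U.inv_mul]⟩
  set ψ₁ : Matrix (Fin n) (Fin n) (MonoidAlgebra R G) :=
    Matrix.of fun i j => MonoidAlgebra.single (g i)⁻¹ 1 * ψ i j * star (MonoidAlgebra.single (g j)⁻¹ 1)
    with hψ₁
  have q0 : QI ε ψ ψ₁ := by
    refine ⟨Matrix.diagonal fun i => MonoidAlgebra.single (g i)⁻¹ 1,
      Matrix.diagonal fun i => MonoidAlgebra.single (g i) 1, 0, ?_, ?_, ?_⟩
    · rw [Matrix.diagonal_mul_diagonal, ← Matrix.diagonal_one]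
      congr 1; funext i
      rw [MonoidAlgebra.single_mul_single, inv_mul_cancel, mul_one, MonoidAlgebra.one_def]
    · rw [Matrix.diagonal_mul_diagonal, ← Matrix.diagonal_one]
      congr 1; funext i
      rw [MonoidAlgebra.single_mul_single, mul_inv_cancel, mul_one, MonoidAlgebra.one_def]
    · rw [conjTranspose_zero, smul_zero, sub_zero, add_zero]
      ext1 i j
      rw [diagonal_conjTranspose, Matrix.mul_diagonal, Matrix.diagonal_mul]
      rfl
  let κ := {i : Fin n // ¬ i = i₀}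
  let e : κ ⊕ Unit ≃ Fin n := (Equiv.sumComm _ _).trans ((Equiv.sumCongr
    (Equiv.ofUnique Unit {i : Fin n // i = i₀}) (Equiv.refl _)).trans (Equiv.sumCompl _))
  have he : ∀ a : κ, e (Sum.inl a) = a.1 := fun a => rfl
  have q1 := q0.trans (QI.reindex ε ψ₁ e)
  have hcore : ∀ a b : κ, ψ₁.submatrix e e (Sum.inl a) (Sum.inl b) ∈ Cs R G := by
    intro a b
    rw [Matrix.submatrix_apply, he, he, hψ₁, Matrix.of_apply]
    obtain ⟨k, hk⟩ := h a.1 b.1 a.2 b.2
    rw [hk, hstar, sbar_single, MonoidAlgebra.single_mul_single,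
      MonoidAlgebra.single_mul_single]
    have e1 : (g a.1)⁻¹ * (g a.1 * (g b.1)⁻¹) * ((g b.1)⁻¹)⁻¹ = 1 := by group
    rw [e1]
    exact (mem_Cs _).2 ⟨_, rfl⟩
  have s1 := stab hε (Cs R G) Cs_star (rh R G) rh_star rh_mem (fun x hx => rh_const hx) H _ hcore
    (q1.ns hε hns)
  have q2 := q1.map (rh R G) rh_star
  have e2 : cm G (ψ.map fun x => x.coeff.sum fun _ r => r) = ψ.map (rh R G) := by
    ext1 i j
    rw [cm, Matrix.map_apply, Matrix.map_apply, Matrix.map_apply, rh_apply, augm_eq]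
  rw [e2]
  exact ((SE.of_QI q1).trans s1).trans (SE.of_QI q2).symm

end

/-- the skew case -/
theorem skew (R G : Type) [CommRing R] [IsDomain R] [StarRing R] [TrivialStar R] [Group G]
    [UniqueProds G] :
    letI := sr (R := R) (1 : G →* ℤˣ)
    ∀ δ : Matrix (Fin 2) (Fin 2) (MonoidAlgebra R G), δ 0 0 ∈ Cs R G → NS (-1) δ →
        SE (-1) δ (δ.map (rh R G)) := by
  let _ := sr (R := R) (1 : G →* ℤˣ)
  intro δ hδ hn
  have h0 : δ 0 0 + (-1 : ℤ) • star (δ 0 0) = 0 := by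
    obtain ⟨r, hr⟩ := (mem_Cs _).1 hδ
    rw [← hr]
    change _ + (-1 : ℤ) • sbar 1 (MonoidAlgebra.single 1 r) = 0
    rw [sbar_single, inv_one, MonoidHom.one_apply, Units.val_one, one_smul, star_trivial]
    simp
  obtain ⟨θ, hθ, q1⟩ := plane (cb_of (R := R) (G := G) 1 (-1) unit_dom) δ hδ h0 hn
  have q2 := q1.map (rh R G) rh_star
  have e1 : θ.map (rh R G) = θ := by
    ext1 i j
    exact rh_const (hθ i j)
  rw [e1] at q2
  exact SE.of_QI (q1.trans q2.symm)

end Pool.Agent.X263.Qf
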