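import Pool.Agent.X263.Qf.Four
import Pool.Agent.X263.Qf.Wrap

/-!
The residues of both types over integral group rings and over rings with involution.
-/

set_option autoImplicit false
set_option linter.unusedSectionVars false

namespace Pool.Agent.X263.Qf

open Matrix TH6.PF

/-- the involution of the integral group ring -/
@[reducible] noncomputable def zs (G : Type) [Group G] : StarRing (MonoidAlgebra ℤ G) :=
  sr (R := ℤ) (1 : G →* ℤˣ)

attribute [local instance] zs

section

variable {G : Type} [Group G]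

theorem star_zs (x : MonoidAlgebra ℤ G) : star x = sbar 1 x := rfl

theorem star_single (g : G) (r : ℤ) :
    star (MonoidAlgebra.single g r) = MonoidAlgebra.single g⁻¹ r := by
  rw [star_zs, sbar_single, MonoidHom.one_apply, Units.val_one, one_smul, star_trivial]

theorem coeff_star (x : MonoidAlgebra ℤ G) (g : G) : (star x).coeff g = x.coeff g⁻¹ := by
  rw [star_zs, coeff_sbar, MonoidHom.one_apply, Units.val_one, one_smul, star_trivial]

theorem coeff_intmul (n : ℤ) (x : MonoidAlgebra ℤ G) (g : G) :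
    ((n : MonoidAlgebra ℤ G) * x).coeff g = n * x.coeff g := by
  rw [← zsmul_eq_mul, MonoidAlgebra.coeff_smul, Finsupp.smul_apply, smul_eq_mul]

theorem tf_grp : TF (MonoidAlgebra ℤ G) := by
  intro n x hn h
  ext g
  have h1 := congrArg (fun y => y.coeff g) h
  simp only [coeff_intmul, MonoidAlgebra.coeff_zero, Finsupp.coe_zero, Pi.zero_apply,
    mul_eq_zero] at h1 ⊢
  exact h1.resolve_left hn

theorem hl_grp [UniqueProds G] : HL (MonoidAlgebra ℤ G) := by
  intro x hx
  have h1 : ∀ g : G, x.coeff g + x.coeff g⁻¹ = 0 := by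
    intro g
    have := congrArg (fun y => y.coeff g) hx
    simpa only [MonoidAlgebra.coeff_add, Finsupp.add_apply, coeff_star, MonoidAlgebra.coeff_zero,
      Finsupp.coe_zero, Pi.zero_apply] using this
  have h2 : x.coeff 1 = 0 := by
    have := h1 1
    rw [inv_one] at this
    omega
  obtain ⟨χ, hχ⟩ := lin (1 : G →* ℤˣ) 1 x (by
    intro g hg
    rw [MonoidAlgebra.coeff_add, Finsupp.add_apply, MonoidAlgebra.coeff_smul, Finsupp.smul_apply,
      ← star_zs, coeff_star, one_smul]
    exact h1 g)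
  refine ⟨χ, ?_⟩
  rw [h2, MonoidAlgebra.single_zero, zero_add, one_smul] at hχ
  exact hχ

end

section

variable {A B : Type*} [Ring A] [StarRing A] [Ring B] [StarRing B]

theorem hy_map' (f : B →+* A) (μ : Type) [DecidableEq μ] : (hy B μ).map f = hy A μ := by
  ext i j
  rcases i with i | i <;> rcases j with j | j <;> simp [hy, Matrix.one_apply, apply_ite f]

theorem SE.map (f : B →+* A) (hf : ∀ x, f (star x) = star (f x)) {ε : ℤ} {ι κ : Type}
    [Fintype ι] [DecidableEq ι] [Fintype κ] [DecidableEq κ] {ψ : Matrix ι ι B}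
    {ψ' : Matrix κ κ B} (h : SE ε ψ ψ') : SE ε (ψ.map f) (ψ'.map f) := by
  obtain ⟨μ, i1, i2, h⟩ := h
  refine ⟨μ, i1, i2, ?_⟩
  have e : ∀ {ι : Type} [Fintype ι] [DecidableEq ι] (ψ : Matrix ι ι B),
      (os ψ (hy B μ)).map f = os (ψ.map f) (hy A μ) := by
    intro ι _ _ ψ
    rw [os, os, Matrix.fromBlocks_map, hy_map']
    simp
  have := h.map f hf
  rwa [e, e] at this

theorem Z.map (f : B →+* A) (hf : ∀ x, f (star x) = star (f x)) {d : ℤ} {b : B} (h : Z d b) :
    Z d (f b) := by
  obtain ⟨c, k, ⟨h1, h2⟩, h3⟩ := h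
  refine ⟨f c, f k, ⟨?_, ?_⟩, ?_⟩
  · rw [← hf, ← hf, ← map_mul, h1, map_add, map_one, map_mul, map_intCast, map_add]
  · rw [← hf, ← hf, ← map_mul, h2, map_add, map_one, map_mul, map_intCast, map_add]
  · have h4 := h3.map f hf
    rw [hy_map'] at h4
    have e : (T d b c).map f = T d (f b) (f c) := by
      ext i j
      fin_cases i <;> fin_cases j <;> simp [T]
    rwa [e] at h4

/-- evaluation of Laurent polynomials at a unitary element -/
theorem transport (t : A) (h1 : t * star t = 1) (h2 : star t * t = 1) :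
    ∃ (f : MonoidAlgebra ℤ (Multiplicative ℤ) →+* A) (_ : ∀ x, f (star x) = star (f x))
      (g : MonoidAlgebra ℤ (Multiplicative ℤ)), g * star g = 1 ∧ f g = t := by
  let u : Aˣ := ⟨t, star t, h1, h2⟩
  let φ : Multiplicative ℤ →* A := (Units.coeHom A).comp (zpowersHom Aˣ u)
  let f : MonoidAlgebra ℤ (Multiplicative ℤ) →+* A :=
    MonoidAlgebra.liftNCRingHom (Int.castRingHom A) φ fun x y => Int.cast_commute x (φ y)
  have hf : ∀ (z : Multiplicative ℤ) (r : ℤ), f (MonoidAlgebra.single z r) = r * φ z := by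
    intro z r
    change MonoidAlgebra.liftNC _ _ (MonoidAlgebra.single z r) = _
    rw [MonoidAlgebra.liftNC_single]
    rfl
  have hsu : star u = u⁻¹ := by
    ext
    rfl
  have hφ : ∀ z : Multiplicative ℤ, star (φ z) = φ z⁻¹ := by
    intro z
    change star (((zpowersHom Aˣ u z : Aˣ) : A)) = ((zpowersHom Aˣ u z⁻¹ : Aˣ) : A)
    rw [map_inv, zpowersHom_apply, ← Units.coe_star, star_zpow, hsu, _root_.inv_zpow]
  refine ⟨f, ?_, MonoidAlgebra.single (Multiplicative.ofAdd 1) 1, ?_, ?_⟩
  · intro x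
    induction x using MonoidAlgebra.induction_linear with
    | zero => rw [star_zero, map_zero, star_zero]
    | add x y hx hy => rw [star_add, map_add, hx, hy, map_add, star_add]
    | single g r =>
      rw [star_single, hf, hf, star_mul, hφ, star_m, cmm]
  · rw [star_single, MonoidAlgebra.single_mul_single, mul_inv_cancel, mul_one,
      ← MonoidAlgebra.one_def]
  · rw [hf]
    simp [φ, u]

theorem type1 {m₁ m₂ x y d : ℤ} (h1 : x * m₂ + y * m₁ = 1) (h2 : 2 * d = m₁ * m₂) {t : A}
    (h3 : t * star t = 1) (h4 : star t * t = 1) :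
    Z d (((x * m₂ : ℤ) : A) * t + ((y * m₁ : ℤ) : A)) := by
  obtain ⟨f, hf, g, h5, h6⟩ := transport t h3 h4
  have h7 := (Z_euclid hl_grp m₁ m₂ x y d h1 h2 g h5).map f hf
  rw [map_add, map_mul, map_intCast, map_intCast, h6] at h7
  exact h7

theorem type2 {m : ℤ} (hm : m % 2 = 1) {t : A} (h3 : t * star t = 1) (h4 : star t * t = 1) :
    Z (2 * m) (1 + ((2 * m : ℤ) : A) * (t - star t)) := by
  obtain ⟨f, hf, g, h5, h6⟩ := transport t h3 h4
  have h7 := (second hl_grp tf_grp m hm g h5).map f hf
  rw [map_add, map_mul, map_intCast, map_one, map_sub, hf, h6] at h7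
  exact h7

end

end Pool.Agent.X263.Qf
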