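import Pool.Agent.X263.Qf.Rel

/-!
The forms `T d b c` that are stably hyperbolic.
-/

set_option autoImplicit false
set_option linter.unusedSectionVars false

namespace Pool.Agent.X263.Qf

open Matrix

section

variable {A : Type*} [Ring A] [StarRing A]

/-- nonzero integers are not zero divisors -/
def TF (A : Type*) [Ring A] : Prop := ∀ (n : ℤ) (x : A), n ≠ 0 → (n : A) * x = 0 → x = 0

/-- the data of a nonsingular form `T d b c` -/
def Val (d : ℤ) (b c k : A) : Prop :=
  star b * b = 1 + ((2 * d : ℤ) : A) * (c + star c) ∧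
    b * star b = 1 + ((2 * d : ℤ) : A) * (k + star k)

/-- the residues of the nonsingular forms -/
def V (d : ℤ) (b : A) : Prop := ∃ c k : A, Val d b c k

/-- the residues of the stably hyperbolic forms -/
def Z (d : ℤ) (b : A) : Prop := ∃ c k : A, Val d b c k ∧ SE 1 (T d b c) (hy A Unit)

theorem Z.v {d : ℤ} {b : A} (h : Z d b) : V d b := by
  obtain ⟨c, k, h, _⟩ := h
  exact ⟨c, k, h⟩

theorem ct_two (x y z w : A) : (!![x, y; z, w] : Matrix (Fin 2) (Fin 2) A)ᴴ =
    !![star x, star z; star y, star w] := by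
  ext i j
  fin_cases i <;> fin_cases j <;> rfl

theorem hy_ns (μ : Type) [Fintype μ] [DecidableEq μ] : NS 1 (hy A μ) := by
  have e : sy 1 (hy A μ) = fromBlocks 0 1 1 0 := by
    rw [sy, hy, fromBlocks_conjTranspose, one_smul, Matrix.fromBlocks_add]
    simp
  refine ⟨fromBlocks 0 1 1 0, ?_, ?_⟩ <;> rw [e, fromBlocks_multiply] <;> simp

theorem T_ind (hL : HL A) (ht : TF A) {d : ℤ} (hd : d ≠ 0) {b c c' k k' : A}
    (h : Val d b c k) (h' : Val d b c' k') : QI 1 (T d b c) (T d b c') := by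
  have e : c + star c = c' + star c' := by
    rw [← sub_eq_zero]
    refine ht (2 * d) _ (by omega) ?_
    have e1 := h.1
    rw [h'.1, add_right_inj] at e1
    rw [mul_sub, ← e1, sub_self]
  refine QI_of_sy hL 1 1 (one_mul 1) (one_mul 1) ?_
  rw [conjTranspose_one, Matrix.one_mul, Matrix.mul_one, sy_T, sy_T, e]

theorem Z.spec (hL : HL A) (ht : TF A) {d : ℤ} (hd : d ≠ 0) {b c k : A} (h : Z d b)
    (h' : Val d b c k) : SE 1 (T d b c) (hy A Unit) := by
  obtain ⟨c', k', h1, h2⟩ := h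
  exact (SE.of_QI (T_ind hL ht hd h' h1)).trans h2

theorem Val.mul {d : ℤ} {b c k b' c' k' : A} (h : Val d b c k) (h' : Val d b' c' k') :
    Val d (b * b') (c' + star b' * c * b') (k + b * k' * star b) := by
  obtain ⟨h1, h2⟩ := h
  obtain ⟨g1, g2⟩ := h'
  constructor
  · calc star (b * b') * (b * b') = star b' * (star b * b) * b' := by
          rw [star_mul]; simp only [mul_assoc]
      _ = _ := by
          rw [h1, mul_add, mul_one, add_mul, g1, cmm', mul_assoc ((2 * d : ℤ) : A), star_add,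
            star_mul, star_mul, star_star]
          noncomm_ring
  · calc b * b' * star (b * b') = b * (b' * star b') * star b := by
          rw [star_mul]; simp only [mul_assoc]
      _ = _ := by
          rw [g2, mul_add, mul_one, add_mul, h2, cmm', mul_assoc ((2 * d : ℤ) : A), star_add,
            star_mul, star_mul, star_star]
          noncomm_ring

theorem V.mul {d : ℤ} {b b' : A} (h : V d b) (h' : V d b') : V d (b * b') := by
  obtain ⟨c, k, h⟩ := h
  obtain ⟨c', k', h'⟩ := h'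
  exact ⟨_, _, h.mul h'⟩

theorem T_mul (hL : HL A) (ht : TF A) {d : ℤ} (hd : d ≠ 0) {b c k b' c' k' : A}
    (h : Val d b c k) (h' : Val d b' c' k') :
    SE 1 (os (T d b c) (T d b' c'))
      (os (T d (b * b') (c' + star b' * c * b')) (hy A Unit)) :=
  prod_SE hL d (fun x => ht (2 * d) x (by omega)) b c b' c' k' h.1 h'.1 h'.2

theorem Z.mul (hL : HL A) (ht : TF A) {d : ℤ} (hd : d ≠ 0) {b b' : A}
    (h : Z d b) (h' : Z d b') : Z d (b * b') := by
  obtain ⟨c, k, h1, h2⟩ := h
  obtain ⟨c', k', g1, g2⟩ := h'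
  refine ⟨_, _, h1.mul g1, ?_⟩
  refine SE.cancel_hy (μ := Unit) ?_
  exact (T_mul hL ht hd h1 g1).symm.trans (h2.add g2)

theorem Z.of_mul (hL : HL A) (ht : TF A) {d : ℤ} (hd : d ≠ 0) {b b' : A}
    (h : V d b) (h' : Z d b') (h'' : Z d (b * b')) : Z d b := by
  obtain ⟨c, k, h1⟩ := h
  obtain ⟨c', k', g1, g2⟩ := h'
  refine ⟨_, _, h1, ?_⟩
  refine SE.cancel_hy (μ := Unit) ?_
  have s1 := (SE.refl (ε := 1) (T d b c)).add g2.symm
  have s2 := T_mul hL ht hd h1 g1
  have s3 := (h''.spec hL ht hd (h1.mul g1)).add (SE.refl (ε := 1) (hy A Unit))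
  exact s1.trans (s2.trans s3)

theorem V.unit {d : ℤ} {t : A} (h1 : star t * t = 1) (h2 : t * star t = 1) : Val d t 0 0 := by
  constructor
  · rw [h1]; simp
  · rw [h2]; simp

/-- the matrix of `T d b c` in blocks -/
theorem T_blocks (a b c e : A) : QI 1 !![a, b; c, e] (fromBlocks (Matrix.of fun _ _ : Unit => a)
    (Matrix.of fun _ _ : Unit => b) (Matrix.of fun _ _ : Unit => c)
    (Matrix.of fun _ _ : Unit => e)) := by
  let f : Unit ⊕ Unit ≃ Fin 2 := (Equiv.sumCongr (Equiv.ofUnique _ _)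
    (Equiv.ofUnique _ _)).trans (finSumFinEquiv (m := 1) (n := 1))
  refine (QI.reindex 1 _ f).trans (QI.of_eq ?_)
  ext i j
  rcases i with i | i <;> rcases j with j | j <;> rfl

theorem Z.unit (d : ℤ) {t : A} (h1 : star t * t = 1) (h2 : t * star t = 1) : Z d t := by
  refine ⟨0, 0, V.unit h1 h2, SE.of_QI ?_⟩
  have q1 : QI 1 (T d t 0) !![0, 0; t, (d : A)] := by
    refine ⟨!![0, 1; 1, 0], !![0, 1; 1, 0], 0, ?_, ?_, ?_⟩
    · ext i j; fin_cases i <;> fin_cases j <;> simp
    · ext i j; fin_cases i <;> fin_cases j <;> simp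
    · rw [ct_two, T, Matrix.mul_fin_two, Matrix.mul_fin_two]
      ext i j
      fin_cases i <;> fin_cases j <;> simp
  refine q1.trans ((T_blocks _ _ _ _).trans ?_)
  refine metab 1 _ _ _ (Matrix.of fun _ _ => t) ?_ ?_
  · ext i j
    simpa [Matrix.mul_apply, Matrix.one_apply] using h1
  · ext i j
    simpa [Matrix.mul_apply, Matrix.one_apply] using h2

theorem Val.congr {d : ℤ} {b c k : A} (h : Val d b c k) (x : A) :
    Val d (b + ((2 * d : ℤ) : A) * x) (c + star x * b + (d : A) * (star x * x))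
      (k + b * star x + (d : A) * (x * star x)) := by
  obtain ⟨h1, h2⟩ := h
  obtain ⟨δ, hδ⟩ : ∃ δ : A, δ = (d : A) := ⟨_, rfl⟩
  have e2 : ((2 * d : ℤ) : A) = 2 * δ := by rw [hδ]; push_cast; rfl
  have cδ : ∀ x : A, x * δ = δ * x := fun x => by rw [hδ]; exact cmm d x
  have sδ : star δ = δ := by rw [hδ]; exact star_m d
  rw [e2] at h1 h2
  constructor
  · rw [e2, ← hδ]
    simp only [star_add, star_mul, star_star, sδ, star_ofNat]
    have e3 : (star b + star x * (δ * 2)) * (b + 2 * δ * x) =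
        star b * b + 2 * δ * (star x * b + star b * x + 2 * (δ * (star x * x))) := by
      have f1 : star x * δ = δ * star x := cδ _
      have f2 : star b * δ = δ * star b := cδ _
      calc (star b + star x * (δ * 2)) * (b + 2 * δ * x)
          = star b * b + 2 * ((star b * δ) * x) + 2 * ((star x * δ) * b) +
            4 * ((star x * δ) * (δ * x)) := by noncomm_ring
        _ = _ := by
          rw [f1, f2, mul_assoc δ (star x) (δ * x), ← mul_assoc (star x) δ x, f1]
          noncomm_ring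
    rw [e3, h1]
    have f3 : star x * x * δ = δ * (star x * x) := cδ _
    rw [f3]
    noncomm_ring
  · rw [e2, ← hδ]
    simp only [star_add, star_mul, star_star, sδ, star_ofNat]
    have e3 : (b + 2 * δ * x) * (star b + star x * (δ * 2)) =
        b * star b + 2 * δ * (b * star x + x * star b + 2 * (δ * (x * star x))) := by
      have f1 : b * star x * δ = δ * (b * star x) := cδ _
      have f2 : x * star x * δ = δ * (x * star x) := cδ _
      calc (b + 2 * δ * x) * (star b + star x * (δ * 2))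
          = b * star b + 2 * (b * star x * δ) + 2 * (δ * (x * star b)) +
            4 * (δ * (x * star x * δ)) := by noncomm_ring
        _ = _ := by
          rw [f1, f2]
          noncomm_ring
    rw [e3, h2]
    have f3 : x * star x * δ = δ * (x * star x) := cδ _
    rw [f3]
    noncomm_ring

theorem V.congr {d : ℤ} {b : A} (h : V d b) (x : A) : V d (b + ((2 * d : ℤ) : A) * x) := by
  obtain ⟨c, k, h⟩ := h
  exact ⟨_, _, h.congr x⟩

theorem T_congr (hL : HL A) {d : ℤ} (b c x : A) :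
    QI 1 (T d b c) (T d (b + ((2 * d : ℤ) : A) * x)
      (c + star x * b + (d : A) * (star x * x))) := by
  obtain ⟨δ, hδ⟩ : ∃ δ : A, δ = (d : A) := ⟨_, rfl⟩
  have e2 : ((2 * d : ℤ) : A) = 2 * δ := by rw [hδ]; push_cast; rfl
  have cδ : ∀ x : A, x * δ = δ * x := fun x => by rw [hδ]; exact cmm d x
  have sδ : star δ = δ := by rw [hδ]; exact star_m d
  refine QI_of_sy hL !![1, 0; star x, 1] !![1, 0; -star x, 1] ?_ ?_ ?_
  · ext i j; fin_cases i <;> fin_cases j <;> simp
  · ext i j; fin_cases i <;> fin_cases j <;> simp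
  · rw [sy_T, sy_T, ct_two, Matrix.mul_fin_two, Matrix.mul_fin_two, e2, ← hδ]
    have f1 : star x * δ = δ * star x := cδ _
    have f3 : star x * x * δ = δ * (star x * x) := cδ _
    ext i j
    fin_cases i <;> fin_cases j
    · simp
    · simp
      noncomm_ring
    · simp [sδ]
      rw [add_comm]
      congr 1
      rw [show star x * (2 * δ) = 2 * (star x * δ) by noncomm_ring, f1,
        show δ * 2 = 2 * δ from (cδ 2).symm]
      noncomm_ring
      rw [f1]
    · simp [sδ]
      have f4 : star x * (2 * δ) * x = 2 * (δ * (star x * x)) := by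
        rw [show star x * (2 * δ) * x = 2 * ((star x * δ) * x) by noncomm_ring, f1]
        noncomm_ring
      rw [f3, add_mul, f4]
      noncomm_ring

theorem Z.congr (hL : HL A) {d : ℤ} {b : A} (h : Z d b) (x : A) :
    Z d (b + ((2 * d : ℤ) : A) * x) := by
  obtain ⟨c, k, h1, h2⟩ := h
  exact ⟨_, _, h1.congr x, (SE.of_QI (T_congr hL b c x)).symm.trans h2⟩

/-- the square relation -/
theorem Z.sq (hL : HL A) (ht : TF A) {d r : ℤ} (hd : d ≠ 0) (hr : r ≠ 0) {b : A} (h : Z d b)
    (h' : V (r ^ 2 * d) b) : Z (r ^ 2 * d) b := by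
  obtain ⟨c, k, h1⟩ := h'
  refine ⟨c, k, h1, ?_⟩
  have hD : 2 * (r ^ 2 * d) ≠ 0 := by positivity
  have q1 := sq_rel hL d r (fun x => ht _ x hD) b c k h1.1 h1.2
  have h2 : Val d b (((r * r : ℤ) : A) * c) (((r * r : ℤ) : A) * k) := by
    have e : ∀ y : A, ((2 * (r ^ 2 * d) : ℤ) : A) * (y + star y) =
        ((2 * d : ℤ) : A) * (((r * r : ℤ) : A) * y + star (((r * r : ℤ) : A) * y)) := by
      intro y
      rw [star_mul, star_m, cmm, ← mul_add, ← mul_assoc ((2 * d : ℤ) : A), ← Int.cast_mul]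
      congr 2; ring
    exact ⟨by rw [h1.1, e], by rw [h1.2, e]⟩
  have s1 := h.spec hL ht hd h2
  obtain ⟨U, hU⟩ : ∃ U, U = T d b (((r * r : ℤ) : A) * c) := ⟨_, rfl⟩
  rw [← hU] at q1 s1
  have hns : NS 1 (-U) := by
    have n1 := (QI.symm q1).ns (by norm_num) (hy_ns (A := A) (Fin 2))
    exact os_ns n1
  -- add `U`
  have hns' : NS 1 U := by
    obtain ⟨N, g1, g2⟩ := hns
    have e : sy 1 (-U) = -(sy 1 U) := by
      rw [sy, sy, conjTranspose_neg, one_smul, one_smul]; abel
    rw [e] at g1 g2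
    exact ⟨-N, by rw [Matrix.mul_neg, ← Matrix.neg_mul, g1],
      by rw [Matrix.neg_mul, ← Matrix.mul_neg, g2]⟩
  have q2 : SE 1 (os (T (r ^ 2 * d) b c) (-U)) (os U (-U)) := by
    refine (SE.of_QI q1).trans (SE.of_QI ?_)
    exact ((os_comm U (-U)).trans (neg_sum 1 U hns')).symm
  exact (SE.cancel hns' q2).trans s1

theorem sy_neg {ι : Type*} [Fintype ι] (ψ : Matrix ι ι A) : sy 1 (-ψ) = -(sy 1 ψ) := by
  rw [sy, sy, conjTranspose_neg, one_smul, one_smul]; abel

theorem QI.neg {ι κ : Type*} [Fintype ι] [DecidableEq ι] [Fintype κ] [DecidableEq κ]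
    {ψ : Matrix ι ι A} {ψ' : Matrix κ κ A} (h : QI 1 ψ ψ') : QI 1 (-ψ) (-ψ') := by
  obtain ⟨P, Q, χ, h1, h2, h3⟩ := h
  refine ⟨P, Q, -χ, h1, h2, ?_⟩
  rw [Matrix.mul_neg, Matrix.neg_mul, h3, conjTranspose_neg, smul_neg]
  abel

theorem hy_neg (μ : Type) [Fintype μ] [DecidableEq μ] : QI 1 (-(hy A μ)) (hy A μ) := by
  have e : -(hy A μ) = fromBlocks 0 (-1) 0 0 := by
    rw [hy, Matrix.fromBlocks_neg]; simp
  rw [e]
  refine metab 1 _ _ _ (-1) ?_ ?_ <;> simp

theorem SE.neg {ι κ : Type} [Fintype ι] [DecidableEq ι] [Fintype κ] [DecidableEq κ]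
    {ψ : Matrix ι ι A} {ψ' : Matrix κ κ A} (h : SE 1 ψ ψ') : SE 1 (-ψ) (-ψ') := by
  obtain ⟨μ, i1, i2, h⟩ := h
  have e : ∀ {ι : Type} [Fintype ι] [DecidableEq ι] (ψ : Matrix ι ι A),
      QI 1 (os (-ψ) (hy A μ)) (-(os ψ (hy A μ))) := by
    intro ι _ _ ψ
    refine ((QI.refl 1 (-ψ)).os (hy_neg μ).symm).trans (QI.of_eq ?_)
    rw [os, os, Matrix.fromBlocks_neg]
    simp
  exact ⟨μ, i1, i2, (e ψ).trans (h.neg.trans (e ψ').symm)⟩

theorem Z.neg {d : ℤ} {b : A} (h : Z d b) : Z (-d) b := by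
  obtain ⟨c, k, ⟨h1, h2⟩, h3⟩ := h
  have e : ∀ y : A, ((2 * -d : ℤ) : A) * (-y + star (-y)) = ((2 * d : ℤ) : A) * (y + star y) := by
    intro y
    rw [star_neg]
    push_cast
    noncomm_ring
  refine ⟨-c, -k, ⟨by rw [e, h1], by rw [e, h2]⟩, ?_⟩
  refine (SE.of_QI ?_).trans (h3.neg.trans (SE.of_QI (hy_neg Unit)))
  refine ⟨!![1, 0; 0, -1], !![1, 0; 0, -1], 0, ?_, ?_, ?_⟩
  · ext i j; fin_cases i <;> fin_cases j <;> simp
  · ext i j; fin_cases i <;> fin_cases j <;> simp
  · rw [ct_two, T, T, Matrix.mul_fin_two, Matrix.mul_fin_two]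
    ext i j
    fin_cases i <;> fin_cases j <;> simp

end

end Pool.Agent.X263.Qf
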